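import Mathlib

set_option autoImplicit false

/-!
# Arithmetic of the exponent
-/

namespace Pool.Agent.Helper36.Niho

lemma padic_lt {i k : ℕ} (hi : 0 < i) (hk : 0 < k)
    (h : IsCoprime ((2 : ℤ) ^ i * 2 ^ i - 1) (2 ^ k + 1)) : padicValNat 2 i < padicValNat 2 k := by
  by_contra hcon
  push Not at hcon
  set d := Nat.gcd i k with hd
  have hdpos : 0 < d := Nat.gcd_pos_of_pos_left k hi
  obtain ⟨i', hi'⟩ := Nat.gcd_dvd_left i k
  obtain ⟨k', hk'⟩ := Nat.gcd_dvd_right i k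
  rw [← hd] at hi' hk'
  have hcop : Nat.Coprime i' k' := by
    have h1 : Nat.gcd i k = d * Nat.gcd i' k' := by
      rw [hi', hk', Nat.gcd_mul_left]
    rw [← hd] at h1
    have h2 : d * Nat.gcd i' k' = d * 1 := by omega
    exact Nat.eq_of_mul_eq_mul_left hdpos h2
  have hi'0 : i' ≠ 0 := by rintro rfl; omega
  have hk'0 : k' ≠ 0 := by rintro rfl; omega
  have hodd : Odd k' := by
    rw [← Nat.not_even_iff_odd]
    intro heven
    have h1 : ¬ 2 ∣ i' := by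
      intro h2
      have := Nat.dvd_gcd h2 heven.two_dvd
      rw [hcop] at this
      omega
    have h2 : padicValNat 2 i' = 0 := padicValNat.eq_zero_of_not_dvd h1
    have h3 : padicValNat 2 i = padicValNat 2 d := by
      rw [hi', padicValNat.mul hdpos.ne' hi'0, h2, add_zero]
    have h4 : padicValNat 2 k = padicValNat 2 d + padicValNat 2 k' := by
      rw [hk', padicValNat.mul hdpos.ne' hk'0]
    have h5 : 1 ≤ padicValNat 2 k' := one_le_padicValNat_of_dvd hk'0 heven.two_dvd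
    omega
  have h1 : ((2 : ℤ) ^ d + 1) ∣ 2 ^ k + 1 := by
    have := hodd.add_dvd_pow_add_pow ((2 : ℤ) ^ d) 1
    rw [one_pow, ← pow_mul, ← hk'] at this
    exact this
  have h2 : ((2 : ℤ) ^ d + 1) ∣ 2 ^ i * 2 ^ i - 1 := by
    have h3 : ((2 : ℤ) ^ d * 2 ^ d - 1) ∣ 2 ^ i * 2 ^ i - 1 := by
      have := sub_dvd_pow_sub_pow ((2 : ℤ) ^ d * 2 ^ d) 1 i'
      rw [one_pow, mul_pow, ← pow_mul, ← hi'] at this
      exact this
    refine dvd_trans ⟨2 ^ d - 1, by ring⟩ h3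
  have h3 := h.isUnit_of_dvd' h2 h1
  have h4 : (1 : ℤ) < 2 ^ d + 1 := by
    have : (0 : ℤ) < 2 ^ d := by positivity
    linarith
  rcases Int.isUnit_iff.1 h3 with h5 | h5
  · omega
  · omega

/-- from `ψ (s - 1) = s` to the conjectured form of `s` -/
lemma conclusion {k s : ℕ} (hk : 1 ≤ k) {ψ : ℤ}
    (hψ : ψ * ((s : ℤ) - 1) ≡ s [ZMOD (2 ^ k + 1 : ℤ)])
    (hs : IsCoprime (2 * (s : ℤ) - 1) (2 ^ k + 1))
    {i : ℕ} (hi : ψ ≡ 2 ^ i [ZMOD (2 ^ k + 1 : ℤ)] ∨ ψ ≡ -2 ^ i [ZMOD (2 ^ k + 1 : ℤ)]) :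
    ∃ r : ℕ, 0 < r ∧ padicValNat 2 r < padicValNat 2 k ∧
      ((s : ℤ) * (2 ^ r + 1) ≡ 2 ^ r [ZMOD (2 ^ k + 1 : ℤ)] ∨
        (s : ℤ) * (2 ^ r - 1) ≡ 2 ^ r [ZMOD (2 ^ k + 1 : ℤ)]) := by
  set n : ℤ := 2 ^ k + 1 with hn
  have hn3 : 3 ≤ n := by
    have : (2 : ℤ) ^ 1 ≤ 2 ^ k := pow_le_pow_right₀ (by norm_num) hk
    rw [hn]; linarith
  have hform : (s : ℤ) * (2 ^ i + 1) ≡ 2 ^ i [ZMOD n] ∨ (s : ℤ) * (2 ^ i - 1) ≡ 2 ^ i [ZMOD n] := by
    rcases hi with hi | hi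
    · right
      have h1 : (2 : ℤ) ^ i * ((s : ℤ) - 1) ≡ s [ZMOD n] := ((hi.symm).mul_right _).trans hψ
      have h2 := h1.sub_right (s : ℤ)
      have h3 := h2.add_right ((2 : ℤ) ^ i)
      have e1 : (2 : ℤ) ^ i * ((s : ℤ) - 1) - s + 2 ^ i = s * (2 ^ i - 1) := by ring
      have e2 : (s : ℤ) - s + 2 ^ i = 2 ^ i := by ring
      rwa [e1, e2] at h3
    · left
      have h1 : (-(2 : ℤ) ^ i) * ((s : ℤ) - 1) ≡ s [ZMOD n] := ((hi.symm).mul_right _).trans hψ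
      have h2 := (h1.symm).add_right ((s : ℤ) * 2 ^ i)
      have e1 : (s : ℤ) + s * 2 ^ i = s * (2 ^ i + 1) := by ring
      have e2 : (-(2 : ℤ) ^ i) * ((s : ℤ) - 1) + s * 2 ^ i = 2 ^ i := by ring
      rwa [e1, e2] at h2
  have hsq : ψ * ψ ≡ 2 ^ i * 2 ^ i [ZMOD n] := by
    rcases hi with hi | hi
    · exact hi.mul hi
    · have := hi.mul hi
      have e1 : (-(2 : ℤ) ^ i) * -2 ^ i = 2 ^ i * 2 ^ i := by ring
      rwa [e1] at this
  have hu1 : IsCoprime (ψ - 1) n := by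
    have h1 : (ψ - 1) * ((s : ℤ) - 1) ≡ 1 [ZMOD n] := by
      have := hψ.sub_right ((s : ℤ) - 1)
      have e1 : ψ * ((s : ℤ) - 1) - (s - 1) = (ψ - 1) * (s - 1) := by ring
      have e2 : (s : ℤ) - (s - 1) = 1 := by ring
      rwa [e1, e2] at this
    obtain ⟨t, ht⟩ := Int.modEq_iff_dvd.1 h1
    exact ⟨(s : ℤ) - 1, t, by linear_combination -ht⟩
  have hu2 : IsCoprime (ψ + 1) n := by
    have h1 : (ψ + 1) * ((s : ℤ) - 1) ≡ 2 * s - 1 [ZMOD n] := by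
      have := hψ.add_right ((s : ℤ) - 1)
      have e1 : ψ * ((s : ℤ) - 1) + (s - 1) = (ψ + 1) * (s - 1) := by ring
      have e2 : (s : ℤ) + (s - 1) = 2 * s - 1 := by ring
      rwa [e1, e2] at this
    obtain ⟨t, ht⟩ := Int.modEq_iff_dvd.1 h1
    obtain ⟨a, b, hab⟩ := hs
    refine ⟨a * ((s : ℤ) - 1), a * t + b, ?_⟩
    linear_combination hab - a * ht
  have hcop : IsCoprime ((2 : ℤ) ^ i * 2 ^ i - 1) n := by
    have h1 : IsCoprime ((ψ - 1) * (ψ + 1)) n := hu1.mul_left hu2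
    obtain ⟨t, ht⟩ := Int.modEq_iff_dvd.1 hsq
    obtain ⟨a, b, hab⟩ := h1
    refine ⟨a, b - a * t, ?_⟩
    linear_combination hab + a * ht
  have hi0 : 0 < i := by
    rcases Nat.eq_zero_or_pos i with h | h
    · exfalso
      rw [h] at hcop
      simp only [pow_zero, mul_one, sub_self] at hcop
      have := isCoprime_zero_left.1 hcop
      rcases Int.isUnit_iff.1 this with h5 | h5
      · omega
      · omega
    · exact h
  exact ⟨i, hi0, padic_lt hi0 (by omega) hcop, hform⟩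

end Pool.Agent.Helper36.Niho
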