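import Mathlib

set_option autoImplicit false
set_option linter.unusedSectionVars false
set_option linter.style.haveILetI false

/-!
# Basic facts: the field of `q ^ 2` elements, its norm-one group and the trace to the subfield
-/

namespace Pool.Agent.Helper36.Niho

open Finset

/-- The group of elements of norm one (the `(q+1)`-st roots of unity). -/
abbrev UG (F : Type) [Field F] (q : ℕ) := rootsOfUnity (q + 1) F

section
variable {F : Type} [Field F] {q : ℕ}

/-- The inclusion of the norm-one group in the field. -/
def c (w : UG F q) : F := ((w : Fˣ) : F)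

@[simp] lemma c_one : c (1 : UG F q) = 1 := rfl
@[simp] lemma c_mul (v w : UG F q) : c (v * w) = c v * c w := rfl
@[simp] lemma c_pow (w : UG F q) (m : ℕ) : c (w ^ m) = c w ^ m := by
  simp [c]
@[simp] lemma c_inv (w : UG F q) : c w⁻¹ = (c w)⁻¹ := by
  simp [c]
lemma c_ne (w : UG F q) : c w ≠ 0 := Units.ne_zero _
lemma c_inj {v w : UG F q} (h : c v = c w) : v = w := by
  apply Subtype.ext
  exact Units.ext h
lemma c_inj_iff {v w : UG F q} : c v = c w ↔ v = w := ⟨c_inj, fun h => by rw [h]⟩
lemma c_eq_one {w : UG F q} : c w = 1 ↔ w = 1 := by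
  rw [← c_one (q := q) (F := F), c_inj_iff]
lemma c_pow_card (w : UG F q) : c w ^ (q + 1) = 1 := by
  have := w.2
  rw [mem_rootsOfUnity] at this
  have h2 := congrArg (fun u : Fˣ => (u : F)) this
  simpa [c] using h2
lemma c_conj (w : UG F q) : c w ^ q = (c w)⁻¹ := by
  have := c_pow_card w
  rw [pow_succ] at this
  exact eq_inv_of_mul_eq_one_left this

/-- An element of norm one, as a member of the group. -/
def mkU (x : F) (hx : x ^ (q + 1) = 1) : UG F q :=
  ⟨Units.mk0 x (by rintro rfl; simp at hx), by
    rw [mem_rootsOfUnity]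
    ext
    simpa using hx⟩

@[simp] lemma c_mkU (x : F) (hx : x ^ (q + 1) = 1) : c (mkU x hx) = x := rfl

/-- The trace to the subfield. -/
def tr (q : ℕ) (x : F) : F := x + x ^ q

end

section card
variable {F : Type} [Field F] [Fintype F]

lemma charTwo {k : ℕ} (hF : Fintype.card F = 2 ^ (2 * k)) : CharP F 2 := by
  have h0 : ((Fintype.card F : ℕ) : F) = 0 := Nat.cast_card_eq_zero F
  rw [hF] at h0
  push_cast at h0
  have h2 : (2 : F) = 0 := by
    by_contra hne
    exact pow_ne_zero _ hne h0
  exact CharTwo.of_one_ne_zero_of_two_eq_zero one_ne_zero h2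

end card

noncomputable instance instFintypeUG (F : Type) [Field F] [Fintype F] (q : ℕ) :
    Fintype (UG F q) := Fintype.ofFinite _

/-- Standing hypotheses. -/
structure Setup (F : Type) [Field F] [Fintype F] (k q : ℕ) : Prop where
  hk : 1 ≤ k
  hq : q = 2 ^ k
  hF : Fintype.card F = q ^ 2

namespace Setup

variable {F : Type} [Field F] [Fintype F] {k q : ℕ} (S : Setup F k q)
include S

lemma char : CharP F 2 := by
  apply charTwo (k := k)
  rw [S.hF, S.hq, ← pow_mul, mul_comm]

lemma q_pos : 0 < q := by rw [S.hq]; positivity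
lemma q_ge : 2 ≤ q := by
  rw [S.hq]
  calc 2 = 2 ^ 1 := rfl
    _ ≤ 2 ^ k := Nat.pow_le_pow_right (by norm_num) S.hk
lemma q_even : Even q := by
  rw [S.hq]
  exact (Nat.even_pow.2 ⟨even_two, by have := S.hk; omega⟩)

lemma add_self (x : F) : x + x = 0 := by
  have := S.char
  exact CharTwo.add_self_eq_zero x

lemma neg_eq (x : F) : -x = x := by
  have := S.char
  exact CharTwo.neg_eq x

lemma sub_eq (x y : F) : x - y = x + y := by
  have := S.char
  exact CharTwo.sub_eq_add x y

lemma eq_of_add_eq_zero {x y : F} (h : x + y = 0) : x = y := by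
  rw [← S.sub_eq] at h
  exact sub_eq_zero.1 h

lemma add_eq_zero_iff {x y : F} : x + y = 0 ↔ x = y :=
  ⟨S.eq_of_add_eq_zero, fun h => by rw [h]; exact S.add_self y⟩

lemma two_eq : (2 : F) = 0 := by
  have := S.add_self (1 : F)
  rw [← this]; norm_num

lemma conj_add (x y : F) : (x + y) ^ q = x ^ q + y ^ q := by
  have := S.char
  rw [S.hq]
  exact add_pow_char_pow x y 2 k

lemma conj_conj (x : F) : (x ^ q) ^ q = x := by
  rw [← pow_mul, ← sq, ← S.hF]
  exact FiniteField.pow_card x

lemma conj_inj {x y : F} (h : x ^ q = y ^ q) : x = y := by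
  rw [← S.conj_conj x, h, S.conj_conj]

lemma conj_sum {ι : Type*} (s : Finset ι) (f : ι → F) :
    (∑ i ∈ s, f i) ^ q = ∑ i ∈ s, f i ^ q := by
  have := S.char
  rw [S.hq]
  exact sum_pow_char_pow 2 k s f

lemma tr_mem (x : F) : (tr q x) ^ q = tr q x := by
  unfold tr
  rw [S.conj_add, S.conj_conj, add_comm]

lemma tr_add (x y : F) : tr q (x + y) = tr q x + tr q y := by
  unfold tr
  rw [S.conj_add]; ring

lemma tr_mul {x : F} (hx : x ^ q = x) (y : F) : tr q (x * y) = x * tr q y := by
  unfold tr
  rw [mul_pow, hx]; ring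

lemma tr_eq_zero {x : F} : tr q x = 0 ↔ x ^ q = x := by
  unfold tr
  rw [S.add_eq_zero_iff]
  exact eq_comm

lemma tr_conj (x : F) : tr q (x ^ q) = tr q x := by
  unfold tr
  rw [S.conj_conj, add_comm]

/-- the additive map `x ↦ x + x ^ q` -/
def trHom : F →+ F where
  toFun := tr q
  map_zero' := by
    unfold tr
    rw [zero_pow S.q_pos.ne', add_zero]
  map_add' := S.tr_add

open Classical in
lemma card_K_le : (univ.filter fun x : F => x ^ q = x).card ≤ q := by
  have h2 := S.q_ge
  let p : Polynomial F := Polynomial.X ^ q - Polynomial.X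
  have hdeg : p.natDegree = q := by
    apply FiniteField.X_pow_card_sub_X_natDegree_eq
    omega
  have hp : p ≠ 0 := by
    intro h
    rw [h] at hdeg
    simp at hdeg
    omega
  calc (univ.filter fun x : F => x ^ q = x).card ≤ p.roots.toFinset.card := by
        apply Finset.card_le_card
        intro x hx
        rw [Multiset.mem_toFinset, Polynomial.mem_roots hp]
        simp only [Finset.mem_filter, Finset.mem_univ, true_and] at hx
        simp [p, Polynomial.IsRoot, hx]
    _ ≤ Multiset.card p.roots := Multiset.toFinset_card_le _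
    _ ≤ p.natDegree := Polynomial.card_roots' p
    _ = q := hdeg

open Classical in
lemma card_K : (univ.filter fun x : F => x ^ q = x).card = q := by
  apply le_antisymm S.card_K_le
  -- |F| = |ker| * |im|
  have h1 := AddSubgroup.card_eq_card_quotient_mul_card_addSubgroup S.trHom.ker
  have h2 : Nat.card (F ⧸ S.trHom.ker) = Nat.card S.trHom.range :=
    Nat.card_congr (QuotientAddGroup.quotientKerEquivRange S.trHom).toEquiv
  have h3 : Nat.card S.trHom.ker = (univ.filter fun x : F => x ^ q = x).card := by
    rw [← Fintype.card_coe, ← Nat.card_eq_fintype_card]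
    apply Nat.card_congr
    apply Equiv.subtypeEquivRight
    intro x
    rw [AddMonoidHom.mem_ker]
    simp only [Finset.mem_filter, Finset.mem_univ, true_and]
    exact S.tr_eq_zero
  have h4 : Nat.card S.trHom.range ≤ (univ.filter fun x : F => x ^ q = x).card := by
    rw [← Fintype.card_coe, ← Nat.card_eq_fintype_card]
    apply Nat.card_le_card_of_injective
      (fun y : S.trHom.range => (⟨y.1, by
        simp only [Finset.mem_filter, Finset.mem_univ, true_and]
        obtain ⟨x, hx⟩ := y.2
        rw [← hx]
        exact S.tr_mem x⟩ : {x // x ∈ (univ.filter fun x : F => x ^ q = x)}))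
    intro a b hab
    simp only [Subtype.mk.injEq] at hab
    exact Subtype.ext hab
  rw [Nat.card_eq_fintype_card, S.hF, h2, h3] at h1
  set m := (univ.filter fun x : F => x ^ q = x).card
  by_contra hlt
  push Not at hlt
  have : q ^ 2 ≤ m * m := by
    rw [h1]
    exact Nat.mul_le_mul_right _ h4
  nlinarith

open Classical in
/-- every element of the subfield is the trace of exactly `q` elements -/
lemma card_tr_fiber {b : F} (hb : b ^ q = b) :
    (univ.filter fun x : F => tr q x = b).card = q := by
  -- all fibers over the image have the same size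
  have key : ∀ b : F, (∃ x, tr q x = b) → (univ.filter fun x : F => tr q x = b).card = q := by
    rintro b ⟨x0, hx0⟩
    refine Eq.trans ?_ S.card_K
    apply Finset.card_bij' (fun x _ => x + x0) (fun x _ => x + x0)
    · intro x hx
      simp only [Finset.mem_filter, Finset.mem_univ, true_and] at hx ⊢
      rw [← S.tr_eq_zero, S.tr_add, hx, hx0, S.add_self]
    · intro x hx
      simp only [Finset.mem_filter, Finset.mem_univ, true_and] at hx ⊢
      rw [S.tr_add, S.tr_eq_zero.2 hx, hx0, zero_add]
    · intro x hx
      rw [add_assoc, S.add_self, add_zero]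
    · intro x hx
      rw [add_assoc, S.add_self, add_zero]
  apply key
  by_contra hne
  push Not at hne
  have h1 : (univ : Finset F).card = ∑ b ∈ (univ.filter fun x : F => x ^ q = x),
      (univ.filter fun x : F => tr q x = b).card := by
    apply Finset.card_eq_sum_card_fiberwise
    intro x _
    simp only [Finset.coe_filter, Finset.mem_univ, true_and]
    exact S.tr_mem x
  rw [Finset.card_univ, S.hF] at h1
  have h2 : ∑ b ∈ (univ.filter fun x : F => x ^ q = x),
      (univ.filter fun x : F => tr q x = b).card <
      ∑ b ∈ (univ.filter fun x : F => x ^ q = x), q := by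
    apply Finset.sum_lt_sum
    · intro b' _
      by_cases h : ∃ x, tr q x = b'
      · exact (key b' h).le
      · push Not at h
        rw [Finset.filter_eq_empty_iff.2 (fun x _ => h x)]
        simp
    · refine ⟨b, by simpa using hb, ?_⟩
      rw [Finset.filter_eq_empty_iff.2 (fun x _ => hne x)]
      simpa using S.q_pos
  rw [Finset.sum_const, S.card_K] at h2
  rw [← h1] at h2
  simp only [smul_eq_mul] at h2
  nlinarith

lemma neZero : NeZero (q + 1) := ⟨by omega⟩

lemma card_UG : Nat.card (UG F q) = q + 1 := by
  have := S.neZero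
  -- the map `x ↦ x ^ (q-1)` from units
  have h2 := S.q_ge
  have hle : Nat.card (UG F q) ≤ q + 1 := card_rootsOfUnity F (q + 1)
  apply le_antisymm hle
  let f : Fˣ →* Fˣ := powMonoidHom (q - 1)
  have h1 := Subgroup.card_eq_card_quotient_mul_card_subgroup f.ker
  have h2' : Nat.card (Fˣ ⧸ f.ker) = Nat.card f.range :=
    Nat.card_congr (QuotientGroup.quotientKerEquivRange f).toEquiv
  have h3 : Nat.card f.ker ≤ q - 1 := by
    have : NeZero (q - 1) := ⟨by omega⟩
    have : Nat.card (rootsOfUnity (q - 1) F) ≤ q - 1 := card_rootsOfUnity F (q - 1)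
    refine le_trans (le_of_eq ?_) this
    apply Nat.card_congr
    apply Equiv.subtypeEquivRight
    intro x
    rw [MonoidHom.mem_ker, mem_rootsOfUnity]
    simp [f]
  have hcu : Nat.card Fˣ = q ^ 2 - 1 := by
    classical
    rw [Nat.card_eq_fintype_card, Fintype.card_units, S.hF]
  have h4 : Nat.card f.range ≤ Nat.card (UG F q) := by
    apply Nat.card_le_card_of_injective
      (fun y : f.range => (⟨y.1, by
        obtain ⟨x, hx⟩ := y.2
        rw [← hx, mem_rootsOfUnity]
        simp only [f, powMonoidHom_apply]
        rw [← pow_mul]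
        have : (q - 1) * (q + 1) = Nat.card Fˣ := by
          rw [hcu]
          obtain ⟨m, rfl⟩ : ∃ m, q = m + 1 := ⟨q - 1, by omega⟩
          simp only [Nat.add_sub_cancel]
          have : (m + 1) ^ 2 = m * (m + 1 + 1) + 1 := by ring
          omega
        rw [this]
        exact pow_card_eq_one'⟩ : UG F q))
    intro a b hab
    simp only [Subtype.mk.injEq] at hab
    exact Subtype.ext hab
  rw [hcu, h2'] at h1
  by_contra hlt
  push Not at hlt
  have : q ^ 2 - 1 < (q + 1) * (q - 1) := by
    rw [h1]
    have hpos : 0 < q - 1 := by omega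
    calc Nat.card f.range * Nat.card f.ker ≤ Nat.card (UG F q) * (q - 1) :=
          Nat.mul_le_mul h4 h3
      _ < (q + 1) * (q - 1) := by
          exact Nat.mul_lt_mul_of_pos_right hlt hpos
  obtain ⟨m, rfl⟩ : ∃ m, q = m + 1 := ⟨q - 1, by omega⟩
  simp only [Nat.add_sub_cancel] at this
  have h5 : (m + 1) ^ 2 = (m + 1 + 1) * m + 1 := by ring
  omega


lemma card_UG' : Fintype.card (UG F q) = q + 1 := by
  rw [← Nat.card_eq_fintype_card, S.card_UG]

end Setup

end Pool.Agent.Helper36.Niho
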