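import Pool.Agent.Helper36.Niho.Basic

set_option autoImplicit false
set_option linter.unusedSectionVars false
set_option linter.style.haveILetI false

/-!
# Counting zeros on the norm-one group
-/

namespace Pool.Agent.Helper36.Niho

open Finset Classical

variable {F : Type} [Field F] [Fintype F]

/-- The points of the plane with coordinates `(A, B)`. -/
noncomputable def Pl (q e : ℕ) (A B : F) : Finset (UG F q) :=
  univ.filter fun w : UG F q => tr q (A * c w + B * c w ^ e) = 0

lemma mem_Pl {q e : ℕ} {A B : F} {w : UG F q} :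
    w ∈ Pl q e A B ↔ tr q (A * c w + B * c w ^ e) = 0 := by
  simp [Pl]

/-- The number of solutions. -/
noncomputable def NN (q e : ℕ) (a : F) : ℕ := (Pl q e a 1).card

namespace Setup

variable {k q : ℕ} (S : Setup F k q)
include S

lemma tr_c (w : UG F q) : tr q (c w) = c w + (c w)⁻¹ := by
  unfold tr
  rw [c_conj]

lemma tr_c_eq_zero {w : UG F q} : tr q (c w) = 0 ↔ w = 1 := by
  rw [S.tr_c, S.add_eq_zero_iff]
  constructor
  · intro h
    have h1 : c w * c w = 1 := by
      nth_rewrite 2 [h]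
      exact mul_inv_cancel₀ (c_ne w)
    have h2 : (c w + 1) * (c w + 1) = 0 := by
      linear_combination h1 + (c w + 1) * S.two_eq
    have h3 : c w + 1 = 0 := mul_self_eq_zero.1 h2
    exact c_eq_one.1 (S.eq_of_add_eq_zero h3)
  · rintro rfl
    simp

lemma coprime_two : Nat.Coprime (q + 1) 2 := by
  rw [Nat.coprime_two_right]
  exact S.q_even.add_one

/-- the number of `w` with `w ^ m = g` when `m` is coprime to `q + 1` -/
lemma card_pow_eq {m : ℕ} (hm : Nat.Coprime (q + 1) m) (g : UG F q) :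
    (univ.filter fun w : UG F q => w ^ m = g).card = 1 := by
  rw [← S.card_UG] at hm
  rw [Finset.card_eq_one]
  refine ⟨(powCoprime hm).symm g, ?_⟩
  ext w
  simp only [Finset.mem_filter, Finset.mem_univ, true_and, Finset.mem_singleton]
  rw [Equiv.eq_symm_apply]
  rfl

lemma pow_inj {m : ℕ} (hm : Nat.Coprime (q + 1) m) {v w : UG F q} (h : v ^ m = w ^ m) :
    v = w := by
  rw [← S.card_UG] at hm
  exact (powCoprime hm).injective h

lemma ne_zero_pow {κ : F} (hκ : κ ≠ 0) : (κ ^ (q - 1)) ^ (q + 1) = 1 := by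
  rw [← pow_mul]
  have h2 := S.q_ge
  have : (q - 1) * (q + 1) = Fintype.card F - 1 := by
    rw [S.hF]
    obtain ⟨m, rfl⟩ : ∃ m, q = m + 1 := ⟨q - 1, by omega⟩
    simp only [Nat.add_sub_cancel]
    have : (m + 1) ^ 2 = m * (m + 1 + 1) + 1 := by ring
    omega
  rw [this]
  exact FiniteField.pow_card_sub_one_eq_one κ hκ

lemma tr_mul_c {κ : F} (hκ : κ ≠ 0) (w : UG F q) :
    tr q (κ * c w) = 0 ↔ w ^ 2 = mkU (κ ^ (q - 1)) (S.ne_zero_pow hκ) := by
  rw [← c_inj_iff, c_pow, c_mkU, S.tr_eq_zero, mul_pow, c_conj]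
  have h2 := S.q_ge
  have h3 : κ ^ q = κ ^ (q - 1) * κ := by
    rw [← pow_succ]
    congr 1
    omega
  rw [h3]
  have hc := c_ne w
  constructor
  · intro h
    field_simp at h
    rw [h]
  · intro h
    rw [← h]
    field_simp

/-- a nonzero linear functional vanishes at exactly one point -/
lemma card_tr_mul_c {κ : F} (hκ : κ ≠ 0) :
    (univ.filter fun w : UG F q => tr q (κ * c w) = 0).card = 1 := by
  rw [← S.card_pow_eq S.coprime_two (mkU (κ ^ (q - 1)) (S.ne_zero_pow hκ))]
  congr 1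
  ext w
  simp only [Finset.mem_filter, Finset.mem_univ, true_and]
  exact S.tr_mul_c hκ w

lemma card_tr_mul_pow {e : ℕ} (he : Nat.Coprime (q + 1) e) {κ : F} (hκ : κ ≠ 0) :
    (univ.filter fun w : UG F q => tr q (κ * c w ^ e) = 0).card = 1 := by
  rw [← S.card_tr_mul_c hκ]
  have he' := he
  rw [← S.card_UG] at he'
  apply Finset.card_bij (fun w _ => powCoprime he' w)
  · intro w hw
    simp only [Finset.mem_filter, Finset.mem_univ, true_and] at hw ⊢
    have : c (powCoprime he' w) = c w ^ e := c_pow w e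
    rw [this]
    exact hw
  · intro v _ w _ h
    exact (powCoprime he').injective h
  · intro w hw
    refine ⟨(powCoprime he').symm w, ?_, Equiv.apply_symm_apply _ _⟩
    simp only [Finset.mem_filter, Finset.mem_univ, true_and] at hw ⊢
    have : c (powCoprime he' ((powCoprime he').symm w)) = c ((powCoprime he').symm w) ^ e :=
      c_pow _ e
    rw [← this, Equiv.apply_symm_apply]
    exact hw

lemma tr_add_eq {x y : F} : tr q (x + y) = 0 ↔ tr q x = tr q y := by
  rw [S.tr_add, S.add_eq_zero_iff]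

lemma NN_zero {e : ℕ} (he : Nat.Coprime (q + 1) e) : NN q e (0 : F) = 1 := by
  unfold NN Pl
  rw [← S.card_tr_mul_pow he (one_ne_zero (α := F))]
  congr 1
  ext w
  simp

/-- for each point there are exactly `q` planes `(a, 1)` through it -/
lemma card_planes (e : ℕ) (w : UG F q) :
    (univ.filter fun a : F => w ∈ Pl q e a 1).card = q := by
  refine Eq.trans ?_ S.card_K
  apply Finset.card_bij' (fun a _ => a * c w + c w ^ e) (fun b _ => (b + c w ^ e) * (c w)⁻¹)
  · intro a ha
    simp only [Finset.mem_filter, Finset.mem_univ, true_and, mem_Pl, one_mul] at ha ⊢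
    exact S.tr_eq_zero.1 ha
  · intro b hb
    simp only [Finset.mem_filter, Finset.mem_univ, true_and, mem_Pl, one_mul] at hb ⊢
    rw [mul_assoc, inv_mul_cancel₀ (c_ne w), mul_one, add_assoc, S.add_self, add_zero]
    exact S.tr_eq_zero.2 hb
  · intro a _
    rw [add_assoc, S.add_self, add_zero, mul_assoc, mul_inv_cancel₀ (c_ne w), mul_one]
  · intro b _
    rw [mul_assoc, inv_mul_cancel₀ (c_ne w), mul_one, add_assoc, S.add_self, add_zero]

/-- the unique plane `(a, 1)` through two different points -/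
noncomputable def apt (e : ℕ) (v w : UG F q) : F :=
  (tr q (c v ^ e) * c v + tr q (c w ^ e) * c w) / (c v + c w) ^ 2

lemma cadd_ne {v w : UG F q} (h : v ≠ w) : c v + c w ≠ 0 := by
  intro h0
  exact h (c_inj (S.eq_of_add_eq_zero h0))

lemma solve_tr {x y b b' : F} (hx : x ≠ 0) (hy : y ≠ 0) (hxq : x ^ q = x⁻¹) (hyq : y ^ q = y⁻¹)
    (hxy : x + y ≠ 0) (hb : b ^ q = b) (hb' : b' ^ q = b') :
    tr q ((b * x + b' * y) / (x + y) ^ 2 * x) = b := by
  unfold tr
  rw [mul_pow, div_pow, S.conj_add, ← pow_mul, mul_comm 2 q, pow_mul, S.conj_add, mul_pow, mul_pow,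
    hb, hb', hxq, hyq]
  have h1 : x⁻¹ + y⁻¹ ≠ 0 := by
    intro h
    apply hxy
    have : x + y = (x⁻¹ + y⁻¹) * (x * y) := by field_simp; ring
    rw [this, h, zero_mul]
  have h2 : x⁻¹ + y⁻¹ = (x + y) * (x * y)⁻¹ := by field_simp; ring
  rw [h2]
  field_simp
  linear_combination (b' * x * y - b * x * y) * S.two_eq

lemma tr_c_pow_mem (e : ℕ) (w : UG F q) : (tr q (c w ^ e)) ^ q = tr q (c w ^ e) := S.tr_mem _

lemma mem_Pl_one {e : ℕ} {a : F} {w : UG F q} :
    w ∈ Pl q e a 1 ↔ tr q (a * c w) = tr q (c w ^ e) := by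
  rw [mem_Pl, one_mul, S.tr_add_eq]

lemma apt_left {e : ℕ} {v w : UG F q} (h : v ≠ w) : v ∈ Pl q e (apt e v w) 1 := by
  rw [S.mem_Pl_one]
  exact S.solve_tr (c_ne v) (c_ne w) (c_conj v) (c_conj w) (S.cadd_ne h) (S.tr_c_pow_mem e v)
    (S.tr_c_pow_mem e w)

lemma apt_comm (e : ℕ) (v w : UG F q) : apt e v w = apt e w v := by
  unfold apt
  rw [add_comm (c w) (c v), add_comm (tr q (c w ^ e) * c w)]

lemma apt_right {e : ℕ} {v w : UG F q} (h : v ≠ w) : w ∈ Pl q e (apt e v w) 1 := by
  rw [S.apt_comm]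
  exact S.apt_left h.symm

lemma tr_two_zero {a : F} {v w : UG F q} (h : v ≠ w) (hv : tr q (a * c v) = 0)
    (hw : tr q (a * c w) = 0) : a = 0 := by
  rw [S.tr_eq_zero, mul_pow, c_conj] at hv hw
  have hcv := c_ne v
  have hcw := c_ne w
  have h1 : a ^ q = a * c v ^ 2 := by
    field_simp at hv
    rw [hv, mul_comm]
  have h2 : a ^ q = a * c w ^ 2 := by
    field_simp at hw
    rw [hw, mul_comm]
  by_contra hne
  have h3 : a * (c v + c w) ^ 2 = 0 := by
    rw [h1] at h2
    linear_combination h2 + (a * c v * c w + a * c w ^ 2) * S.two_eq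
  rcases mul_eq_zero.1 h3 with h4 | h4
  · exact hne h4
  · exact S.cadd_ne h (pow_eq_zero_iff (two_ne_zero) |>.1 h4)

lemma apt_unique {e : ℕ} {a : F} {v w : UG F q} (h : v ≠ w) (hv : v ∈ Pl q e a 1)
    (hw : w ∈ Pl q e a 1) : a = apt e v w := by
  have hv' := S.apt_left (e := e) h
  have hw' := S.apt_right (e := e) h
  rw [S.mem_Pl_one] at hv hw hv' hw'
  apply S.eq_of_add_eq_zero
  apply S.tr_two_zero h
  · rw [add_mul, S.tr_add_eq, hv, hv']
  · rw [add_mul, S.tr_add_eq, hw, hw']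

lemma card_planes_two (e : ℕ) {v w : UG F q} (h : v ≠ w) :
    (univ.filter fun a : F => v ∈ Pl q e a 1 ∧ w ∈ Pl q e a 1).card = 1 := by
  rw [Finset.card_eq_one]
  refine ⟨apt e v w, ?_⟩
  ext a
  simp only [Finset.mem_filter, Finset.mem_univ, true_and, Finset.mem_singleton]
  constructor
  · rintro ⟨h1, h2⟩
    exact S.apt_unique h h1 h2
  · rintro rfl
    exact ⟨S.apt_left h, S.apt_right h⟩

lemma sum_NN (e : ℕ) : ∑ a : F, NN q e a = (q + 1) * q := by
  have h1 : ∀ a : F, NN q e a = ∑ w : UG F q, if w ∈ Pl q e a 1 then 1 else 0 := by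
    intro a
    rw [Finset.sum_boole]
    simp [NN]
  simp_rw [h1]
  rw [Finset.sum_comm]
  have h2 : ∀ w : UG F q, (∑ a : F, if w ∈ Pl q e a 1 then 1 else 0) = q := by
    intro w
    rw [Finset.sum_boole, S.card_planes e w]
    rfl
  simp_rw [h2]
  rw [Finset.sum_const, Finset.card_univ, S.card_UG', smul_eq_mul]

lemma sum_offDiag (e : ℕ) : ∑ a : F, (Pl q e a 1).offDiag.card = (q + 1) * q := by
  have h1 : ∀ a : F, (Pl q e a 1).offDiag.card =
      ∑ p ∈ (univ : Finset (UG F q)).offDiag,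
        if p.1 ∈ Pl q e a 1 ∧ p.2 ∈ Pl q e a 1 then 1 else 0 := by
    intro a
    rw [Finset.sum_boole, Nat.cast_id]
    congr 1
    ext p
    simp only [Finset.mem_offDiag, Finset.mem_filter, Finset.mem_univ, true_and]
    tauto
  simp_rw [h1]
  rw [Finset.sum_comm]
  have h2 : ∀ p ∈ (univ : Finset (UG F q)).offDiag,
      (∑ a : F, if p.1 ∈ Pl q e a 1 ∧ p.2 ∈ Pl q e a 1 then 1 else 0) = 1 := by
    intro p hp
    rw [Finset.mem_offDiag] at hp
    rw [Finset.sum_boole, S.card_planes_two e hp.2.2]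
    rfl
  rw [Finset.sum_congr rfl h2, Finset.sum_const, Finset.offDiag_card, Finset.card_univ,
    S.card_UG', smul_eq_mul, mul_one]
  have : (q + 1) * (q + 1) = (q + 1) * q + (q + 1) := by ring
  omega

lemma offDiag_NN (e : ℕ) (a : F) : ((Pl q e a 1).offDiag.card : ℤ) = NN q e a * (NN q e a - 1) := by
  rw [Finset.offDiag_card]
  unfold NN
  push_cast [Nat.le_mul_self]
  ring

lemma NN_le (e : ℕ) (a : F) : NN q e a ≤ q + 1 := by
  rw [← S.card_UG', ← Finset.card_univ]
  exact Finset.card_le_card (Finset.subset_univ _)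

end Setup

end Pool.Agent.Helper36.Niho
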