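import Pool.Agent.Helper36.Niho.SlopeSum

set_option autoImplicit false
set_option linter.unusedSectionVars false
set_option linter.style.haveILetI false

/-!
# The exponent in the cases `g = 1` and `g = k / 2`
-/

namespace Pool.Agent.Helper36.Niho

open Finset Classical Polynomial

variable {F : Type} [Field F] [Fintype F]

namespace Setup

variable {k q : ℕ} (S : Setup F k q)
include S

lemma exists_inv_mod {m : ℕ} (hm : Nat.Coprime (q + 1) m) : ∃ x, m * x ≡ 1 [MOD q + 1] := by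
  have h2 := S.q_ge
  obtain ⟨x, _, hx⟩ := Nat.exists_mul_mod_eq_one_of_coprime hm.symm (by omega)
  refine ⟨x, ?_⟩
  unfold Nat.ModEq
  rw [hx, Nat.mod_eq_of_lt (by omega)]

lemma line_card {e θ s : ℕ} (he : 1 ≤ e) (hce : Nat.Coprime (q + 1) e)
    (h1 : Nat.Coprime (q + 1) (e - 1))
    (hθ : (e - 1) * θ ≡ e + 1 [MOD q + 1]) (hθc : Nat.Coprime (q + 1) θ)
    (hval : ∀ a : F, NN q e a = 0 ∨ NN q e a = 1 ∨ NN q e a = 2 ∨ NN q e a = s + 1)
    {lam m c0 : F} (hlam : lam ^ q = lam + 1)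
    (hm : m ^ q = m) (hc0 : c0 ^ q = c0) :
    (((univ : Finset (UG F q)).erase 1).filter fun u =>
      tt lam (u ^ θ) + m * tt lam u = c0).card = 0 ∨
    (((univ : Finset (UG F q)).erase 1).filter fun u =>
      tt lam (u ^ θ) + m * tt lam u = c0).card = 1 ∨
    (((univ : Finset (UG F q)).erase 1).filter fun u =>
      tt lam (u ^ θ) + m * tt lam u = c0).card = s := by
  have h2 := S.line_plane he h1 hθ hθc hlam hm hc0
  set E := lam * (1 + m) + c0 with hE
  have hEq : E ^ q = E + 1 + m := by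
    rw [hE, S.conj_add, mul_pow, S.conj_add, one_pow, hlam, hm, hc0]; ring
  by_cases hE0 : E = 0
  · rw [hE0, zero_pow S.q_pos.ne', zero_add] at hEq
    have h3 : m = 1 := (S.eq_of_add_eq_zero hEq.symm).symm
    rw [hE0, h3, zero_add, S.plane_zero one_ne_zero] at h2
    left
    rw [h3]
    omega
  · obtain ⟨a, ha⟩ := S.gen_plane hce (A := E + m) hE0
    rw [ha] at h2
    rcases hval a with h3 | h3 | h3 | h3 <;> omega

lemma plane_K {e : ℕ} {A B : F} (hA : A ^ q = A) (hB : B ^ q = B) (hB0 : B ≠ 0) :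
    Odd (Pl q e A B).card := by
  have h1 : Pl q e A B = Pl q e (A / B) 1 := by
    ext w
    rw [mem_Pl, mem_Pl]
    have h2 : A * c w + B * c w ^ e = B * (A / B * c w + 1 * c w ^ e) := by
      field_simp
    rw [h2, S.tr_mul hB, mul_eq_zero]
    simp [hB0]
  rw [h1]
  apply S.odd_NN_K
  rw [div_pow, hA, hB]

lemma line_one_card {e θ : ℕ} (he : 1 ≤ e)
    (h1 : Nat.Coprime (q + 1) (e - 1))
    (hθ : (e - 1) * θ ≡ e + 1 [MOD q + 1]) (hθc : Nat.Coprime (q + 1) θ)
    {lam c0 : F} (hlam : lam ^ q = lam + 1) (hc0 : c0 ^ q = c0) :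
    (((univ : Finset (UG F q)).erase 1).filter fun u =>
      tt lam (u ^ θ) + 1 * tt lam u = c0).card ≠ 1 := by
  have h2 := S.line_plane he h1 hθ hθc hlam (one_pow q) hc0
  have h3 : lam * (1 + 1) + c0 = c0 := by rw [S.add_self, mul_zero, zero_add]
  rw [h3] at h2
  by_cases hc : c0 = 0
  · rw [hc, zero_add, S.plane_zero one_ne_zero] at h2
    rw [hc]
    omega
  · have h4 := S.plane_K (e := e) (A := c0 + 1) (by rw [S.conj_add, hc0, one_pow]) hc0 hc
    rw [← h2] at h4
    intro h5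
    rw [h5] at h4
    exact absurd h4 (by decide)

/-- **The exponent.** -/
theorem exponent {e g : ℕ} (he : 1 ≤ e) (hce : Nat.Coprime (q + 1) e)
    (h1 : Nat.Coprime (q + 1) (e - 1)) (h2 : Nat.Coprime (q + 1) (e + 1)) (hq4 : 4 ≤ q)
    (hval : ∀ a : F, NN q e a = 0 ∨ NN q e a = 1 ∨ NN q e a = 2 ∨ NN q e a = 2 ^ g + 1)
    (hg : g = 1 ∨ 2 * g = k) :
    ∃ ψ, 0 < ψ ∧ ψ < q + 1 ∧ ψ * (e + 1) ≡ e - 1 [MOD q + 1] ∧
      ∃ i, ψ = 2 ^ i ∨ q + 1 - ψ = 2 ^ i := by
  obtain ⟨x, hx⟩ := S.exists_inv_mod h1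
  obtain ⟨y, hy⟩ := S.exists_inv_mod h2
  obtain ⟨lam, hlam⟩ := S.exists_lam (F := F)
  set θ := x * (e + 1) with hθdef
  set ψ := y * (e - 1) % (q + 1) with hψdef
  have hθ : (e - 1) * θ ≡ e + 1 [MOD q + 1] := by
    calc (e - 1) * θ = ((e - 1) * x) * (e + 1) := by rw [hθdef]; ring
      _ ≡ 1 * (e + 1) [MOD q + 1] := hx.mul_right _
      _ = e + 1 := one_mul _
  have hψe : ψ * (e + 1) ≡ e - 1 [MOD q + 1] := by
    calc ψ * (e + 1) ≡ (y * (e - 1)) * (e + 1) [MOD q + 1] := (Nat.mod_modEq _ _).mul_right _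
      _ = ((e + 1) * y) * (e - 1) := by ring
      _ ≡ 1 * (e - 1) [MOD q + 1] := hy.mul_right _
      _ = e - 1 := one_mul _
  have hψθ : ψ * θ ≡ 1 [MOD q + 1] := by
    calc ψ * θ = (ψ * (e + 1)) * x := by rw [hθdef]; ring
      _ ≡ (e - 1) * x [MOD q + 1] := hψe.mul_right _
      _ ≡ 1 [MOD q + 1] := hx
  have hcopm : Nat.Coprime (ψ * θ) (q + 1) := by
    rw [Nat.Coprime, Nat.ModEq.gcd_eq hψθ]
    simp
  have hθc : Nat.Coprime (q + 1) θ := (Nat.Coprime.coprime_mul_left hcopm).symm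
  have hψc : Nat.Coprime ψ (q + 1) := Nat.Coprime.coprime_mul_right hcopm
  have hψ0 : 0 < ψ := by
    rcases Nat.eq_zero_or_pos ψ with h | h
    · rw [h] at hψc
      have := (Nat.coprime_zero_left _).1 hψc
      omega
    · exact h
  have hψlt : ψ < q + 1 := Nat.mod_lt _ (by omega)
  refine ⟨ψ, hψ0, hψlt, hψe, ?_⟩
  -- the graph
  set I := (univ : Finset (UG F q)).erase 1 with hI
  have hIcard : I.card = q := by
    rw [hI, Finset.card_erase_of_mem (Finset.mem_univ _), Finset.card_univ, S.card_UG']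
    rfl
  have hne : ∀ w : UG F q, w ≠ 1 → w ^ θ ≠ 1 := by
    intro w hw h
    apply hw
    apply S.pow_inj hθc
    rw [h, one_pow]
  have ht : ∀ u ∈ I, tt lam u ^ q = tt lam u := by
    intro u hu
    rw [hI, Finset.mem_erase] at hu
    exact S.tt_mem hlam hu.1
  have htinj : Set.InjOn (fun u : UG F q => tt lam u) I := fun u _ v _ h => S.tt_inj h
  have hf : ∀ u ∈ I, tt lam (u ^ θ) ^ q = tt lam (u ^ θ) := by
    intro u hu
    rw [hI, Finset.mem_erase] at hu
    exact S.tt_mem hlam (hne u hu.1)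
  have hfinj : Set.InjOn (fun u : UG F q => tt lam (u ^ θ)) I :=
    fun u _ v _ h => S.pow_inj hθc (S.tt_inj h)
  have hLL := fun (m c0 : F) (hm : m ^ q = m) (hc0 : c0 ^ q = c0) =>
    S.line_card he hce h1 hθ hθc hval hlam hm hc0
  have hconst : ∃ C0 : F, ∀ u ∈ I,
      ∑ v ∈ I.erase u, (tt lam (u ^ θ) + tt lam (v ^ θ)) * (tt lam u + tt lam v)⁻¹ = C0 := by
    rcases hg with hg | hg
    · refine ⟨0, fun u hu => ?_⟩
      apply S.slopes_two (f := fun u : UG F q => tt lam (u ^ θ)) hq4 hIcard ht htinj hf hfinj _ hu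
      intro m c0 hm hc0
      rcases hLL m c0 hm hc0 with h | h | h
      · exact le_trans h.le (by norm_num)
      · exact le_trans h.le (by norm_num)
      · rw [hg] at h
        exact h.le
    · apply S.slopes_sqrt (s := 2 ^ g) (f := fun u : UG F q => tt lam (u ^ θ)) _ _ hIcard ht htinj
        hf hLL _ (fun u => u⁻¹)
      · intro u hu
        rw [hI, Finset.mem_erase] at hu ⊢
        exact ⟨by simpa using hu.1, Finset.mem_univ _⟩
      · intro u hu
        rw [hI, Finset.mem_erase] at hu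
        exact S.tt_inv hu.1
      · intro u hu
        rw [hI, Finset.mem_erase] at hu
        simp only [inv_pow]
        exact S.tt_inv (hne u hu.1)
      · rw [← pow_add, ← two_mul, hg, S.hq]
      · have : g ≠ 0 := by
          rintro rfl
          have := S.hk
          omega
        calc 2 = 2 ^ 1 := rfl
          _ ≤ 2 ^ g := Nat.pow_le_pow_right (by norm_num) (by omega)
      · intro c0 hc0
        exact S.line_one_card he h1 hθ hθc hlam hc0
  obtain ⟨C0, hC0⟩ := hconst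
  apply S.exponent_of_const hθc hψ0 hψlt hψθ (C0 := C0)
  intro u hu
  rw [← S.slope_sum hθc lam hu]
  exact hC0 u (by rw [hI, Finset.mem_erase]; exact ⟨hu, Finset.mem_univ _⟩)

end Setup

end Pool.Agent.Helper36.Niho
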