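import Pool.Agent.Helper36.Niho.Redei

set_option autoImplicit false
set_option linter.unusedSectionVars false
set_option linter.style.haveILetI false

/-!
# The sum of the slopes at a point is constant
-/

namespace Pool.Agent.Helper36.Niho

open Finset Classical Polynomial

variable {F : Type} [Field F] [Fintype F]

namespace Setup

variable {k q : ℕ} (S : Setup F k q)
include S

variable {ι : Type} [DecidableEq ι] {I : Finset ι} {t f : ι → F}

lemma slope_iff (htinj : Set.InjOn t I) {u v : ι} (hu : u ∈ I) (hv : v ∈ I) (huv : v ≠ u)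
    (y : F) : (f u + f v) * (t u + t v)⁻¹ = y ↔ f v + y * t v = f u + y * t u := by
  have h1 : t u + t v ≠ 0 := fun h => huv (htinj hv hu (S.eq_of_add_eq_zero h).symm)
  constructor
  · intro h
    have h2 : f u + f v = y * (t u + t v) := by rw [← h]; field_simp
    linear_combination h2 - (f u - y * t v) * S.two_eq
  · intro h
    rw [mul_inv_eq_iff_eq_mul₀ h1]
    linear_combination h + (f u - y * t v) * S.two_eq

lemma slope_mem (ht : ∀ u ∈ I, t u ^ q = t u) (hf : ∀ u ∈ I, f u ^ q = f u) {u v : ι}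
    (hu : u ∈ I) (hv : v ∈ I) : (f u + f v) * (t u + t v)⁻¹ ∈ KK F q := by
  rw [mem_KK, mul_pow, inv_pow, S.conj_add, S.conj_add, hf u hu, hf v hv, ht u hu, ht v hv]

/-- two points per line: the slopes at a point are all nonzero elements -/
theorem slopes_two (hq4 : 4 ≤ q) (hI : I.card = q) (ht : ∀ u ∈ I, t u ^ q = t u)
    (htinj : Set.InjOn t I) (hf : ∀ u ∈ I, f u ^ q = f u) (hfinj : Set.InjOn f I)
    (hLL : ∀ m c0 : F, m ^ q = m → c0 ^ q = c0 → (I.filter fun u => f u + m * t u = c0).card ≤ 2)
    {u : ι} (hu : u ∈ I) : ∑ v ∈ I.erase u, (f u + f v) * (t u + t v)⁻¹ = 0 := by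
  have hinj : Set.InjOn (fun v => (f u + f v) * (t u + t v)⁻¹) (I.erase u) := by
    intro v hv w hw hvw
    simp only [Finset.coe_erase, Set.mem_sdiff, Finset.mem_coe, Set.mem_singleton_iff] at hv hw
    by_contra hne
    set m := (f u + f v) * (t u + t v)⁻¹ with hm
    have h1 := (S.slope_iff (f := f) htinj hu hv.1 hv.2 m).1 rfl
    have h2 := (S.slope_iff (f := f) htinj hu hw.1 hw.2 m).1 hvw.symm
    have hmK := mem_KK.1 (S.slope_mem ht hf hu hv.1)
    have h3 := hLL m (f u + m * t u) hmK (by
      rw [S.conj_add, mul_pow, hmK, hf u hu, ht u hu])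
    have h4 : ({u, v, w} : Finset ι) ⊆ I.filter fun x => f x + m * t x = f u + m * t u := by
      intro x hx
      simp only [Finset.mem_insert, Finset.mem_singleton] at hx
      rw [Finset.mem_filter]
      rcases hx with rfl | rfl | rfl
      · exact ⟨hu, rfl⟩
      · exact ⟨hv.1, h1⟩
      · exact ⟨hw.1, h2⟩
    have h5 := Finset.card_le_card h4
    rw [Finset.card_insert_of_notMem, Finset.card_pair hne] at h5
    · omega
    · simp only [Finset.mem_insert, Finset.mem_singleton, not_or]
      exact ⟨Ne.symm hv.2, Ne.symm hw.2⟩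
  have himg : (I.erase u).image (fun v => (f u + f v) * (t u + t v)⁻¹) = (KK F q).erase 0 := by
    apply Finset.eq_of_subset_of_card_le
    · intro x hx
      rw [Finset.mem_image] at hx
      obtain ⟨v, hv, rfl⟩ := hx
      rw [Finset.mem_erase] at hv
      rw [Finset.mem_erase]
      refine ⟨?_, S.slope_mem ht hf hu hv.2⟩
      apply mul_ne_zero
      · intro h
        exact hv.1 (hfinj hv.2 hu (S.eq_of_add_eq_zero h).symm)
      · apply inv_ne_zero
        intro h
        exact hv.1 (htinj hv.2 hu (S.eq_of_add_eq_zero h).symm)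
    · rw [Finset.card_image_of_injOn hinj, Finset.card_erase_of_mem hu, Finset.card_erase_of_mem,
        S.card_KK, hI]
      rw [mem_KK, zero_pow S.q_pos.ne']
  have h1 : ∑ v ∈ I.erase u, (f u + f v) * (t u + t v)⁻¹ = ∑ x ∈ (KK F q).erase 0, x := by
    rw [← himg, Finset.sum_image hinj]
  rw [h1]
  have h2 := S.sum_KK (F := F) hq4
  rw [← Finset.add_sum_erase (KK F q) (fun x => x) (a := 0), zero_add] at h2
  · exact h2
  · rw [mem_KK, zero_pow S.q_pos.ne']

/-- blocks of size `sqrt q` -/
theorem slopes_sqrt {s : ℕ} (hs : s * s = q) (hs2 : 2 ≤ s) (hI : I.card = q)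
    (ht : ∀ u ∈ I, t u ^ q = t u)
    (htinj : Set.InjOn t I) (hf : ∀ u ∈ I, f u ^ q = f u)
    (hLL : ∀ m c0 : F, m ^ q = m → c0 ^ q = c0 →
      (I.filter fun u => f u + m * t u = c0).card = 0 ∨
      (I.filter fun u => f u + m * t u = c0).card = 1 ∨
      (I.filter fun u => f u + m * t u = c0).card = s)
    (h1 : ∀ c0 : F, c0 ^ q = c0 → (I.filter fun u => f u + 1 * t u = c0).card ≠ 1)
    (σ : ι → ι) (hσ : ∀ u ∈ I, σ u ∈ I) (hσt : ∀ u ∈ I, t (σ u) = t u + 1)
    (hσf : ∀ u ∈ I, f (σ u) = f u + 1) :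
    ∃ C0 : F, ∀ u ∈ I, ∑ v ∈ I.erase u, (f u + f v) * (t u + t v)⁻¹ = C0 := by
  have hq4 : 4 ≤ q := by nlinarith
  set E := (KK F q).filter fun y => Set.InjOn (fun u => f u + y * t u) I with hE
  set D := (KK F q).filter fun y => ¬ Set.InjOn (fun u => f u + y * t u) I with hD
  have hED : E.card + D.card = q := by
    rw [hE, hD, Finset.card_filter_add_card_filter_not, S.card_KK]
  -- size of a line through a point
  have hvalK : ∀ y u : _, y ∈ KK F q → u ∈ I → (f u + y * t u) ^ q = f u + y * t u := by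
    intro y u hy hu
    rw [S.conj_add, mul_pow, mem_KK.1 hy, hf u hu, ht u hu]
  have hsize : ∀ y ∈ KK F q, ∀ u ∈ I, ∀ v ∈ I, v ≠ u → f v + y * t v = f u + y * t u →
      (I.filter fun w => f w + y * t w = f u + y * t u).card = s := by
    intro y hy u hu v hv hvu hline
    have h2 : ({u, v} : Finset ι) ⊆ I.filter fun w => f w + y * t w = f u + y * t u := by
      intro x hx
      simp only [Finset.mem_insert, Finset.mem_singleton] at hx
      rw [Finset.mem_filter]
      rcases hx with rfl | rfl
      · exact ⟨hu, rfl⟩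
      · exact ⟨hv, hline⟩
    have h3 := Finset.card_le_card h2
    rw [Finset.card_pair (Ne.symm hvu)] at h3
    rcases hLL y (f u + y * t u) (mem_KK.1 hy) (hvalK y u hy hu) with h4 | h4 | h4
    · omega
    · omega
    · exact h4
  -- count of ordered pairs
  let P : F → Finset (ι × ι) := fun y =>
    I.offDiag.filter fun p => f p.1 + y * t p.1 = f p.2 + y * t p.2
  have hPsum : ∑ y ∈ KK F q, (P y).card ≤ q * (q - 1) := by
    have h2 : ((KK F q).biUnion P).card = ∑ y ∈ KK F q, (P y).card := by
      apply Finset.card_biUnion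
      intro y hy y' hy' hne
      rw [Function.onFun, Finset.disjoint_left]
      intro p hp hp'
      simp only [P, Finset.mem_filter, Finset.mem_offDiag] at hp hp'
      obtain ⟨⟨hp1, hp2, hp3⟩, hp4⟩ := hp
      have h5 := hp'.2
      have h6 : (y - y') * (t p.1 - t p.2) = 0 := by linear_combination hp4 - h5
      rcases mul_eq_zero.1 h6 with h7 | h7
      · exact hne (sub_eq_zero.1 h7)
      · exact hp3 (htinj hp1 hp2 (sub_eq_zero.1 h7))
    rw [← h2]
    have h3 : (KK F q).biUnion P ⊆ I.offDiag := by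
      rw [Finset.biUnion_subset]
      intro y _
      exact Finset.filter_subset _ _
    have h4 := Finset.card_le_card h3
    rw [Finset.offDiag_card, hI] at h4
    have : q * (q - 1) = q * q - q := by rw [Nat.mul_sub, mul_one]
    omega
  have hone : (1 : F) ∈ KK F q := mem_KK.2 (one_pow q)
  have hP1 : q * (s - 1) ≤ (P 1).card := by
    have h2 : (P 1).card = ∑ u ∈ I, ((I.erase u).filter fun v => f u + 1 * t u = f v + 1 * t v).card
        := by
      rw [Finset.card_eq_sum_card_fiberwise (f := fun p : ι × ι => p.1) (t := I)]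
      · apply Finset.sum_congr rfl
        intro u hu
        refine Finset.card_bij' (fun p _ => p.2) (fun v _ => (u, v)) ?_ ?_ ?_ ?_
        · intro p hp
          simp only [P, Finset.mem_filter, Finset.mem_offDiag] at hp
          obtain ⟨⟨⟨hp1, hp2, hp3⟩, hp4⟩, hp5⟩ := hp
          rw [Finset.mem_filter, Finset.mem_erase]
          rw [← hp5]
          exact ⟨⟨Ne.symm hp3, hp2⟩, hp4⟩
        · intro v hv
          rw [Finset.mem_filter, Finset.mem_erase] at hv
          simp only [P, Finset.mem_filter, Finset.mem_offDiag]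
          exact ⟨⟨⟨hu, hv.1.2, Ne.symm hv.1.1⟩, hv.2⟩, trivial⟩
        · intro p hp
          simp only [Finset.mem_filter] at hp
          rw [← hp.2]
        · intro v _
          rfl
      · intro p hp
        simp only [P, Finset.coe_filter, Finset.mem_offDiag, Set.mem_ofPred_eq] at hp
        exact hp.1.1
    rw [h2, ← hI, ← smul_eq_mul]
    apply Finset.card_nsmul_le_sum
    intro u hu
    have h3 : (I.filter fun v => f v + 1 * t v = f u + 1 * t u).card = s := by
      have h4 : 0 < (I.filter fun v => f v + 1 * t v = f u + 1 * t u).card :=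
        Finset.card_pos.2 ⟨u, by simp [hu]⟩
      have h5 := h1 (f u + 1 * t u) (hvalK 1 u hone hu)
      rcases hLL 1 (f u + 1 * t u) (one_pow q) (hvalK 1 u hone hu) with h6 | h6 | h6
      · omega
      · exact absurd h6 h5
      · exact h6
    have h4 : (I.erase u).filter (fun v => f u + 1 * t u = f v + 1 * t v) =
        (I.filter fun v => f v + 1 * t v = f u + 1 * t u).erase u := by
      ext x
      simp only [Finset.mem_filter, Finset.mem_erase]
      constructor
      · rintro ⟨⟨h5, h6⟩, h7⟩
        exact ⟨h5, h6, h7.symm⟩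
      · rintro ⟨h5, h6, h7⟩
        exact ⟨⟨h5, h6⟩, h7.symm⟩
    rw [h4, Finset.card_erase_of_mem (by simp [hu]), h3]
  have hPm : ∀ m ∈ D.erase 1, 2 * (s * (s - 1)) ≤ (P m).card := by
    intro m hm
    rw [Finset.mem_erase, hD, Finset.mem_filter] at hm
    obtain ⟨hm1, hmK, hmD⟩ := hm
    obtain ⟨u, hu, v, hv, huv, hline⟩ : ∃ u ∈ I, ∃ v ∈ I, v ≠ u ∧
        f v + m * t v = f u + m * t u := by
      by_contra hcon
      push Not at hcon
      apply hmD
      intro x hx y hy hxy
      by_contra hne
      exact hcon y hy x hx hne hxy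
    have hs0 := hsize m hmK u hu v hv huv hline
    have hσuv : σ v ≠ σ u := by
      intro h
      apply huv
      apply htinj hv hu
      have h2 := hσt v hv
      rw [h, hσt u hu] at h2
      exact (add_right_cancel h2).symm
    have hσline : ∀ x ∈ I, f (σ x) + m * t (σ x) = (f x + m * t x) + (m + 1) := by
      intro x hx
      rw [hσf x hx, hσt x hx]; ring
    have hs1 := hsize m hmK (σ u) (hσ u hu) (σ v) (hσ v hv) hσuv (by
      rw [hσline v hv, hσline u hu, hline])
    rw [hσline u hu] at hs1
    set L0 := I.filter fun w => f w + m * t w = f u + m * t u with hL0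
    set L1 := I.filter fun w => f w + m * t w = f u + m * t u + (m + 1) with hL1
    have hdisj : Disjoint L0.offDiag L1.offDiag := by
      rw [Finset.disjoint_left]
      intro p hp hp'
      rw [Finset.mem_offDiag, hL0, Finset.mem_filter] at hp
      rw [Finset.mem_offDiag, hL1, Finset.mem_filter] at hp'
      have h2 := hp.1.2
      rw [hp'.1.2] at h2
      have h3 : m + 1 = 0 := by linear_combination h2
      exact hm1 (S.eq_of_add_eq_zero h3)
    have hsub : L0.offDiag ∪ L1.offDiag ⊆ P m := by
      intro p hp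
      rw [Finset.mem_union, Finset.mem_offDiag, Finset.mem_offDiag, hL0, hL1] at hp
      simp only [Finset.mem_filter] at hp
      simp only [P, Finset.mem_filter, Finset.mem_offDiag]
      rcases hp with ⟨⟨h2, h3⟩, ⟨h4, h5⟩, h6⟩ | ⟨⟨h2, h3⟩, ⟨h4, h5⟩, h6⟩
      · exact ⟨⟨h2, h4, h6⟩, by rw [h3, h5]⟩
      · exact ⟨⟨h2, h4, h6⟩, by rw [h3, h5]⟩
    have h4 := Finset.card_le_card hsub
    rw [Finset.card_union_of_disjoint hdisj, Finset.offDiag_card, Finset.offDiag_card, hs0,
      hs1] at h4
    have h5 : s * (s - 1) = s * s - s := by rw [Nat.mul_sub, mul_one]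
    omega
  have hDcard : 2 * (D.erase 1).card ≤ q := by
    have h2 : ∑ y ∈ insert 1 (D.erase 1), (P y).card ≤ ∑ y ∈ KK F q, (P y).card := by
      apply Finset.sum_le_sum_of_subset
      intro y hy
      rw [Finset.mem_insert, Finset.mem_erase, hD, Finset.mem_filter] at hy
      rcases hy with rfl | hy
      · exact hone
      · exact hy.2.1
    rw [Finset.sum_insert (Finset.notMem_erase _ _)] at h2
    have h3 : (D.erase 1).card * (2 * (s * (s - 1))) ≤ ∑ y ∈ D.erase 1, (P y).card := by
      rw [← smul_eq_mul]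
      exact Finset.card_nsmul_le_sum _ _ _ hPm
    have h4 : q * (s - 1) + (D.erase 1).card * (2 * (s * (s - 1))) ≤ q * (q - 1) := by omega
    obtain ⟨r, rfl⟩ : ∃ r, s = r + 1 := ⟨s - 1, by omega⟩
    simp only [Nat.add_sub_cancel] at h4
    rw [← hs] at h4 ⊢
    have h5 : (r + 1) * (r + 1) - 1 = r * (r + 2) := by
      have : (r + 1) * (r + 1) = r * (r + 2) + 1 := by ring
      omega
    rw [h5] at h4
    have hr : 0 < r := by omega
    have h6 : r * ((r + 1) * ((r + 1) + 2 * (D.erase 1).card)) ≤
        r * ((r + 1) * ((r + 1) * (r + 2))) := by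
      calc r * ((r + 1) * ((r + 1) + 2 * (D.erase 1).card)) =
          (r + 1) * (r + 1) * r + (D.erase 1).card * (2 * ((r + 1) * r)) := by ring
        _ ≤ (r + 1) * (r + 1) * (r * (r + 2)) := h4
        _ = _ := by ring
    have h7 := Nat.le_of_mul_le_mul_left h6 hr
    have h8 := Nat.le_of_mul_le_mul_left h7 (by omega : 0 < r + 1)
    nlinarith
  have hqe : q % 2 = 0 := Nat.even_iff.1 S.q_even
  have hEcard : q ≤ 2 * E.card + 2 := by
    have h2 : D.card ≤ (D.erase 1).card + 1 := by
      have := Finset.pred_card_le_card_erase (s := D) (a := 1)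
      omega
    omega
  -- the gap
  have hgap : ∀ y : F, ∀ j, 1 ≤ j → 2 * j + 2 ≤ q →
      ∑ T ∈ I.powersetCard j, ∏ u ∈ T, (f u + y * t u) = 0 := by
    intro y j hj1 hj2
    apply S.pencil_zero hI ht htinj (E := E) _ hf _ hj1 (by omega) (by omega) y
    · intro y hy
      rw [hE, Finset.mem_filter] at hy
      exact mem_KK.1 hy.1
    · intro y hy
      rw [hE, Finset.mem_filter] at hy
      exact hy.2
  refine ⟨∑ y ∈ D, (((s - 1 : ℕ) : F)) * y, ?_⟩
  intro u hu
  have hmaps : ∀ v ∈ I.erase u, (f u + f v) * (t u + t v)⁻¹ ∈ D := by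
    intro v hv
    rw [Finset.mem_erase] at hv
    rw [hD, Finset.mem_filter]
    refine ⟨S.slope_mem ht hf hu hv.2, ?_⟩
    intro hinj
    have h2 := (S.slope_iff (f := f) htinj hu hv.2 hv.1 _).1 rfl
    exact hv.1 (hinj hv.2 hu h2)
  rw [← Finset.sum_fiberwise_of_maps_to hmaps]
  apply Finset.sum_congr rfl
  intro y hy
  have hyD := hy
  rw [hD, Finset.mem_filter] at hy
  obtain ⟨v, hv, hvu, hav⟩ := S.no_simple hI hq4 (a := fun u => f u + y * t u)
    (fun w hw => hvalK y w hy.1 hw) (hgap y) hy.2 hu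
  have hsz := hsize y hy.1 u hu v hv hvu hav
  have h3 : (I.erase u).filter (fun v => (f u + f v) * (t u + t v)⁻¹ = y) =
      (I.filter fun w => f w + y * t w = f u + y * t u).erase u := by
    ext x
    simp only [Finset.mem_filter, Finset.mem_erase]
    constructor
    · rintro ⟨⟨h5, h6⟩, h7⟩
      exact ⟨h5, h6, (S.slope_iff htinj hu h6 h5 y).1 h7⟩
    · rintro ⟨h5, h6, h7⟩
      exact ⟨⟨h5, h6⟩, (S.slope_iff htinj hu h6 h5 y).2 h7⟩
  have h4 : ∑ v ∈ (I.erase u).filter (fun v => (f u + f v) * (t u + t v)⁻¹ = y),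
      (f u + f v) * (t u + t v)⁻¹ =
      ∑ v ∈ (I.erase u).filter (fun v => (f u + f v) * (t u + t v)⁻¹ = y), y := by
    apply Finset.sum_congr rfl
    intro v hv
    rw [Finset.mem_filter] at hv
    exact hv.2
  rw [h4, Finset.sum_const, h3, Finset.card_erase_of_mem (by simp [hu]), hsz, nsmul_eq_mul]

end Setup

end Pool.Agent.Helper36.Niho
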