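import Pool.Agent.Helper36.Niho.ThmB
import Pool.Agent.Helper36.Niho.Slope

set_option autoImplicit false
set_option linter.unusedSectionVars false
set_option linter.style.haveILetI false

/-!
# The function graph attached to a Niho exponent
-/

namespace Pool.Agent.Helper36.Niho

open Finset Classical Polynomial

variable {F : Type} [Field F] [Fintype F]

/-- the affine coordinate of a point of the norm-one group -/
noncomputable def tt {q : ℕ} (lam : F) (u : UG F q) : F := lam + (c u + 1)⁻¹

namespace Setup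

variable {k q : ℕ} (S : Setup F k q)
include S

lemma exists_lam : ∃ lam : F, lam ^ q = lam + 1 := by
  have h := S.card_tr_fiber (b := (1 : F)) (one_pow q)
  have h2 := S.q_pos
  obtain ⟨x, hx⟩ := Finset.card_pos.1 (by rw [h]; exact h2)
  rw [Finset.mem_filter] at hx
  replace hx := hx.2
  unfold tr at hx
  refine ⟨x, ?_⟩
  linear_combination hx - x * S.two_eq

lemma c_add_one_ne {u : UG F q} (hu : u ≠ 1) : c u + 1 ≠ 0 := by
  intro h
  exact hu (c_eq_one.1 (S.eq_of_add_eq_zero h))

lemma inv_c_add_one {u : UG F q} (hu : u ≠ 1) : (c u⁻¹ + 1)⁻¹ = (c u + 1)⁻¹ + 1 := by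
  have h1 := S.c_add_one_ne hu
  have h2 := c_ne u
  have h3 : (c u)⁻¹ + 1 = (c u + 1) * (c u)⁻¹ := by field_simp; ring
  rw [c_inv, h3]
  field_simp
  linear_combination - S.two_eq

lemma tt_inv {lam : F} {u : UG F q} (hu : u ≠ 1) : tt lam u⁻¹ = tt lam u + 1 := by
  unfold tt
  rw [S.inv_c_add_one hu]; ring

lemma tt_mem {lam : F} (hlam : lam ^ q = lam + 1) {u : UG F q} (hu : u ≠ 1) :
    tt lam u ^ q = tt lam u := by
  unfold tt
  rw [S.conj_add, hlam, inv_pow, S.conj_add, one_pow, c_conj, ← c_inv, S.inv_c_add_one hu]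
  linear_combination S.two_eq

lemma tt_inj {lam : F} {u v : UG F q} (h : tt lam u = tt lam v) : u = v := by
  unfold tt at h
  have h1 := add_left_cancel h
  have h2 := inv_injective h1
  exact c_inj (add_right_cancel h2)

lemma tt_add {lam : F} {u v : UG F q} :
    tt lam u + tt lam v = (c u + 1)⁻¹ + (c v + 1)⁻¹ := by
  unfold tt
  linear_combination lam * S.two_eq

lemma pow_congr {a b : ℕ} (h : a ≡ b [MOD q + 1]) (w : UG F q) : w ^ a = w ^ b := by
  have h1 : orderOf w ∣ q + 1 := by
    rw [← S.card_UG (F := F)]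
    exact orderOf_dvd_natCard w
  exact pow_eq_pow_iff_modEq.2 (h.of_dvd h1)

/-- general planes reduce to the planes `(a, 1)` -/
lemma gen_plane {e : ℕ} (hce : Nat.Coprime (q + 1) e) {A B : F} (hB : B ≠ 0) :
    ∃ a : F, (Pl q e A B).card = NN q e a := by
  obtain ⟨w0, hw0⟩ := Finset.card_eq_one.1 (S.card_tr_mul_pow hce hB)
  have h1 : tr q (B * c w0 ^ e) = 0 := by
    have : w0 ∈ (univ.filter fun w : UG F q => tr q (B * c w ^ e) = 0) := by
      rw [hw0]; exact Finset.mem_singleton_self _
    simpa using this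
  rw [S.tr_eq_zero] at h1
  set β := B * c w0 ^ e with hβ
  have hβ0 : β ≠ 0 := mul_ne_zero hB (pow_ne_zero _ (c_ne w0))
  refine ⟨A * c w0 / β, ?_⟩
  rw [← S.card_shift (Pl q e A B) w0]
  unfold NN
  congr 1
  ext w
  simp only [Finset.mem_filter, Finset.mem_univ, true_and, mem_Pl, one_mul]
  have h2 : A * c (w * w0) + B * c (w * w0) ^ e = β * (A * c w0 / β * c w + c w ^ e) := by
    rw [c_mul, mul_pow]
    field_simp
    rw [hβ]
    ring
  rw [h2, S.tr_mul h1, mul_eq_zero]
  simp [hβ0]

lemma plane_zero {e : ℕ} {A : F} (hA : A ≠ 0) : (Pl q e A 0).card = 1 := by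
  rw [← S.card_tr_mul_c hA]
  unfold Pl
  simp

/-- lines of the graph are planes through the base point -/
lemma line_plane {e θ : ℕ} (he : 1 ≤ e) (h1 : Nat.Coprime (q + 1) (e - 1))
    (hθ : (e - 1) * θ ≡ e + 1 [MOD q + 1]) (hθc : Nat.Coprime (q + 1) θ)
    {lam m c0 : F} (hlam : lam ^ q = lam + 1)
    (hm : m ^ q = m) (hc0 : c0 ^ q = c0) :
    (((univ : Finset (UG F q)).erase 1).filter fun u =>
      tt lam (u ^ θ) + m * tt lam u = c0).card + 1 =
      (Pl q e (lam * (1 + m) + c0 + m) (lam * (1 + m) + c0)).card := by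
  set E := lam * (1 + m) + c0 with hE
  have hone : (1 : UG F q) ∈ Pl q e (E + m) E := by
    rw [mem_Pl]
    simp only [c_one, one_pow, mul_one]
    have : E + m + E = m := by linear_combination E * S.two_eq
    rw [this, S.tr_eq_zero]
    exact hm
  rw [← Finset.card_erase_add_one hone]
  congr 1
  have h1' := h1
  rw [← S.card_UG (F := F)] at h1'
  symm
  apply Finset.card_bij (fun w _ => powCoprime h1' w)
  · intro w hw
    rw [Finset.mem_erase, mem_Pl] at hw
    rw [Finset.mem_filter, Finset.mem_erase]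
    obtain ⟨hw1, hw2⟩ := hw
    set u := powCoprime h1' w with hu
    have hu' : u = w ^ (e - 1) := rfl
    have hu1 : u ≠ 1 := by
      intro h
      apply hw1
      apply S.pow_inj h1
      rw [← hu', h, one_pow]
    refine ⟨⟨hu1, Finset.mem_univ _⟩, ?_⟩
    have huθ : u ^ θ = w ^ (e + 1) := by
      rw [hu', ← pow_mul]
      exact S.pow_congr hθ w
    have huθ1 : u ^ θ ≠ 1 := by
      intro h
      apply hu1
      apply S.pow_inj hθc
      rw [h, one_pow]
    have hEq : E ^ q = E + 1 + m := by
      rw [hE, S.conj_add, mul_pow, S.conj_add, one_pow, hlam, hm, hc0]; ring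
    have hx := S.c_add_one_ne hu1
    have hy := S.c_add_one_ne huθ1
    have hcw := c_ne w
    -- polynomial form of the plane equation
    have key : E * (c u * c (u ^ θ)) + (E + m) * c (u ^ θ) + (E + 1) * c u + (E + 1 + m) = 0 := by
      unfold tr at hw2
      rw [S.conj_add, mul_pow, mul_pow, S.conj_add, hm, hEq, ← pow_mul, mul_comm e q, pow_mul,
        c_conj] at hw2
      have h3 : c (u ^ θ) = c w ^ e * c w := by rw [huθ, c_pow, pow_succ]
      have h4 : c u * c w = c w ^ e := by
        rw [hu', c_pow, ← pow_succ, Nat.sub_add_cancel he]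
      have h5 : c u = c w ^ e * (c w)⁻¹ := by
        rw [← h4]; field_simp
      have h6 : (E * (c u * c (u ^ θ)) + (E + m) * c (u ^ θ) + (E + 1) * c u + (E + 1 + m)) =
          c w ^ e * ((E + m) * c w + E * c w ^ e + ((E + 1 + m + m) * (c w)⁻¹ +
            (E + 1 + m) * (c w)⁻¹ ^ e)) := by
        rw [h3, h5, inv_pow]
        field_simp
        linear_combination (-(c w ^ e * m)) * S.two_eq
      rw [h6, hw2, mul_zero]
    have h7 : tt lam (u ^ θ) + m * tt lam u + c0 = 0 := by
      have h8 : tt lam (u ^ θ) + m * tt lam u + c0 =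
          (E * (c u * c (u ^ θ)) + (E + m) * c (u ^ θ) + (E + 1) * c u + (E + 1 + m)) *
            ((c u + 1)⁻¹ * (c (u ^ θ) + 1)⁻¹) := by
        unfold tt
        rw [hE]
        field_simp
        ring
      rw [h8, key, zero_mul]
    exact S.eq_of_add_eq_zero h7
  · intro v _ w _ h
    exact (powCoprime h1').injective h
  · intro u hu
    rw [Finset.mem_filter, Finset.mem_erase] at hu
    obtain ⟨⟨hu1, _⟩, hline⟩ := hu
    refine ⟨(powCoprime h1').symm u, ?_, Equiv.apply_symm_apply _ _⟩
    set w := (powCoprime h1').symm u with hw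
    have hu' : u = w ^ (e - 1) := by
      have : powCoprime h1' w = u := by rw [hw]; exact Equiv.apply_symm_apply _ _
      rw [← this]; rfl
    rw [Finset.mem_erase, mem_Pl]
    have hw1 : w ≠ 1 := by
      intro h
      apply hu1
      rw [hu', h, one_pow]
    refine ⟨hw1, ?_⟩
    have huθ : u ^ θ = w ^ (e + 1) := by
      rw [hu', ← pow_mul]
      exact S.pow_congr hθ w
    have huθ1 : u ^ θ ≠ 1 := by
      intro h
      apply hu1
      apply S.pow_inj hθc
      rw [h, one_pow]
    have hEq : E ^ q = E + 1 + m := by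
      rw [hE, S.conj_add, mul_pow, S.conj_add, one_pow, hlam, hm, hc0]; ring
    have hx := S.c_add_one_ne hu1
    have hy := S.c_add_one_ne huθ1
    have hcw := c_ne w
    have h7 : tt lam (u ^ θ) + m * tt lam u + c0 = 0 := by
      rw [hline, S.add_self]
    have key : E * (c u * c (u ^ θ)) + (E + m) * c (u ^ θ) + (E + 1) * c u + (E + 1 + m) = 0 := by
      have h8 : (E * (c u * c (u ^ θ)) + (E + m) * c (u ^ θ) + (E + 1) * c u + (E + 1 + m)) =
          (tt lam (u ^ θ) + m * tt lam u + c0) * ((c u + 1) * (c (u ^ θ) + 1)) := by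
        unfold tt
        rw [hE]
        field_simp
        ring
      rw [h8, h7, zero_mul]
    unfold tr
    rw [S.conj_add, mul_pow, mul_pow, S.conj_add, hm, hEq, ← pow_mul, mul_comm e q, pow_mul,
      c_conj]
    have h3 : c (u ^ θ) = c w ^ e * c w := by rw [huθ, c_pow, pow_succ]
    have h4 : c u * c w = c w ^ e := by
      rw [hu', c_pow, ← pow_succ, Nat.sub_add_cancel he]
    have h5 : c u = c w ^ e * (c w)⁻¹ := by
      rw [← h4]; field_simp
    have h6 : (E * (c u * c (u ^ θ)) + (E + m) * c (u ^ θ) + (E + 1) * c u + (E + 1 + m)) =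
        c w ^ e * ((E + m) * c w + E * c w ^ e + ((E + 1 + m + m) * (c w)⁻¹ +
          (E + 1 + m) * (c w)⁻¹ ^ e)) := by
      rw [h3, h5, inv_pow]
      field_simp
      linear_combination (-(c w ^ e * m)) * S.two_eq
    rw [h6] at key
    rcases mul_eq_zero.1 key with h8 | h8
    · exact absurd h8 (pow_ne_zero _ hcw)
    · exact h8

end Setup

end Pool.Agent.Helper36.Niho
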