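import Pool.Agent.Helper36.Niho.Count

set_option autoImplicit false
set_option linter.unusedSectionVars false
set_option linter.style.haveILetI false

/-!
# Values on the norm-one group and on the subfield
-/

namespace Pool.Agent.Helper36.Niho

open Finset Classical

variable {F : Type} [Field F] [Fintype F]

namespace Setup

variable {k q : ℕ} (S : Setup F k q)
include S

lemma mem_Pl_U {e : ℕ} (he : 1 ≤ e) (g w : UG F q) :
    w ∈ Pl q e (c g) 1 ↔ w ^ (e - 1) = g ∨ w ^ (e + 1) = g⁻¹ := by
  rw [mem_Pl, one_mul, S.tr_add, ← c_mul, ← c_pow, S.tr_c, S.tr_c]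
  set x := g * w with hx
  set y := w ^ e with hy
  have h1 : c x + (c x)⁻¹ + (c y + (c y)⁻¹) = (c x + c y) * (1 + c (x * y)) * (c (x * y))⁻¹ := by
    rw [c_mul x y]
    have hcx := c_ne x
    have hcy := c_ne y
    field_simp
    ring
  rw [h1, mul_eq_zero, mul_eq_zero]
  have h2 : (c (x * y))⁻¹ ≠ 0 := inv_ne_zero (c_ne _)
  simp only [h2, or_false]
  rw [S.add_eq_zero_iff, S.add_eq_zero_iff, c_inj_iff]
  have h3 : (1 : F) = c (x * y) ↔ x * y = 1 := by
    rw [eq_comm, c_eq_one]
  rw [h3, hx, hy]
  apply or_congr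
  · constructor
    · intro h
      have : w ^ (e - 1) * w = g * w := by
        rw [← pow_succ, Nat.sub_add_cancel he, h]
      exact mul_right_cancel this
    · intro h
      rw [← h, ← pow_succ, Nat.sub_add_cancel he]
  · constructor
    · intro h
      rw [eq_inv_iff_mul_eq_one, ← h, pow_succ]
      rw [mul_comm, mul_assoc, mul_comm (w ^ e) w]
    · intro h
      rw [eq_inv_iff_mul_eq_one, pow_succ] at h
      rw [← h]
      rw [mul_assoc, mul_comm g, mul_comm w (w ^ e)]

lemma card_Pl_U {e : ℕ} (he : 1 ≤ e) (hce : Nat.Coprime (q + 1) e) (g : UG F q) :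
    NN q e (c g) + (if g = 1 then 1 else 0) =
      (univ.filter fun w : UG F q => w ^ (e - 1) = g).card +
      (univ.filter fun w : UG F q => w ^ (e + 1) = g⁻¹).card := by
  rw [← Finset.card_union_add_card_inter]
  congr 1
  · unfold NN
    congr 1
    ext w
    rw [S.mem_Pl_U he]
    simp
  · by_cases hg : g = 1
    · rw [if_pos hg, eq_comm, Finset.card_eq_one]
      refine ⟨1, ?_⟩
      ext w
      simp only [Finset.mem_inter, Finset.mem_filter, Finset.mem_univ, true_and,
        Finset.mem_singleton]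
      constructor
      · rintro ⟨h1, h2⟩
        rw [hg] at h1 h2
        have h3 : w ^ (2 * e) = 1 ^ (2 * e) := by
          rw [one_pow]
          have : 2 * e = (e - 1) + (e + 1) := by omega
          rw [this, pow_add, h1, h2, inv_one, mul_one]
        exact S.pow_inj (Nat.Coprime.mul_right S.coprime_two hce) h3
      · rintro rfl
        rw [hg]
        simp
    · rw [if_neg hg, eq_comm, Finset.card_eq_zero]
      ext w
      simp only [Finset.mem_inter, Finset.mem_filter, Finset.mem_univ, true_and,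
        Finset.notMem_empty, iff_false]
      rintro ⟨h1, h2⟩
      have h3 : w ^ (2 * e) = 1 ^ (2 * e) := by
        rw [one_pow]
        have : 2 * e = (e - 1) + (e + 1) := by omega
        rw [this, pow_add, h1, h2, mul_inv_cancel]
      have h4 := S.pow_inj (Nat.Coprime.mul_right S.coprime_two hce) h3
      apply hg
      rw [← h1, h4, one_pow]

lemma cyc : IsCyclic (UG F q) := rootsOfUnity.isCyclic F (q + 1)

lemma card_pow_fiber (m : ℕ) (g : UG F q) :
    (univ.filter fun w : UG F q => w ^ m = g).card =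
      if g ∈ (powMonoidHom m : UG F q →* UG F q).range then (q + 1).gcd m else 0 := by
  split_ifs with hg
  · obtain ⟨v, hv⟩ := hg
    rw [powMonoidHom_apply] at hv
    have hcyc := S.cyc
    have h1 := IsCyclic.card_powMonoidHom_ker (UG F q) m
    rw [S.card_UG] at h1
    rw [← h1]
    have h2 : Nat.card (powMonoidHom m : UG F q →* UG F q).ker =
        (univ.filter fun w : UG F q => w ^ m = 1).card := by
      rw [← Fintype.card_coe, ← Nat.card_eq_fintype_card]
      apply Nat.card_congr
      apply Equiv.subtypeEquivRight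
      intro x
      rw [MonoidHom.mem_ker]
      simp
    rw [h2]
    apply Finset.card_bij' (fun w _ => w * v⁻¹) (fun w _ => w * v)
    · intro w hw
      simp only [Finset.mem_filter, Finset.mem_univ, true_and] at hw ⊢
      rw [mul_pow, hw, inv_pow, hv, mul_inv_cancel]
    · intro w hw
      simp only [Finset.mem_filter, Finset.mem_univ, true_and] at hw ⊢
      rw [mul_pow, hw, hv, one_mul]
    · intro w _
      simp
    · intro w _
      simp
  · rw [Finset.card_eq_zero]
    ext w
    simp only [Finset.mem_filter, Finset.mem_univ, true_and, Finset.notMem_empty, iff_false]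
    intro h
    exact hg ⟨w, h⟩

/-- the values on the norm-one group -/
lemma NN_U {e : ℕ} (he : 1 ≤ e) (hce : Nat.Coprime (q + 1) e) (g : UG F q) :
    NN q e (c g) + (if g = 1 then 1 else 0) =
      (if g ∈ (powMonoidHom (e - 1) : UG F q →* UG F q).range then (q + 1).gcd (e - 1) else 0) +
      (if g ∈ (powMonoidHom (e + 1) : UG F q →* UG F q).range then (q + 1).gcd (e + 1) else 0) := by
  rw [S.card_Pl_U he hce, S.card_pow_fiber, S.card_pow_fiber]
  simp only [inv_mem_iff]

/-! ### values on the subfield -/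

lemma one_mem_Pl_K {e : ℕ} {a : F} (ha : a ^ q = a) : (1 : UG F q) ∈ Pl q e a 1 := by
  rw [S.mem_Pl_one]
  simp only [c_one, one_pow, mul_one]
  rw [S.tr_eq_zero.2 ha, S.tr_eq_zero.2 (one_pow q)]

lemma inv_mem_Pl_K {e : ℕ} {a : F} (ha : a ^ q = a) {w : UG F q} (hw : w ∈ Pl q e a 1) :
    w⁻¹ ∈ Pl q e a 1 := by
  rw [S.mem_Pl_one] at hw ⊢
  have h1 : ∀ m : ℕ, c (w⁻¹) ^ m = (c w ^ m) ^ q := by
    intro m
    rw [c_inv, ← c_conj, ← pow_mul, ← pow_mul, mul_comm]
  have h2 := h1 1
  rw [pow_one, pow_one] at h2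
  rw [h1, h2, S.tr_conj, S.tr_mul ha, S.tr_conj, ← S.tr_mul ha]
  exact hw

lemma odd_NN_K {e : ℕ} {a : F} (ha : a ^ q = a) : Odd (NN q e a) := by
  have h1 := S.one_mem_Pl_K (e := e) ha
  have h2 : NN q e a = ((Pl q e a 1).erase 1).card + 1 := by
    rw [Finset.card_erase_add_one h1]
    rfl
  rw [h2]
  apply Even.add_one
  rw [← ZMod.natCast_eq_zero_iff_even]
  have h3 : (((Pl q e a 1).erase 1).card : ZMod 2) = ∑ w ∈ (Pl q e a 1).erase 1, (1 : ZMod 2) := by
    simp
  rw [h3]
  apply Finset.sum_involution (fun w _ => w⁻¹)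
  · intro w _
    exact CharTwo.add_self_eq_zero 1
  · intro w hw _ heq
    rw [Finset.mem_erase] at hw
    apply hw.1
    have : w ^ 2 = 1 ^ 2 := by
      rw [one_pow, sq]
      nth_rewrite 1 [← heq]
      exact inv_mul_cancel w
    exact S.pow_inj S.coprime_two this
  · intro w _
    exact inv_inv w
  · intro w hw
    rw [Finset.mem_erase] at hw ⊢
    exact ⟨by simpa using hw.1, S.inv_mem_Pl_K ha hw.2⟩

lemma sum_NN_K (e : ℕ) : ∑ a ∈ univ.filter (fun x : F => x ^ q = x), NN q e a = 2 * q := by
  have h1 : ∀ a : F, NN q e a = ∑ w : UG F q, if w ∈ Pl q e a 1 then 1 else 0 := by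
    intro a
    rw [Finset.sum_boole]
    simp [NN]
  simp_rw [h1]
  rw [Finset.sum_comm]
  have h2 : ∀ w : UG F q, (∑ a ∈ univ.filter (fun x : F => x ^ q = x),
      if w ∈ Pl q e a 1 then 1 else 0) = if w = 1 then q else 1 := by
    intro w
    rw [Finset.sum_boole, Nat.cast_id, Finset.filter_filter]
    split_ifs with hw
    · subst hw
      refine Eq.trans ?_ S.card_K
      congr 1
      ext a
      simp only [Finset.mem_filter, Finset.mem_univ, true_and]
      exact ⟨fun h => h.1, fun h => ⟨h, S.one_mem_Pl_K h⟩⟩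
    · rw [Finset.card_eq_one]
      have hne : tr q (c w) ≠ 0 := fun h => hw (S.tr_c_eq_zero.1 h)
      refine ⟨tr q (c w ^ e) / tr q (c w), ?_⟩
      ext a
      simp only [Finset.mem_filter, Finset.mem_univ, true_and, Finset.mem_singleton,
        S.mem_Pl_one]
      constructor
      · rintro ⟨ha, h⟩
        rw [S.tr_mul ha] at h
        rw [← h]
        field_simp
      · rintro rfl
        have hq : (tr q (c w ^ e) / tr q (c w)) ^ q = tr q (c w ^ e) / tr q (c w) := by
          rw [div_pow, S.tr_mem, S.tr_mem]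
        refine ⟨hq, ?_⟩
        rw [S.tr_mul hq]
        field_simp
  simp_rw [h2]
  rw [← Finset.add_sum_erase _ _ (Finset.mem_univ (1 : UG F q)), if_pos rfl]
  have h3 : ∑ x ∈ (univ : Finset (UG F q)).erase 1, (if x = 1 then q else 1) =
      ∑ x ∈ (univ : Finset (UG F q)).erase 1, 1 := by
    apply Finset.sum_congr rfl
    intro x hx
    rw [Finset.mem_erase] at hx
    rw [if_neg hx.1]
  rw [h3, Finset.sum_const, Finset.card_erase_of_mem (Finset.mem_univ _), Finset.card_univ,
    S.card_UG', smul_eq_mul]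
  omega

end Setup

end Pool.Agent.Helper36.Niho
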