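import Mathlib

set_option autoImplicit false

/-!
# The parity lemma
-/

namespace Pool.Agent.Helper36.Niho

/-- no wrap-around at the steps from odd to even forces a power of two -/
lemma pow_two_of_noWrap {k q n ψ : ℕ} (hk : 1 ≤ k) (hq : q = 2 ^ k) (hn : n = q + 1)
    (hψ0 : 0 < ψ) (hψ : ψ < n) (hcop : Nat.Coprime ψ n)
    (h : ∀ j, 1 ≤ j → 2 * j ≤ q → (2 * j - 1) * ψ % n + ψ < n) : ∃ i, ψ = 2 ^ i := by
  obtain ⟨k', rfl⟩ : ∃ k', k = k' + 1 := ⟨k - 1, by omega⟩
  set H := 2 ^ k' with hH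
  have hHpos : 0 < H := by positivity
  have hqH : q = 2 * H := by rw [hq, pow_succ, hH]; ring
  have hn1 : 1 < n := by omega
  -- the inverse
  obtain ⟨f0, hf0⟩ := Nat.exists_mul_mod_eq_one_of_coprime hcop hn1
  set f := (f0 * H) % n with hf
  have hfψ : f * ψ ≡ H [MOD n] := by
    have h1 : f ≡ f0 * H [MOD n] := Nat.mod_modEq _ _
    have h2 : ψ * f0 ≡ 1 [MOD n] := by
      unfold Nat.ModEq
      rw [hf0.2, Nat.mod_eq_of_lt hn1]
    calc f * ψ ≡ f0 * H * ψ [MOD n] := h1.mul_right _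
      _ = (ψ * f0) * H := by ring
      _ ≡ 1 * H [MOD n] := h2.mul_right _
      _ = H := one_mul _
  -- key claim
  have hno : ∀ m, 0 < m → m < n → m * ψ % n ≠ 0 := by
    intro m hm1 hm2 h0
    have h1 : n ∣ m * ψ := Nat.dvd_of_mod_eq_zero h0
    have h2 : n ∣ m := hcop.symm.dvd_of_dvd_mul_right h1
    have := Nat.le_of_dvd hm1 h2
    omega
  have claim : ∀ x, 1 ≤ x → x ≤ ψ → x * f % n ≤ H := by
    intro x hx1 hx2
    by_contra hlt
    push Not at hlt
    set z := x * f % n with hz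
    have hzn : z < n := Nat.mod_lt _ (by omega)
    set y := n - z with hy
    have hy1 : 1 ≤ y := by omega
    have hy2 : 2 * y ≤ q := by omega
    have h1 := h y hy1 hy2
    have h2 : 0 < (2 * y - 1) * ψ % n := Nat.pos_of_ne_zero (hno _ (by omega) (by omega))
    -- r(2y) = r(2y-1) + ψ
    have h3 : 2 * y * ψ % n = (2 * y - 1) * ψ % n + ψ := by
      have : 2 * y * ψ = (2 * y - 1) * ψ + ψ := by
        obtain ⟨w, hw⟩ : ∃ w, 2 * y = w + 1 := ⟨2 * y - 1, by omega⟩
        rw [hw]; simp only [Nat.add_sub_cancel]; ring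
      rw [this, Nat.add_mod, Nat.mod_eq_of_lt hψ, Nat.mod_eq_of_lt h1]
    -- r(2y) = x
    have h4 : 2 * y * ψ ≡ x [MOD n] := by
      have hzx : z ≡ x * f [MOD n] := Nat.mod_modEq _ _
      have h5 : (2 * y * ψ : ℤ) ≡ x [ZMOD n] := by
        have h6 : (y : ℤ) = n - z := by rw [hy]; push_cast [hzn.le]; ring
        have h7 : (z : ℤ) ≡ x * f [ZMOD n] := by exact_mod_cast (Int.natCast_modEq_iff.2 hzx)
        have h8 : ((f : ℤ) * ψ) ≡ H [ZMOD n] := by exact_mod_cast (Int.natCast_modEq_iff.2 hfψ)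
        have h9 : (2 * H : ℤ) ≡ -1 [ZMOD n] := by
          have : (n : ℤ) = 2 * H + 1 := by rw [hn, hqH]; push_cast; ring
          rw [Int.modEq_iff_dvd]
          exact ⟨-1, by rw [this]; ring⟩
        calc (2 * y * ψ : ℤ) = 2 * n * ψ - 2 * z * ψ := by rw [h6]; ring
          _ ≡ 0 - 2 * (x * f) * ψ [ZMOD n] := by
              apply Int.ModEq.sub
              · rw [Int.modEq_zero_iff_dvd]; exact ⟨2 * ψ, by ring⟩
              · exact (h7.mul_left 2).mul_right _
          _ = -(2 * x * (f * ψ)) := by ring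
          _ ≡ -(2 * x * H) [ZMOD n] := (h8.mul_left _).neg
          _ = -(x * (2 * H)) := by ring
          _ ≡ -(x * (-1)) [ZMOD n] := (h9.mul_left _).neg
          _ = x := by ring
      exact_mod_cast h5
    have h5 : 2 * y * ψ % n = x := by
      have := h4
      unfold Nat.ModEq at this
      rw [this, Nat.mod_eq_of_lt (by omega)]
    omega
  have claim2 : ∀ x, 1 ≤ x → x ≤ ψ → x * f ≤ H := by
    intro x hx1
    induction x, hx1 using Nat.le_induction with
    | base =>
      intro hx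
      have h1 := claim 1 le_rfl hx
      have h2 : f < n := Nat.mod_lt _ (by omega)
      rw [one_mul, Nat.mod_eq_of_lt h2] at h1
      omega
    | succ x hx ih =>
      intro hx2
      have h1 := ih (by omega)
      have h2 := claim (x + 1) (by omega) hx2
      have h3 : f ≤ H := by
        calc f = 1 * f := (one_mul f).symm
          _ ≤ x * f := Nat.mul_le_mul_right f hx
          _ ≤ H := h1
      have h4 : (x + 1) * f < n := by
        rw [add_mul, one_mul]; omega
      rwa [Nat.mod_eq_of_lt h4] at h2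
  have h1 := claim2 ψ hψ0 le_rfl
  have h2 : ψ * f = H := by
    have h3 : ψ * f % n = H % n := by rw [mul_comm]; exact hfψ
    rwa [Nat.mod_eq_of_lt (by omega), Nat.mod_eq_of_lt (by omega)] at h3
  have h3 : ψ ∣ 2 ^ k' := by
    rw [← hH, ← h2]
    exact Nat.dvd_mul_right _ _
  obtain ⟨i, _, hi⟩ := (Nat.dvd_prime_pow Nat.prime_two).1 h3
  exact ⟨i, hi⟩

/-- **Parity lemma.** -/
theorem pow_two_of_parity {k q n ψ ε : ℕ} (hk : 1 ≤ k) (hq : q = 2 ^ k) (hn : n = q + 1)
    (hψ0 : 0 < ψ) (hψ : ψ < n) (hcop : Nat.Coprime ψ n)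
    (h : ∀ j, 1 ≤ j → 2 * j ≤ q →
      ((2 * j - 1) * ψ % n % 2 + 2 * j * ψ % n % 2) % 2 = ε) :
    ∃ i, ψ = 2 ^ i ∨ n - ψ = 2 ^ i := by
  have hnodd : n % 2 = 1 := by
    obtain ⟨k', rfl⟩ : ∃ k', k = k' + 1 := ⟨k - 1, by omega⟩
    rw [hn, hq, pow_succ]; omega
  have hn1 : 1 < n := by
    have : 0 < 2 ^ k := by positivity
    omega
  have hno : ∀ m, 0 < m → m < n → m * ψ % n ≠ 0 := by
    intro m hm1 hm2 h0
    have h1 : n ∣ m * ψ := Nat.dvd_of_mod_eq_zero h0
    have h2 : n ∣ m := hcop.symm.dvd_of_dvd_mul_right h1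
    have := Nat.le_of_dvd hm1 h2
    omega
  have hstep : ∀ j, 1 ≤ j → 2 * j ≤ q →
      ((2 * j - 1) * ψ % n + ψ < n ∧ 2 * j * ψ % n = (2 * j - 1) * ψ % n + ψ) ∨
      (n < (2 * j - 1) * ψ % n + ψ ∧ 2 * j * ψ % n + n = (2 * j - 1) * ψ % n + ψ) := by
    intro j hj1 hj2
    have h1 : 2 * j * ψ % n = ((2 * j - 1) * ψ % n + ψ) % n := by
      have : 2 * j * ψ = (2 * j - 1) * ψ + ψ := by
        obtain ⟨w, hw⟩ : ∃ w, 2 * j = w + 1 := ⟨2 * j - 1, by omega⟩
        rw [hw]; simp only [Nat.add_sub_cancel]; ring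
      rw [this, Nat.mod_add_mod]
    have h2 : (2 * j - 1) * ψ % n < n := Nat.mod_lt _ (by omega)
    have h3 := hno (2 * j) (by omega) (by omega)
    rcases lt_trichotomy ((2 * j - 1) * ψ % n + ψ) n with h4 | h4 | h4
    · left
      exact ⟨h4, by rw [h1, Nat.mod_eq_of_lt h4]⟩
    · exfalso
      rw [h1, h4, Nat.mod_self] at h3
      exact h3 rfl
    · right
      refine ⟨h4, ?_⟩
      rw [h1, Nat.mod_eq_sub_mod h4.le, Nat.mod_eq_of_lt (by omega)]
      omega
  by_cases hcase : (2 * 1 - 1) * ψ % n + ψ < n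
  · -- never wraps
    obtain ⟨i, hi⟩ := pow_two_of_noWrap hk hq hn hψ0 hψ hcop (by
      intro j hj1 hj2
      have hq2 : 2 * 1 ≤ q := by omega
      have e1 := h 1 le_rfl hq2
      have e2 := h j hj1 hj2
      rcases hstep j hj1 hj2 with h5 | h5
      · exact h5.1
      · exfalso
        rcases hstep 1 le_rfl hq2 with h6 | h6
        · omega
        · omega)
    exact ⟨i, Or.inl hi⟩
  · -- always wraps
    have hq2 : 2 * 1 ≤ q := by
      obtain ⟨k', rfl⟩ : ∃ k', k = k' + 1 := ⟨k - 1, by omega⟩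
      rw [hq, pow_succ]
      have : 0 < 2 ^ k' := by positivity
      omega
    have hall : ∀ j, 1 ≤ j → 2 * j ≤ q → n < (2 * j - 1) * ψ % n + ψ := by
      intro j hj1 hj2
      have e1 := h 1 le_rfl hq2
      have e2 := h j hj1 hj2
      rcases hstep j hj1 hj2 with h5 | h5
      · exfalso
        rcases hstep 1 le_rfl hq2 with h6 | h6
        · omega
        · omega
      · exact h5.1
    have hcop' : Nat.Coprime (n - ψ) n := by
      have h1 := Nat.gcd_dvd_left (n - ψ) n
      have h2 := Nat.gcd_dvd_right (n - ψ) n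
      have h3 : Nat.gcd (n - ψ) n ∣ ψ := by
        have := Nat.dvd_sub h2 h1
        rwa [Nat.sub_sub_self hψ.le] at this
      exact Nat.eq_one_of_dvd_coprimes hcop h3 h2
    obtain ⟨i, hi⟩ := pow_two_of_noWrap (ψ := n - ψ) hk hq hn (by omega) (by omega) hcop' (by
      intro j hj1 hj2
      have h7 := hall j hj1 hj2
      have h8 : (2 * j - 1) * (n - ψ) % n + (2 * j - 1) * ψ % n = n := by
        have h9 : ((2 * j - 1) * (n - ψ) + (2 * j - 1) * ψ) % n = 0 := by
          rw [← mul_add, Nat.sub_add_cancel hψ.le]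
          exact Nat.mul_mod_left _ _
        rw [Nat.add_mod] at h9
        have h10 : (2 * j - 1) * (n - ψ) % n < n := Nat.mod_lt _ (by omega)
        have h11 : (2 * j - 1) * ψ % n < n := Nat.mod_lt _ (by omega)
        have h12 := hno (2 * j - 1) (by omega) (by omega)
        obtain ⟨m, hm⟩ := Nat.dvd_of_mod_eq_zero h9
        have hm1 : m = 1 := by
          rcases m with _ | _ | m
          · omega
          · rfl
          · exfalso
            have : n * (m + 1 + 1) = n * m + n + n := by ring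
            omega
        rw [hm, hm1, mul_one]
      omega)
    exact ⟨i, Or.inr hi⟩

end Pool.Agent.Helper36.Niho
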