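import Pool.Agent.Helper36.Niho.Basic

set_option autoImplicit false
set_option linter.unusedSectionVars false
set_option linter.style.haveILetI false

/-!
# Slopes of a function graph all of whose lines have `0`, `1` or `s` points
-/

namespace Pool.Agent.Helper36.Niho

open Finset Classical Polynomial

variable {F : Type} [Field F] [Fintype F]

/-- the subfield of `q` elements, as a finite set -/
noncomputable def KK (F : Type) [Field F] [Fintype F] (q : ℕ) : Finset F :=
  univ.filter fun x : F => x ^ q = x

lemma mem_KK {q : ℕ} {x : F} : x ∈ KK F q ↔ x ^ q = x := by simp [KK]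

namespace Setup

variable {k q : ℕ} (S : Setup F k q)
include S

lemma card_KK : (KK F q).card = q := S.card_K

lemma prod_KK : ∏ x ∈ KK F q, (X + C x) = (X ^ q + X : F[X]) := by
  have h2 := S.q_ge
  apply eq_of_degree_sub_lt_of_eval_finset_eq (KK F q)
  · rw [S.card_KK]
    have hm1 : (∏ x ∈ KK F q, (X + C x)).Monic :=
      monic_prod_of_monic _ _ (fun x _ => monic_X_add_C x)
    have hm2 : (X ^ q + X : F[X]).Monic := by
      apply monic_X_pow_add
      rw [degree_X]
      exact_mod_cast (by omega : 1 < q)
    have hd1 : (∏ x ∈ KK F q, (X + C x)).natDegree = q := by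
      rw [natDegree_prod_of_monic _ _ (fun x _ => monic_X_add_C x)]
      simp [S.card_KK]
    have hd2 : (X ^ q + X : F[X]).natDegree = q := by
      rw [natDegree_add_eq_left_of_natDegree_lt, natDegree_X_pow]
      rw [natDegree_X_pow, natDegree_X]
      omega
    have hd : (∏ x ∈ KK F q, (X + C x)).degree = (X ^ q + X : F[X]).degree := by
      rw [degree_eq_natDegree hm1.ne_zero, degree_eq_natDegree hm2.ne_zero, hd1, hd2]
    have h3 := degree_sub_lt_left hd hm1.ne_zero (by rw [hm1.leadingCoeff, hm2.leadingCoeff])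
    rw [degree_eq_natDegree hm1.ne_zero, hd1] at h3
    exact h3
  · intro x hx
    rw [eval_prod, eval_add, eval_pow, eval_X, mem_KK.1 hx, S.add_self]
    apply Finset.prod_eq_zero hx
    rw [eval_add, eval_X, eval_C, S.add_self]

variable {ι : Type} {I : Finset ι}

lemma prod_of_bij (hI : I.card = q) {a : ι → F} (ha : ∀ u ∈ I, a u ^ q = a u)
    (hinj : Set.InjOn a I) : ∏ u ∈ I, (X + C (a u)) = (X ^ q + X : F[X]) := by
  have h1 : I.image a = KK F q := by
    apply Finset.eq_of_subset_of_card_le
    · intro x hx
      rw [Finset.mem_image] at hx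
      obtain ⟨u, hu, rfl⟩ := hx
      exact mem_KK.2 (ha u hu)
    · rw [S.card_KK, Finset.card_image_of_injOn hinj, hI]
  rw [← S.prod_KK, ← h1, Finset.prod_image hinj]

lemma image_of_bij (hI : I.card = q) {a : ι → F} (ha : ∀ u ∈ I, a u ^ q = a u)
    (hinj : Set.InjOn a I) : I.image a = KK F q := by
  apply Finset.eq_of_subset_of_card_le
  · intro x hx
    rw [Finset.mem_image] at hx
    obtain ⟨u, hu, rfl⟩ := hx
    exact mem_KK.2 (ha u hu)
  · rw [S.card_KK, Finset.card_image_of_injOn hinj, hI]

/-- the coefficient of `X ^ (q - j)` -/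
lemma esymm_eq (hI : I.card = q) (a : ι → F) {j : ℕ} (hj : j ≤ q) :
    (∏ u ∈ I, (X + C (a u))).coeff (q - j) = ∑ T ∈ I.powersetCard j, ∏ u ∈ T, a u := by
  rw [Finset.prod_X_add_C_coeff I a (by omega), hI]
  congr 2
  omega

lemma esymm_zero (hI : I.card = q) {a : ι → F} (ha : ∀ u ∈ I, a u ^ q = a u)
    (hinj : Set.InjOn a I) {j : ℕ} (hj1 : 1 ≤ j) (hj2 : j + 2 ≤ q) :
    ∑ T ∈ I.powersetCard j, ∏ u ∈ T, a u = 0 := by
  rw [← S.esymm_eq hI a (by omega), S.prod_of_bij hI ha hinj, coeff_add, coeff_X_pow, coeff_X]
  rw [if_neg (by omega), if_neg (by omega), add_zero]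

lemma sum_KK (hq : 4 ≤ q) : ∑ x ∈ KK F q, x = 0 := by
  have h1 := S.esymm_zero (I := KK F q) S.card_KK (a := id) (fun u hu => mem_KK.1 hu)
    (Set.injOn_id _) (j := 1) le_rfl (by omega)
  rw [Finset.powersetCard_one, Finset.sum_map] at h1
  simpa using h1

/-- the elementary symmetric polynomials along a pencil of directions vanish -/
lemma pencil_zero (hI : I.card = q) {t f : ι → F} (ht : ∀ u ∈ I, t u ^ q = t u)
    (htinj : Set.InjOn t I) {E : Finset F} (hE : ∀ y ∈ E, y ^ q = y)
    (hf : ∀ u ∈ I, f u ^ q = f u)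
    (hEinj : ∀ y ∈ E, Set.InjOn (fun u => f u + y * t u) I)
    {j : ℕ} (hj1 : 1 ≤ j) (hj2 : j + 2 ≤ q) (hj3 : j ≤ E.card) (y : F) :
    ∑ T ∈ I.powersetCard j, ∏ u ∈ T, (f u + y * t u) = 0 := by
  let P : F[X] := ∑ T ∈ I.powersetCard j, ∏ u ∈ T, (C (f u) + C (t u) * X)
  have heval : ∀ y, P.eval y = ∑ T ∈ I.powersetCard j, ∏ u ∈ T, (f u + y * t u) := by
    intro y
    simp only [P, eval_finsetSum, eval_prod, eval_add, eval_mul, eval_C, eval_X]
    simp_rw [mul_comm y]
  have hlin : ∀ u, (C (f u) + C (t u) * X : F[X]).natDegree ≤ 1 := by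
    intro u
    rw [add_comm]
    exact natDegree_linear_le
  have hdeg : P.natDegree ≤ j := by
    apply natDegree_sum_le_of_forall_le
    intro T hT
    rw [Finset.mem_powersetCard] at hT
    refine (natDegree_prod_le _ _).trans ?_
    calc ∑ u ∈ T, (C (f u) + C (t u) * X : F[X]).natDegree ≤ ∑ _u ∈ T, 1 :=
          Finset.sum_le_sum (fun u _ => hlin u)
      _ = j := by rw [Finset.sum_const, smul_eq_mul, mul_one, hT.2]
  have hcoeff : P.coeff j = 0 := by
    rw [← S.esymm_zero hI ht htinj hj1 hj2]
    simp only [P, finsetSum_coeff]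
    apply Finset.sum_congr rfl
    intro T hT
    rw [Finset.mem_powersetCard] at hT
    have h1 := coeff_prod_of_natDegree_le T (fun u => (C (f u) + C (t u) * X : F[X])) 1
      (fun u _ => hlin u)
    rw [mul_one, hT.2] at h1
    rw [h1]
    apply Finset.prod_congr rfl
    intro u _
    simp
  have hlt : P.natDegree < E.card := by
    rcases Nat.lt_or_ge P.natDegree j with h | h
    · omega
    · have h1 : P.natDegree = j := by omega
      have h2 : P = 0 := by
        by_contra hne
        have : P.leadingCoeff = 0 := by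
          unfold leadingCoeff
          rw [h1, hcoeff]
        exact hne (leadingCoeff_eq_zero.1 this)
      rw [h2, natDegree_zero]
      omega
  have hP : P = 0 := by
    apply eq_zero_of_natDegree_lt_card_of_eval_eq_zero' P E _ hlt
    intro y hy
    rw [heval]
    apply S.esymm_zero hI _ (hEinj y hy) hj1 hj2
    intro u hu
    rw [S.conj_add, mul_pow, hf u hu, ht u hu, hE y hy]
  rw [← heval, hP, eval_zero]

/-- a polynomial with all roots in the subfield and a gap is additive up to constants
or has no simple root -/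
lemma no_simple (hI : I.card = q) (hq4 : 4 ≤ q) {a : ι → F} (ha : ∀ u ∈ I, a u ^ q = a u)
    (hgap : ∀ j, 1 ≤ j → 2 * j + 2 ≤ q → ∑ T ∈ I.powersetCard j, ∏ u ∈ T, a u = 0)
    (hni : ¬ Set.InjOn a I) {u : ι} (hu : u ∈ I) :
    ∃ v ∈ I, v ≠ u ∧ a v = a u := by
  set R : F[X] := ∏ u ∈ I, (X + C (a u)) with hR
  have hqe : q % 2 = 0 := Nat.even_iff.1 S.q_even
  set h : F[X] := R - (X ^ q + X) with hh
  have hRmonic : R.Monic := monic_prod_of_monic _ _ (fun x _ => monic_X_add_C _)
  have hRdeg : R.natDegree = q := by
    rw [hR, natDegree_prod_of_monic _ _ (fun x _ => monic_X_add_C _)]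
    simp [hI]
  have hRq : R.coeff q = 1 := by
    rw [← hRdeg]
    exact hRmonic
  -- degree of h
  have hhdeg : h.natDegree ≤ q / 2 := by
    rw [natDegree_le_iff_coeff_eq_zero]
    intro d hd
    rw [hh, coeff_sub, coeff_add, coeff_X_pow, coeff_X]
    rw [if_neg (show ¬ 1 = d by omega)]
    rcases lt_trichotomy d q with h1 | h1 | h1
    · rw [if_neg (by omega)]
      have h2 := S.esymm_eq hI a (j := q - d) (by omega)
      rw [hgap (q - d) (by omega) (by omega)] at h2
      have h3 : q - (q - d) = d := by omega
      rw [h3] at h2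
      rw [hR, h2]
      ring
    · rw [if_pos h1, h1, hRq]
      ring
    · rw [if_neg (by omega), coeff_eq_zero_of_natDegree_lt (by omega)]
      ring
  -- derivative
  have hder : derivative R = 1 + derivative h := by
    have : R = h + (X ^ q + X) := by rw [hh]; ring
    rw [this, derivative_add, derivative_add, derivative_X_pow, derivative_X]
    have h2 : ((q : ℕ) : F) = 0 := by
      have := S.char
      rw [CharP.cast_eq_zero_iff F 2]
      omega
    rw [h2]
    simp
    ring
  have hderdeg : (derivative R).natDegree ≤ q / 2 - 1 := by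
    rw [hder]
    refine (natDegree_add_le _ _).trans ?_
    rw [natDegree_one]
    have := natDegree_derivative_le h
    simp only [zero_le, sup_of_le_right]
    omega
  -- the divisibility
  set A := I.image a with hA
  have hRprod : R = ∏ c ∈ A, (X + C c) ^ (I.filter fun u => a u = c).card := by
    rw [hR, hA]
    exact Finset.prod_comp (fun c => (X + C c : F[X])) a
  have hμ : ∀ c ∈ A, 1 ≤ (I.filter fun u => a u = c).card := by
    intro c hc
    rw [hA, Finset.mem_image] at hc
    obtain ⟨u, hu, hc⟩ := hc
    exact Finset.card_pos.2 ⟨u, by simp [hu, hc]⟩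
  have hcop : ∀ c ∈ A, ∀ c' ∈ A, c ≠ c' → IsCoprime (X + C c : F[X]) (X + C c') := by
    intro c _ c' _ hne
    have h1 := pairwise_coprime_X_sub_C (K := F) (s := fun x : F => -x) neg_injective hne
    simpa using h1
  have hdvd1 : ∏ c ∈ A, (X + C c) ∣ h := by
    apply Finset.prod_dvd_of_coprime
    · intro c hc c' hc' hne
      exact hcop c hc c' hc' hne
    · intro c hc
      have hcK : c ^ q = c := by
        rw [hA, Finset.mem_image] at hc
        obtain ⟨u, hu, rfl⟩ := hc
        exact ha u hu
      have h1 : (X + C c : F[X]) = X - C (-c) := by simp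
      rw [h1, dvd_iff_isRoot, S.neg_eq]
      rw [IsRoot, hh, eval_sub, eval_add, eval_pow, eval_X, hcK, S.add_self, sub_zero, hR,
        eval_prod]
      rw [hA, Finset.mem_image] at hc
      obtain ⟨u, hu, hc⟩ := hc
      apply Finset.prod_eq_zero hu
      rw [eval_add, eval_X, eval_C, hc, S.add_self]
  have hdvd2 : ∏ c ∈ A, (X + C c) ^ ((I.filter fun u => a u = c).card - 1) ∣ derivative R := by
    apply Finset.prod_dvd_of_coprime
    · intro c hc c' hc' hne
      exact (hcop c hc c' hc' hne).pow
    · intro c hc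
      apply pow_sub_one_dvd_derivative_of_pow_dvd
      rw [hRprod]
      exact Finset.dvd_prod_of_mem (fun c => (X + C c : F[X]) ^ (I.filter fun u => a u = c).card) hc
  have hdvd : R ∣ h * derivative R := by
    have h1 : R = (∏ c ∈ A, (X + C c)) *
        ∏ c ∈ A, (X + C c) ^ ((I.filter fun u => a u = c).card - 1) := by
      rw [← Finset.prod_mul_distrib, hRprod]
      apply Finset.prod_congr rfl
      intro c hc
      rw [← pow_succ']
      congr 1
      have := hμ c hc
      omega
    rw [h1] at hdvd2 ⊢
    exact mul_dvd_mul hdvd1 hdvd2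
  have hprod0 : h * derivative R = 0 := by
    by_contra hne
    have h1 := natDegree_le_of_dvd hdvd hne
    have h2 := natDegree_mul_le (p := h) (q := derivative R)
    omega
  have hRd0 : derivative R = 0 := by
    rcases mul_eq_zero.1 hprod0 with h0 | h0
    · exfalso
      apply hni
      -- R = X^q + X is squarefree
      have h1 : R = X ^ q + X := by
        rw [← sub_eq_zero, ← hh]; exact h0
      have hder1 : derivative R = 1 := by
        rw [hder, h0, derivative_zero, add_zero]
      intro x hx y hy hxy
      by_contra hne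
      have h2 : (X + C (a x)) ^ 2 ∣ R := by
        have h3 : ({x, y} : Finset ι) ⊆ I := by
          intro z hz
          simp only [Finset.mem_insert, Finset.mem_singleton] at hz
          rcases hz with rfl | rfl
          · exact hx
          · exact hy
        have h4 := Finset.prod_dvd_prod_of_subset _ _ (fun u => (X + C (a u) : F[X])) h3
        rw [Finset.prod_pair hne, ← hxy, ← sq] at h4
        exact h4
      have h5 := pow_sub_one_dvd_derivative_of_pow_dvd h2
      rw [hder1] at h5
      norm_num at h5
      have h6 := isUnit_of_dvd_one h5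
      have h7 := natDegree_eq_zero_of_isUnit h6
      rw [natDegree_X_add_C] at h7
      omega
    · exact h0
  by_contra hcon
  push Not at hcon
  -- u gives a simple root
  have h1 : R = (X + C (a u)) * ∏ v ∈ I.erase u, (X + C (a v)) := by
    rw [hR, Finset.mul_prod_erase I (fun v => (X + C (a v) : F[X])) hu]
  have h2 : (derivative R).eval (a u) = ∏ v ∈ I.erase u, (a u + a v) := by
    rw [h1, derivative_mul, derivative_add, derivative_X, derivative_C, add_zero, one_mul,
      eval_add, eval_mul, eval_add, eval_X, eval_C, S.add_self, zero_mul, add_zero, eval_prod]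
    apply Finset.prod_congr rfl
    intro v _
    rw [eval_add, eval_X, eval_C]
  rw [hRd0, eval_zero] at h2
  have h3 := Finset.prod_eq_zero_iff.1 h2.symm
  obtain ⟨v, hv, hv0⟩ := h3
  rw [Finset.mem_erase] at hv
  exact hcon v hv.2 hv.1 (S.eq_of_add_eq_zero hv0).symm

end Setup

end Pool.Agent.Helper36.Niho
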