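import Pool.Agent.Helper36.Niho.Redei
import Pool.Agent.Helper36.Niho.Count

set_option autoImplicit false
set_option linter.unusedSectionVars false
set_option linter.style.haveILetI false

/-!
# Niho's reduction
-/

namespace Pool.Agent.Helper36.Niho

open Finset Classical Polynomial

variable {F : Type} [Field F] [Fintype F]

/-- absolute trace of the big field -/
noncomputable def TF (k : ℕ) (z : F) : F := ∑ i ∈ Finset.range (2 * k), z ^ 2 ^ i

/-- absolute trace of the subfield -/
noncomputable def TK (k : ℕ) (z : F) : F := ∑ i ∈ Finset.range k, z ^ 2 ^ i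

/-- the sign attached to a trace value -/
noncomputable def sg (z : F) : ℤ := if z = 0 then 1 else -1

lemma TF_zero (k : ℕ) : TF k (0 : F) = 0 := by
  unfold TF
  apply Finset.sum_eq_zero
  intro i _
  exact zero_pow (by positivity)

lemma TK_zero (k : ℕ) : TK k (0 : F) = 0 := by
  unfold TK
  apply Finset.sum_eq_zero
  intro i _
  exact zero_pow (by positivity)

lemma sg_zero : sg (0 : F) = 1 := by
  unfold sg
  exact if_pos rfl

namespace Setup

variable {k q : ℕ} (S : Setup F k q)
include S

lemma add_pow_two (x y : F) (i : ℕ) : (x + y) ^ 2 ^ i = x ^ 2 ^ i + y ^ 2 ^ i := by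
  have := S.char
  exact add_pow_char_pow x y 2 i

lemma TK_add (x y : F) : TK k (x + y) = TK k x + TK k y := by
  unfold TK
  rw [← Finset.sum_add_distrib]
  apply Finset.sum_congr rfl
  intro i _
  exact S.add_pow_two x y i

lemma TF_mul {y : F} (hy : y ^ q = y) (z : F) : TF k (y * z) = TK k (y * tr q z) := by
  unfold TF TK
  rw [two_mul, Finset.sum_range_add, ← Finset.sum_add_distrib]
  apply Finset.sum_congr rfl
  intro i _
  rw [pow_add, pow_mul, ← S.hq, mul_pow y z q, hy, ← S.add_pow_two]
  unfold tr
  rw [mul_add]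

lemma TK_sq {z : F} (hz : z ^ q = z) : TK k z ^ 2 = TK k z := by
  have h1 : TK k z ^ 2 = ∑ i ∈ Finset.range k, z ^ 2 ^ (i + 1) := by
    unfold TK
    have := S.char
    rw [sum_pow_char 2]
    apply Finset.sum_congr rfl
    intro i _
    rw [← pow_mul, pow_succ]
  have h2 : ∑ i ∈ Finset.range k, z ^ 2 ^ (i + 1) + z ^ 2 ^ 0 = TK k z + z ^ 2 ^ k := by
    rw [← Finset.sum_range_succ' (fun i => z ^ 2 ^ i) k, Finset.sum_range_succ]
    rfl
  rw [← S.hq, hz, pow_zero, pow_one] at h2
  rw [h1]
  exact add_right_cancel h2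

lemma exists_TK : ∃ z : F, z ^ q = z ∧ TK k z = 1 := by
  by_contra hcon
  push Not at hcon
  have h0 : ∀ z ∈ KK F q, TK k z = 0 := by
    intro z hz
    rw [mem_KK] at hz
    have h1 := S.TK_sq hz
    have h2 : TK k z * (TK k z - 1) = 0 := by linear_combination h1
    rcases mul_eq_zero.1 h2 with h3 | h3
    · exact h3
    · exact absurd (sub_eq_zero.1 h3) (hcon z hz)
  obtain ⟨k', hk'⟩ : ∃ k', k = k' + 1 := ⟨k - 1, by have := S.hk; omega⟩
  let p : F[X] := ∑ i ∈ Finset.range k, X ^ 2 ^ i
  have hp : p = 0 := by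
    apply eq_zero_of_natDegree_lt_card_of_eval_eq_zero' p (KK F q)
    · intro z hz
      simp only [p, eval_finsetSum, eval_pow, eval_X]
      exact h0 z hz
    · rw [S.card_KK]
      have h1 : p.natDegree ≤ 2 ^ k' := by
        apply natDegree_sum_le_of_forall_le
        intro i hi
        rw [Finset.mem_range] at hi
        rw [natDegree_X_pow]
        exact Nat.pow_le_pow_right (by norm_num) (by omega)
      have h2 : 2 ^ k' < q := by
        rw [S.hq, hk']
        exact Nat.pow_lt_pow_right (by norm_num) (by omega)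
      omega
  have h3 : p.coeff 1 = 1 := by
    simp only [p, finsetSum_coeff, coeff_X_pow]
    rw [Finset.sum_eq_single 0]
    · simp
    · intro i _ hi
      rw [if_neg]
      intro h
      have : 2 ^ i = 2 ^ 0 := by rw [← h, pow_zero]
      exact hi (Nat.pow_right_injective (le_refl 2) this)
    · intro h
      exact absurd (Finset.mem_range.2 (by omega)) h
  rw [hp, coeff_zero] at h3
  exact zero_ne_one h3

lemma sum_sg {b : F} (hb : b ^ q = b) (hb0 : b ≠ 0) :
    ∑ y ∈ KK F q, sg (TK k (y * b)) = 0 := by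
  obtain ⟨z0, hz0, hz1⟩ := S.exists_TK (F := F)
  set y0 := z0 / b with hy0
  have hy0K : y0 ^ q = y0 := by rw [hy0, div_pow, hz0, hb]
  have hy0b : y0 * b = z0 := by rw [hy0]; field_simp
  have h1 : ∑ y ∈ KK F q, sg (TK k (y * b)) = ∑ y ∈ KK F q, - sg (TK k (y * b)) := by
    refine Finset.sum_bij' (fun y _ => y + y0) (fun y _ => y + y0) ?_ ?_ ?_ ?_ ?_
    · intro y hy
      rw [mem_KK] at hy ⊢
      rw [S.conj_add, hy, hy0K]
    · intro y hy
      rw [mem_KK] at hy ⊢
      rw [S.conj_add, hy, hy0K]
    · intro y _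
      rw [add_assoc, S.add_self, add_zero]
    · intro y _
      rw [add_assoc, S.add_self, add_zero]
    · intro y hy
      rw [mem_KK] at hy
      rw [add_mul, S.TK_add, hy0b, hz1]
      have h2 := S.TK_sq (z := y * b) (by rw [mul_pow, hy, hb])
      have h3 : TK k (y * b) * (TK k (y * b) - 1) = 0 := by linear_combination h2
      rcases mul_eq_zero.1 h3 with h4 | h4
      · rw [h4]
        simp [sg]
      · rw [sub_eq_zero.1 h4, S.add_self]
        simp [sg]
  rw [Finset.sum_neg_distrib] at h1
  omega

/-- **Niho's theorem**: the exponential sum in terms of the number of solutions. -/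
theorem niho (s : ℕ) (a : F) :
    ∑ x : F, sg (TF k (a * x + x ^ (s * (q - 1) + 1))) =
      q * ((NN q (s * (q - 1) + 1) a : ℤ) - 1) := by
  have hq2 := S.q_ge
  set d := s * (q - 1) + 1 with hd
  set g : F → ℤ := fun x => sg (TF k (a * x + x ^ d)) with hg
  have hg0 : g 0 = 1 := by
    simp only [hg, hd]
    rw [mul_zero, zero_pow (by omega), add_zero, TF_zero, sg_zero]
  have hyd : ∀ y : F, y ^ q = y → y ^ d = y := by
    intro y hy
    by_cases h0 : y = 0
    · rw [h0, hd, zero_pow (by omega)]
    · have h1 : y ^ (q - 1) = 1 := by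
        have h2 : y ^ (q - 1) * y = y := by
          rw [← pow_succ]
          have : q - 1 + 1 = q := by omega
          rw [this, hy]
        have h3 : (y ^ (q - 1) - 1) * y = 0 := by linear_combination h2
        rcases mul_eq_zero.1 h3 with h4 | h4
        · exact sub_eq_zero.1 h4
        · exact absurd h4 h0
      rw [hd, pow_succ, mul_comm s, pow_mul, h1, one_pow, one_mul]
  have hgy : ∀ (y : F) (w : UG F q), y ^ q = y →
      g (y * c w) = sg (TK k (y * tr q (a * c w + c w ^ d))) := by
    intro y w hy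
    simp only [hg]
    rw [← S.TF_mul hy, mul_pow, hyd y hy]
    congr 2
    ring
  have h1 : ∑ x ∈ (univ : Finset F).erase 0, g x =
      ∑ w : UG F q, ∑ y ∈ (KK F q).erase 0, g (y * c w) := by
    rw [← Finset.sum_product' (s := (univ : Finset (UG F q))) (t := (KK F q).erase 0)
      (f := fun w y => g (y * c w))]
    symm
    apply Finset.sum_bij (fun p _ => p.2 * c p.1)
    · rintro ⟨w, y⟩ hp
      rw [Finset.mem_product, Finset.mem_erase] at hp
      rw [Finset.mem_erase]
      exact ⟨mul_ne_zero hp.2.1 (c_ne w), Finset.mem_univ _⟩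
    · rintro ⟨w, y⟩ hp ⟨w', y'⟩ hp' heq
      rw [Finset.mem_product, Finset.mem_erase, mem_KK] at hp hp'
      simp only at heq hp hp'
      have h2 : c (w' * w⁻¹) = y / y' := by
        rw [c_mul, c_inv]
        have := c_ne w
        have := hp'.2.1
        field_simp
        rw [mul_comm, ← heq, mul_comm]
      have h3 : w' * w⁻¹ = 1 := by
        rw [← S.tr_c_eq_zero, h2, S.tr_eq_zero, div_pow, hp.2.2, hp'.2.2]
      have h4 : w' = w := by
        rw [mul_inv_eq_one] at h3
        exact h3
      rw [h4] at heq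
      have h5 := mul_right_cancel₀ (c_ne w) heq
      rw [h4, h5]
    · intro x hx
      rw [Finset.mem_erase] at hx
      obtain ⟨w0, hw0⟩ := Finset.card_eq_one.1 (S.card_tr_mul_c hx.1)
      have h2 : tr q (x * c w0) = 0 := by
        have : w0 ∈ (univ.filter fun w : UG F q => tr q (x * c w) = 0) := by
          rw [hw0]; exact Finset.mem_singleton_self _
        rw [Finset.mem_filter] at this
        exact this.2
      refine ⟨(w0⁻¹, x * c w0), ?_, ?_⟩
      · rw [Finset.mem_product, Finset.mem_erase, mem_KK]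
        exact ⟨Finset.mem_univ _, mul_ne_zero hx.1 (c_ne w0), S.tr_eq_zero.1 h2⟩
      · simp only [c_inv]
        have := c_ne w0
        field_simp
    · rintro ⟨w, y⟩ _
      rfl
  have h2 : ∀ w : UG F q, ∑ y ∈ (KK F q).erase 0, g (y * c w) =
      (if w ∈ Pl q d a 1 then (q : ℤ) else 0) - 1 := by
    intro w
    have h0K : (0 : F) ∈ KK F q := by rw [mem_KK, zero_pow S.q_pos.ne']
    have h3 := Finset.add_sum_erase (KK F q) (fun y => g (y * c w)) h0K
    simp only [zero_mul] at h3
    rw [hg0] at h3
    have h4 : ∑ y ∈ KK F q, g (y * c w) = if w ∈ Pl q d a 1 then (q : ℤ) else 0 := by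
      rw [Finset.sum_congr rfl (fun y hy => hgy y w (mem_KK.1 hy))]
      split_ifs with h
      · rw [mem_Pl, one_mul] at h
        rw [h]
        have h5 : ∀ y ∈ KK F q, sg (TK k (y * (0 : F))) = 1 := by
          intro y _
          rw [mul_zero, TK_zero, sg_zero]
        rw [Finset.sum_congr rfl h5, Finset.sum_const, S.card_KK, nsmul_eq_mul, mul_one]
      · rw [mem_Pl, one_mul] at h
        exact S.sum_sg (S.tr_mem _) h
    linarith
  have h3 := Finset.add_sum_erase (univ : Finset F) g (Finset.mem_univ 0)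
  rw [← h3, hg0, h1, Finset.sum_congr rfl (fun w _ => h2 w), Finset.sum_sub_distrib,
    ← Finset.sum_filter, Finset.sum_const, Finset.sum_const, Finset.card_univ, S.card_UG',
    nsmul_eq_mul, nsmul_eq_mul]
  have h4 : (univ.filter fun w => w ∈ Pl q d a 1) = Pl q d a 1 := by
    ext w; simp
  rw [h4]
  unfold NN
  push_cast
  ring

end Setup

end Pool.Agent.Helper36.Niho
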