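import Pool.Agent.Helper36.Niho.OnU

set_option autoImplicit false
set_option linter.unusedSectionVars false
set_option linter.style.haveILetI false

/-!
# The rotation identity
-/

namespace Pool.Agent.Helper36.Niho

open Finset Classical

variable {F : Type} [Field F] [Fintype F]

/-- `x` is on the line through the points of `v` and `w`. -/
def OnLine (q e : ℕ) (v w x : UG F q) : Prop :=
  ∃ α β : F, α ^ q = α ∧ β ^ q = β ∧ c x = α * c v + β * c w ∧
    c x ^ e = α * c v ^ e + β * c w ^ e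

/-- The points on the line through `v` and `w`. -/
noncomputable def Ln (q e : ℕ) (v w : UG F q) : Finset (UG F q) :=
  univ.filter fun x => OnLine q e v w x

lemma mem_Ln {q e : ℕ} {v w x : UG F q} : x ∈ Ln q e v w ↔ OnLine q e v w x := by
  simp [Ln]

namespace Setup

variable {k q : ℕ} (S : Setup F k q)
include S

lemma pow_ne {v w : UG F q} {e : ℕ} (he : Nat.Coprime (q + 1) e) (h : v ≠ w) : v ^ e ≠ w ^ e :=
  fun h' => h (S.pow_inj he h')

lemma conj_ne {z : UG F q} (hz : z ≠ 1) : (c z) ^ q ≠ c z := by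
  rw [Ne, ← S.tr_eq_zero, S.tr_c_eq_zero]
  exact hz

lemma decomp {z : UG F q} (hz : z ≠ 1) (x : F) :
    ∃ α β : F, α ^ q = α ∧ β ^ q = β ∧ x = α + β * c z := by
  have hne : tr q (c z) ≠ 0 := fun h => hz (S.tr_c_eq_zero.1 h)
  have hβ : (tr q x / tr q (c z)) ^ q = tr q x / tr q (c z) := by
    rw [div_pow, S.tr_mem, S.tr_mem]
  refine ⟨x + tr q x / tr q (c z) * c z, tr q x / tr q (c z), ?_, hβ, ?_⟩
  · rw [← S.tr_eq_zero, S.tr_add, S.tr_mul hβ]
    field_simp
    rw [S.add_self, mul_zero]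
  · rw [add_assoc, S.add_self, add_zero]

lemma decomp_unique {z : UG F q} (hz : z ≠ 1) {α β α' β' : F} (h1 : α ^ q = α) (h2 : β ^ q = β)
    (h3 : α' ^ q = α') (h4 : β' ^ q = β') (h : α + β * c z = α' + β' * c z) :
    α = α' ∧ β = β' := by
  have h5 : (β + β') * c z = α + α' := by
    linear_combination h + (β' * c z - α) * S.two_eq
  have h6 : β = β' := by
    by_contra hne
    have h7 : β + β' ≠ 0 := fun h0 => hne (S.eq_of_add_eq_zero h0)
    have h8 : c z = (α + α') / (β + β') := by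
      field_simp
      linear_combination h5
    apply S.conj_ne hz
    rw [h8, div_pow, S.conj_add, S.conj_add, h1, h2, h3, h4]
  refine ⟨?_, h6⟩
  rw [h6] at h
  exact add_right_cancel h

lemma card_shift (s : Finset (UG F q)) (w : UG F q) :
    (univ.filter fun x : UG F q => x * w ∈ s).card = s.card := by
  apply Finset.card_bij' (fun x _ => x * w) (fun x _ => x * w⁻¹)
  · intro x hx
    simpa using hx
  · intro x hx
    simpa using hx
  · intro x _
    simp
  · intro x _
    simp

lemma rot_key {e : ℕ} (he : Nat.Coprime (q + 1) e) {z : UG F q} (hz : z ≠ 1) (x : UG F q) :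
    (univ.filter fun w : UG F q => x * w ∈ Pl q e (apt e w (z * w)) 1).card =
      if x ∈ Ln q e 1 z then q + 1 else 1 := by
  obtain ⟨α, β, hα, hβ, hx⟩ := S.decomp hz (c x)
  set κ := c x ^ e + α + β * c z ^ e with hκ
  have h1 : x ∈ Ln q e 1 z ↔ κ = 0 := by
    rw [mem_Ln]
    constructor
    · rintro ⟨α', β', hα', hβ', hx', hxe⟩
      simp only [c_one, mul_one, one_pow] at hx' hxe
      rw [hx] at hx'
      obtain ⟨h2, h3⟩ := S.decomp_unique hz hα hβ hα' hβ' hx'
      rw [hκ, h2, h3, hxe, add_assoc]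
      exact S.add_self _
    · intro h0
      refine ⟨α, β, hα, hβ, ?_, ?_⟩
      · simpa using hx
      · simp only [c_one, one_pow, mul_one]
        rw [hκ, add_assoc] at h0
        exact S.eq_of_add_eq_zero h0
  have h2 : ∀ w : UG F q, x * w ∈ Pl q e (apt e w (z * w)) 1 ↔ tr q (κ * c w ^ e) = 0 := by
    intro w
    have hne : w ≠ z * w := by
      intro h
      apply hz
      have : 1 * w = z * w := by rw [one_mul]; exact h
      exact (mul_right_cancel this).symm
    have hl := S.apt_left (e := e) hne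
    have hr := S.apt_right (e := e) hne
    rw [S.mem_Pl_one] at hl hr ⊢
    have h3 : apt e w (z * w) * c (x * w) =
        α * (apt e w (z * w) * c w) + β * (apt e w (z * w) * c (z * w)) := by
      rw [c_mul, c_mul, hx]; ring
    rw [h3, S.tr_add, S.tr_mul hα, S.tr_mul hβ, hl, hr, ← S.tr_mul hα, ← S.tr_mul hβ, ← S.tr_add,
      ← S.tr_add_eq]
    have h4 : α * c w ^ e + β * c (z * w) ^ e + c (x * w) ^ e = κ * c w ^ e := by
      rw [c_mul, c_mul, mul_pow, mul_pow, hκ]; ring
    rw [h4]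
  split_ifs with hm
  · rw [h1] at hm
    rw [← S.card_UG', ← Finset.card_univ]
    congr 1
    ext w
    simp only [Finset.mem_filter, Finset.mem_univ, true_and, iff_true]
    rw [h2, hm, zero_mul]
    unfold tr
    rw [zero_pow S.q_pos.ne', add_zero]
  · rw [h1] at hm
    rw [← S.card_tr_mul_pow he hm]
    congr 1
    ext w
    simp only [Finset.mem_filter, Finset.mem_univ, true_and]
    exact h2 w

/-- The rotation identity. -/
lemma rot {e : ℕ} (he : Nat.Coprime (q + 1) e) {z : UG F q} (hz : z ≠ 1) :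
    ∑ w : UG F q, NN q e (apt e w (z * w)) = q * (Ln q e 1 z).card + (q + 1) := by
  have h1 : ∀ w : UG F q, NN q e (apt e w (z * w)) =
      ∑ x : UG F q, if x * w ∈ Pl q e (apt e w (z * w)) 1 then 1 else 0 := by
    intro w
    rw [Finset.sum_boole, Nat.cast_id, S.card_shift]
    rfl
  simp_rw [h1]
  rw [Finset.sum_comm]
  have h2 : ∀ x : UG F q, (∑ w : UG F q, if x * w ∈ Pl q e (apt e w (z * w)) 1 then 1 else 0) =
      (if x ∈ Ln q e 1 z then q else 0) + 1 := by
    intro x
    rw [Finset.sum_boole, Nat.cast_id, S.rot_key he hz]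
    split_ifs <;> ring
  simp_rw [h2]
  rw [Finset.sum_add_distrib, Finset.sum_const, Finset.card_univ, S.card_UG', ← Finset.sum_filter,
    Finset.sum_const, smul_eq_mul, smul_eq_mul, mul_one]
  have h3 : (univ.filter fun x => x ∈ Ln q e 1 z) = Ln q e 1 z := by
    ext x; simp
  rw [h3]
  ring

lemma one_mem_Ln (e : ℕ) (z : UG F q) : (1 : UG F q) ∈ Ln q e 1 z := by
  rw [mem_Ln]
  exact ⟨1, 0, one_pow q, zero_pow S.q_pos.ne', by simp, by simp⟩

lemma left_mem_Ln (e : ℕ) (v w : UG F q) : v ∈ Ln q e v w := by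
  rw [mem_Ln]
  exact ⟨1, 0, one_pow q, zero_pow S.q_pos.ne', by simp, by simp⟩

lemma right_mem_Ln (e : ℕ) (v w : UG F q) : w ∈ Ln q e v w := by
  rw [mem_Ln]
  exact ⟨0, 1, zero_pow S.q_pos.ne', one_pow q, by simp, by simp⟩

/-- rotating a line -/
lemma card_Ln_rot (e : ℕ) (z w : UG F q) : (Ln q e w (z * w)).card = (Ln q e 1 z).card := by
  apply Finset.card_bij' (fun x _ => x * w⁻¹) (fun x _ => x * w)
  · intro x hx
    rw [mem_Ln] at hx ⊢
    obtain ⟨α, β, hα, hβ, h1, h2⟩ := hx
    have hcw := c_ne w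
    refine ⟨α, β, hα, hβ, ?_, ?_⟩
    · rw [c_mul, c_inv, h1, c_mul, c_one]
      field_simp
    · rw [c_mul, c_inv, mul_pow, h2, c_mul, c_one, inv_pow, mul_pow]
      field_simp
      ring
  · intro x hx
    rw [mem_Ln] at hx ⊢
    obtain ⟨α, β, hα, hβ, h1, h2⟩ := hx
    refine ⟨α, β, hα, hβ, ?_, ?_⟩
    · rw [c_mul, h1, c_mul, c_one]; ring
    · rw [c_mul, mul_pow, h2, c_mul, c_one]; ring
  · intro x _
    simp
  · intro x _
    simp

lemma card_Ln (e : ℕ) (v w : UG F q) : (Ln q e v w).card = (Ln q e 1 (w * v⁻¹)).card := by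
  rw [← S.card_Ln_rot e (w * v⁻¹) v]
  simp

/-- a plane containing two points of a line contains the line -/
lemma line_sub_plane {e : ℕ} {a : F} {v w : UG F q} (hv : v ∈ Pl q e a 1) (hw : w ∈ Pl q e a 1) :
    Ln q e v w ⊆ Pl q e a 1 := by
  intro x hx
  rw [mem_Ln] at hx
  obtain ⟨α, β, hα, hβ, h1, h2⟩ := hx
  rw [S.mem_Pl_one] at hv hw ⊢
  rw [h2, h1]
  have h3 : a * (α * c v + β * c w) = α * (a * c v) + β * (a * c w) := by ring
  rw [h3, S.tr_add, S.tr_add, S.tr_mul hα, S.tr_mul hβ, S.tr_mul hα, S.tr_mul hβ, hv, hw]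

lemma K_cap_U {α : F} (hα : α ^ q = α) {u : UG F q} (h : α = c u) : α = 1 := by
  rw [h] at hα ⊢
  rw [c_eq_one]
  by_contra hne
  exact S.conj_ne hne hα

/-- exchange property -/
lemma line_exchange {e : ℕ} {v w x : UG F q} (hx : OnLine q e v w x) (hne : x ≠ v) :
    OnLine q e v x w := by
  obtain ⟨α, β, hα, hβ, h1, h2⟩ := hx
  have hβ0 : β ≠ 0 := by
    rintro rfl
    rw [zero_mul, add_zero] at h1
    have h3 : α = c (x * v⁻¹) := by
      rw [c_mul, c_inv, h1]
      have := c_ne v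
      field_simp
    have h4 := S.K_cap_U hα h3
    rw [h4, one_mul] at h1
    exact hne (c_inj h1)
  refine ⟨α / β, 1 / β, ?_, ?_, ?_, ?_⟩
  · rw [div_pow, hα, hβ]
  · rw [div_pow, hβ, one_pow]
  · field_simp
    linear_combination h1 - (c x - β * c w) * S.two_eq
  · field_simp
    linear_combination h2 - (c x ^ e - β * c w ^ e) * S.two_eq

end Setup

end Pool.Agent.Helper36.Niho
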