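import Pool.Agent.Helper36.Niho.Graph
import Pool.Agent.Helper36.Niho.Parity

set_option autoImplicit false
set_option linter.unusedSectionVars false
set_option linter.style.haveILetI false

/-!
# The sum of the slopes at a point, and what its constancy means
-/

namespace Pool.Agent.Helper36.Niho

open Finset Classical Polynomial

variable {F : Type} [Field F] [Fintype F]

namespace Setup

variable {k q : ℕ} (S : Setup F k q)
include S

lemma cast_q_add_one : ((q + 1 : ℕ) : F) = 1 := by
  have h2 : ((q : ℕ) : F) = 0 := by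
    have := S.char
    rw [CharP.cast_eq_zero_iff F 2]
    exact S.q_even.two_dvd
  push_cast
  rw [h2, zero_add]

lemma sum_pow (m : ℕ) (h0 : 0 < m) (hm : m ≤ q) : ∑ v : UG F q, c v ^ m = 0 := by
  have hcyc := S.cyc
  obtain ⟨g, hg⟩ := IsCyclic.exists_generator (α := UG F q)
  have h1 : c g ^ m ≠ 1 := by
    intro h
    have h2 : g ^ m = 1 := by
      apply c_inj
      rw [c_pow, h, c_one]
    have h3 := orderOf_dvd_of_pow_eq_one h2
    have h4 : orderOf g = q + 1 := by
      rw [← S.card_UG (F := F)]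
      exact orderOf_eq_card_of_forall_mem_zpowers hg
    rw [h4] at h3
    have := Nat.le_of_dvd h0 h3
    omega
  have h2 : ∑ v : UG F q, c v ^ m = c g ^ m * ∑ v : UG F q, c v ^ m := by
    rw [Finset.mul_sum]
    rw [← Equiv.sum_comp (Equiv.mulLeft g) (fun v => c v ^ m)]
    apply Finset.sum_congr rfl
    intro v _
    simp only [Equiv.coe_mulLeft, c_mul, mul_pow]
  have h3 : (c g ^ m - 1) * ∑ v : UG F q, c v ^ m = 0 := by linear_combination -h2
  rcases mul_eq_zero.1 h3 with h4 | h4
  · exact absurd (sub_eq_zero.1 h4) h1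
  · exact h4

lemma sum_pow_zero : ∑ v : UG F q, c v ^ 0 = 1 := by
  simp only [pow_zero, Finset.sum_const, Finset.card_univ, S.card_UG', nsmul_eq_mul, mul_one]
  exact S.cast_q_add_one

lemma geom_full {w : UG F q} (hw : w ≠ 1) : ∑ i ∈ Finset.range (q + 1), c w ^ i = 0 := by
  have h1 := geom_sum_mul (c w) (q + 1)
  rw [c_pow_card, sub_self] at h1
  rcases mul_eq_zero.1 h1 with h2 | h2
  · exact h2
  · exact absurd (c_eq_one.1 (sub_eq_zero.1 h2)) hw

lemma sum_pairs (x : F) (m : ℕ) :
    ∑ i ∈ Finset.range m, (x ^ (2 * i + 1) + x ^ (2 * i + 2)) =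
      ∑ i ∈ Finset.range (2 * m), x ^ (i + 1) := by
  induction m with
  | zero => simp
  | succ m ih =>
    rw [Finset.sum_range_succ, ih, Nat.mul_succ, Finset.sum_range_succ, Finset.sum_range_succ,
      add_assoc]

/-- the inverse of `1 + w` as a sum of odd powers -/
lemma inv_eq_sum {w : UG F q} (hw : w ≠ 1) :
    (c w + 1)⁻¹ = ∑ i ∈ Finset.range (q / 2), c w ^ (2 * i + 1) := by
  have h1 := S.c_add_one_ne hw
  have hq2 : 2 * (q / 2) = q := Nat.two_mul_div_two_of_even S.q_even
  have h2 : (c w + 1) * ∑ i ∈ Finset.range (q / 2), c w ^ (2 * i + 1) = 1 := by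
    have h3 : (c w + 1) * ∑ i ∈ Finset.range (q / 2), c w ^ (2 * i + 1) =
        ∑ i ∈ Finset.range (q / 2), (c w ^ (2 * i + 1) + c w ^ (2 * i + 2)) := by
      rw [Finset.mul_sum]
      apply Finset.sum_congr rfl
      intro i _
      ring
    rw [h3, S.sum_pairs, hq2]
    have h4 := S.geom_full hw
    rw [Finset.sum_range_succ', pow_zero] at h4
    exact S.eq_of_add_eq_zero h4
  exact inv_eq_of_mul_eq_one_right h2

/-- the basic character-sum identity -/
lemma sum_identity {u : UG F q} (hu : u ≠ 1) {m : ℕ} (hm1 : 1 ≤ m) (hm2 : m ≤ q) :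
    ∑ v ∈ ((univ : Finset (UG F q)).erase 1).erase u,
      (c u ^ m + c v ^ m) * ((c u + 1) * (c v + 1) * (c u + c v)⁻¹) =
    c u ^ (2 * ((m + 1) / 2) - 1) + c u ^ (2 * ((m + 1) / 2)) := by
  let g : UG F q → F := fun v => (c u + 1) * ((c v + 1) *
    ∑ j ∈ Finset.range m, c v ^ j * c u ^ (m - 1 - j))
  have h1 : ∑ v ∈ ((univ : Finset (UG F q)).erase 1).erase u,
      (c u ^ m + c v ^ m) * ((c u + 1) * (c v + 1) * (c u + c v)⁻¹) =
      ∑ v ∈ ((univ : Finset (UG F q)).erase 1).erase u, g v := by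
    apply Finset.sum_congr rfl
    intro v hv
    rw [Finset.mem_erase, Finset.mem_erase] at hv
    have h2 : c u + c v ≠ 0 := S.cadd_ne (Ne.symm hv.1)
    have h3 := geom_sum₂_mul (c v) (c u) m
    rw [S.sub_eq, S.sub_eq] at h3
    have h4 : c u ^ m + c v ^ m = (∑ j ∈ Finset.range m, c v ^ j * c u ^ (m - 1 - j)) *
        (c u + c v) := by
      rw [add_comm (c u) (c v), h3, add_comm]
    rw [h4]
    simp only [g]
    field_simp
  have h2 : ∑ v : UG F q, g v = (c u + 1) * c u ^ (m - 1) := by
    simp only [g]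
    rw [← Finset.mul_sum]
    congr 1
    have h3 : ∀ v : UG F q, (c v + 1) * ∑ j ∈ Finset.range m, c v ^ j * c u ^ (m - 1 - j) =
        ∑ j ∈ Finset.range m, (c v ^ (j + 1) + c v ^ j) * c u ^ (m - 1 - j) := by
      intro v
      rw [Finset.mul_sum]
      apply Finset.sum_congr rfl
      intro j _
      ring
    simp_rw [h3]
    rw [Finset.sum_comm]
    simp_rw [← Finset.sum_mul, Finset.sum_add_distrib]
    obtain ⟨m', rfl⟩ : ∃ m', m = m' + 1 := ⟨m - 1, by omega⟩
    rw [Finset.sum_range_succ']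
    rw [Finset.sum_eq_zero]
    · rw [S.sum_pow_zero, S.sum_pow (0 + 1) (by omega) (by omega)]
      simp
    · intro j hj
      rw [Finset.mem_range] at hj
      rw [S.sum_pow (j + 1 + 1) (by omega) (by omega), S.sum_pow (j + 1) (by omega) (by omega)]
      ring
  have hg1 : g 1 = 0 := by
    simp only [g, c_one]
    rw [S.add_self]; ring
  have hgu : g u = (c u + 1) * ((c u + 1) * (m * c u ^ (m - 1))) := by
    simp only [g]
    congr 2
    rw [Finset.sum_congr rfl (g := fun _ => c u ^ (m - 1)), Finset.sum_const, Finset.card_range,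
      nsmul_eq_mul]
    intro j hj
    rw [Finset.mem_range] at hj
    rw [← pow_add]
    congr 1
    omega
  have h3 : ∑ v ∈ ((univ : Finset (UG F q)).erase 1).erase u, g v =
      (c u + 1) * c u ^ (m - 1) + g u := by
    have e1 := Finset.add_sum_erase (univ : Finset (UG F q)) g (Finset.mem_univ 1)
    have e2 := Finset.add_sum_erase ((univ : Finset (UG F q)).erase 1) g
      (a := u) (Finset.mem_erase.2 ⟨hu, Finset.mem_univ _⟩)
    rw [h2, hg1, zero_add] at e1
    rw [e1] at e2
    linear_combination e2 - g u * S.two_eq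
  rw [h1, h3, hgu]
  obtain ⟨m', rfl⟩ : ∃ m', m = m' + 1 := ⟨m - 1, by omega⟩
  simp only [Nat.add_sub_cancel]
  have hchar := S.char
  rcases Nat.even_or_odd (m' + 1) with h | h
  · have h4 : ((m' + 1 : ℕ) : F) = 0 := by
      rw [CharP.cast_eq_zero_iff F 2]
      exact h.two_dvd
    have h5 : 2 * ((m' + 1 + 1) / 2) = m' + 1 := by
      obtain ⟨r, hr⟩ := h
      omega
    rw [h4, h5]
    simp only [Nat.add_sub_cancel]
    ring
  · have h4 : ((m' + 1 : ℕ) : F) = 1 := by
      obtain ⟨r, hr⟩ := h
      rw [hr]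
      push_cast
      linear_combination r * S.two_eq
    have h5 : 2 * ((m' + 1 + 1) / 2) = m' + 2 := by
      obtain ⟨r, hr⟩ := h
      omega
    rw [h4, h5]
    have h6 : m' + 2 - 1 = m' + 1 := by omega
    rw [h6]
    linear_combination (c u ^ (m' + 1) + c u ^ m') * S.two_eq

/-- the sum of the slopes at `u` -/
lemma slope_sum {θ : ℕ} (hθc : Nat.Coprime (q + 1) θ) (lam : F) {u : UG F q} (hu : u ≠ 1) :
    ∑ v ∈ ((univ : Finset (UG F q)).erase 1).erase u,
      (tt lam (u ^ θ) + tt lam (v ^ θ)) * (tt lam u + tt lam v)⁻¹ =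
    ∑ i ∈ Finset.range (q / 2),
      (c u ^ (2 * ((θ * (2 * i + 1) % (q + 1) + 1) / 2) - 1) +
        c u ^ (2 * ((θ * (2 * i + 1) % (q + 1) + 1) / 2))) := by
  have hne : ∀ w : UG F q, w ≠ 1 → w ^ θ ≠ 1 := by
    intro w hw h
    apply hw
    apply S.pow_inj hθc
    rw [h, one_pow]
  have hq2 : 2 * (q / 2) = q := Nat.two_mul_div_two_of_even S.q_even
  have h1 : ∀ v ∈ ((univ : Finset (UG F q)).erase 1).erase u,
      (tt lam (u ^ θ) + tt lam (v ^ θ)) * (tt lam u + tt lam v)⁻¹ =
      ∑ i ∈ Finset.range (q / 2), (c u ^ (θ * (2 * i + 1) % (q + 1)) +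
        c v ^ (θ * (2 * i + 1) % (q + 1))) * ((c u + 1) * (c v + 1) * (c u + c v)⁻¹) := by
    intro v hv
    rw [Finset.mem_erase, Finset.mem_erase] at hv
    have hx := S.c_add_one_ne hu
    have hy := S.c_add_one_ne hv.2.1
    have h2 : c u + c v ≠ 0 := S.cadd_ne (Ne.symm hv.1)
    have h3 : (tt lam u + tt lam v)⁻¹ = (c u + 1) * (c v + 1) * (c u + c v)⁻¹ := by
      rw [S.tt_add]
      have h4 : (c u + 1)⁻¹ + (c v + 1)⁻¹ = (c u + c v) * ((c u + 1) * (c v + 1))⁻¹ := by
        field_simp
        linear_combination S.two_eq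
      rw [h4, mul_inv, inv_inv]
      ring
    have h5 : ∀ (w : UG F q) (i : ℕ), c (w ^ θ) ^ (2 * i + 1) =
        c w ^ (θ * (2 * i + 1) % (q + 1)) := by
      intro w i
      rw [← c_pow, ← c_pow, ← pow_mul]
      congr 1
      exact S.pow_congr (Nat.mod_modEq _ _).symm w
    rw [h3, S.tt_add, S.inv_eq_sum (hne u hu), S.inv_eq_sum (hne v hv.2.1), ← Finset.sum_mul,
      ← Finset.sum_add_distrib]
    congr 1
    apply Finset.sum_congr rfl
    intro i _
    rw [h5, h5]
  rw [Finset.sum_congr rfl h1, Finset.sum_comm]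
  apply Finset.sum_congr rfl
  intro i hi
  rw [Finset.mem_range] at hi
  apply S.sum_identity hu
  · have : θ * (2 * i + 1) % (q + 1) ≠ 0 := by
      intro h0
      have h2 := Nat.dvd_of_mod_eq_zero h0
      have h3 := hθc.dvd_of_dvd_mul_left h2
      have h4 := Nat.le_of_dvd (by omega) h3
      omega
    omega
  · have := Nat.mod_lt (θ * (2 * i + 1)) (show 0 < q + 1 by omega)
    omega

/-- constancy of the slope sums determines the exponent up to a power of two -/
theorem exponent_of_const {θ ψ : ℕ} (hθc : Nat.Coprime (q + 1) θ) (hψ0 : 0 < ψ) (hψ : ψ < q + 1)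
    (hψθ : ψ * θ ≡ 1 [MOD q + 1]) {C0 : F}
    (hC : ∀ u : UG F q, u ≠ 1 → ∑ i ∈ Finset.range (q / 2),
      (c u ^ (2 * ((θ * (2 * i + 1) % (q + 1) + 1) / 2) - 1) +
        c u ^ (2 * ((θ * (2 * i + 1) % (q + 1) + 1) / 2))) = C0) :
    ∃ i, ψ = 2 ^ i ∨ q + 1 - ψ = 2 ^ i := by
  have hq2 : 2 * (q / 2) = q := Nat.two_mul_div_two_of_even S.q_even
  have h2 := S.q_ge
  set J : ℕ → ℕ := fun i => (θ * (2 * i + 1) % (q + 1) + 1) / 2 with hJ
  have hJpos : ∀ i, i < q / 2 → 1 ≤ J i ∧ 2 * J i ≤ q := by
    intro i hi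
    have h3 : θ * (2 * i + 1) % (q + 1) ≠ 0 := by
      intro h0
      have h2 := Nat.dvd_of_mod_eq_zero h0
      have h3 := hθc.dvd_of_dvd_mul_left h2
      have h4 := Nat.le_of_dvd (by omega) h3
      omega
    have h4 := Nat.mod_lt (θ * (2 * i + 1)) (show 0 < q + 1 by omega)
    simp only [hJ]
    omega
  let p : F[X] := (∑ i ∈ Finset.range (q / 2), (X ^ (2 * J i - 1) + X ^ (2 * J i))) + C C0
  let Ψ : F[X] := ∑ i ∈ Finset.range (q + 1), X ^ i
  set a := p.coeff q with ha
  have hpdeg : ∀ d, q < d → p.coeff d = 0 := by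
    intro d hd
    simp only [p, coeff_add, finsetSum_coeff, coeff_X_pow, coeff_C]
    rw [if_neg (by omega), add_zero]
    apply Finset.sum_eq_zero
    intro i hi
    rw [Finset.mem_range] at hi
    have := hJpos i hi
    rw [if_neg (by omega), if_neg (by omega), add_zero]
  have hΨ : ∀ d, Ψ.coeff d = if d < q + 1 then 1 else 0 := by
    intro d
    simp only [Ψ, finsetSum_coeff, coeff_X_pow]
    rw [Finset.sum_ite_eq]
    simp
  have hp0 : p - C a * Ψ = 0 := by
    apply eq_zero_of_natDegree_lt_card_of_eval_eq_zero' _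
      (((univ : Finset (UG F q)).erase 1).image c)
    · intro x hx
      rw [Finset.mem_image] at hx
      obtain ⟨u, hu, rfl⟩ := hx
      rw [Finset.mem_erase] at hu
      have h3 : Ψ.eval (c u) = 0 := by
        simp only [Ψ, eval_finsetSum, eval_pow, eval_X]
        exact S.geom_full hu.1
      have h4 : p.eval (c u) = 0 := by
        simp only [p, eval_add, eval_finsetSum, eval_pow, eval_X, eval_C]
        rw [hC u hu.1, S.add_self]
      rw [eval_sub, eval_mul, h3, h4, mul_zero, sub_zero]
    · rw [Finset.card_image_of_injective _ (fun x y h => c_inj h),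
        Finset.card_erase_of_mem (Finset.mem_univ _), Finset.card_univ, S.card_UG']
      have h3 : (p - C a * Ψ).natDegree ≤ q - 1 := by
        rw [natDegree_le_iff_coeff_eq_zero]
        intro d hd
        rw [coeff_sub, coeff_C_mul, hΨ]
        rcases Nat.lt_or_ge q d with h4 | h4
        · rw [hpdeg d h4, if_neg (by omega)]; ring
        · have h5 : d = q := by omega
          rw [h5, if_pos (by omega), ← ha]; ring
      omega
  have hcoeff : ∀ d, d ≤ q → p.coeff d = a := by
    intro d hd
    have h3 : p = C a * Ψ := sub_eq_zero.1 hp0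
    rw [h3, coeff_C_mul, hΨ, if_pos (by omega), mul_one]
  -- number of `i` with `J i = j`
  have hcount : ∀ j, 1 ≤ j → 2 * j ≤ q →
      (((Finset.range (q / 2)).filter fun i => J i = j).card : F) = a := by
    intro j hj1 hj2
    rw [← hcoeff (2 * j) hj2]
    simp only [p, coeff_add, finsetSum_coeff, coeff_X_pow, coeff_C]
    rw [if_neg (by omega), add_zero, ← Finset.sum_boole]
    apply Finset.sum_congr rfl
    intro i hi
    rw [Finset.mem_range] at hi
    have := hJpos i hi
    rw [if_neg (show ¬ 2 * j = 2 * J i - 1 by omega), zero_add]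
    by_cases h : J i = j
    · rw [if_pos h, if_pos (by omega)]
    · rw [if_neg h, if_neg (by omega)]
  -- preimages
  have hpre : ∀ m, 1 ≤ m → m ≤ q →
      ((Finset.range (q / 2)).filter fun i => θ * (2 * i + 1) % (q + 1) = m).card =
        m * ψ % (q + 1) % 2 := by
    intro m hm1 hm2
    have hlt := Nat.mod_lt (m * ψ) (show 0 < q + 1 by omega)
    have hkey : ∀ i, i < q / 2 → (θ * (2 * i + 1) % (q + 1) = m ↔ 2 * i + 1 = m * ψ % (q + 1)) := by
      intro i hi
      constructor
      · intro h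
        have h3 : 2 * i + 1 ≡ m * ψ [MOD q + 1] := by
          calc 2 * i + 1 = 1 * (2 * i + 1) := (one_mul _).symm
            _ ≡ (ψ * θ) * (2 * i + 1) [MOD q + 1] := (hψθ.symm).mul_right _
            _ = (θ * (2 * i + 1)) * ψ := by ring
            _ ≡ m * ψ [MOD q + 1] := by
                apply Nat.ModEq.mul_right
                unfold Nat.ModEq
                rw [h, Nat.mod_eq_of_lt (by omega)]
        unfold Nat.ModEq at h3
        rwa [Nat.mod_eq_of_lt (by omega)] at h3
      · intro h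
        have h3 : θ * (2 * i + 1) ≡ m [MOD q + 1] := by
          calc θ * (2 * i + 1) ≡ θ * (m * ψ) [MOD q + 1] := by
                apply Nat.ModEq.mul_left
                rw [h]
                exact Nat.mod_modEq _ _
            _ = (ψ * θ) * m := by ring
            _ ≡ 1 * m [MOD q + 1] := hψθ.mul_right _
            _ = m := one_mul _
        unfold Nat.ModEq at h3
        rwa [Nat.mod_eq_of_lt (show m < q + 1 by omega)] at h3
    rcases Nat.mod_two_eq_zero_or_one (m * ψ % (q + 1)) with h | h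
    · rw [h, Finset.card_eq_zero, Finset.filter_eq_empty_iff]
      intro i hi h3
      rw [Finset.mem_range] at hi
      have := (hkey i hi).1 h3
      omega
    · rw [h, Finset.card_eq_one]
      refine ⟨(m * ψ % (q + 1)) / 2, ?_⟩
      ext i
      rw [Finset.mem_filter, Finset.mem_range, Finset.mem_singleton]
      constructor
      · rintro ⟨hi, h3⟩
        have := (hkey i hi).1 h3
        omega
      · intro h3
        have hi : i < q / 2 := by omega
        refine ⟨hi, (hkey i hi).2 (by omega)⟩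
  have hsplit : ∀ j, 1 ≤ j → 2 * j ≤ q →
      ((Finset.range (q / 2)).filter fun i => J i = j).card =
        (2 * j - 1) * ψ % (q + 1) % 2 + 2 * j * ψ % (q + 1) % 2 := by
    intro j hj1 hj2
    rw [← hpre (2 * j - 1) (by omega) (by omega), ← hpre (2 * j) (by omega) hj2,
      ← Finset.card_union_of_disjoint]
    · congr 1
      ext i
      simp only [Finset.mem_filter, Finset.mem_union, hJ]
      constructor
      · rintro ⟨h3, h4⟩
        have : θ * (2 * i + 1) % (q + 1) = 2 * j - 1 ∨ θ * (2 * i + 1) % (q + 1) = 2 * j := by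
          omega
        rcases this with h5 | h5
        · left; exact ⟨h3, h5⟩
        · right; exact ⟨h3, h5⟩
      · rintro (⟨h3, h4⟩ | ⟨h3, h4⟩)
        · exact ⟨h3, by omega⟩
        · exact ⟨h3, by omega⟩
    · rw [Finset.disjoint_left]
      intro i h3 h4
      rw [Finset.mem_filter] at h3 h4
      omega
  have hcop : Nat.Coprime ψ (q + 1) := by
    have h3 : Nat.Coprime (ψ * θ) (q + 1) := by
      rw [Nat.Coprime, Nat.ModEq.gcd_eq hψθ]
      simp
    exact Nat.Coprime.coprime_mul_right h3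
  apply pow_two_of_parity (ε := ((Finset.range (q / 2)).filter fun i => J i = 1).card % 2)
    S.hk S.hq rfl hψ0 hψ hcop
  intro j hj1 hj2
  rw [← hsplit j hj1 hj2]
  have h3 : (((Finset.range (q / 2)).filter fun i => J i = j).card : F) =
      (((Finset.range (q / 2)).filter fun i => J i = 1).card : F) := by
    rw [hcount j hj1 hj2, hcount 1 le_rfl (by omega)]
  have hchar := S.char
  exact (CharP.natCast_eq_natCast F 2).1 h3

end Setup

end Pool.Agent.Helper36.Niho
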