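import Pool.Agent.Helper36.Niho.Rot

set_option autoImplicit false
set_option linter.unusedSectionVars false
set_option linter.style.haveILetI false

/-!
# Four values force `e - 1` and `e + 1` to be units
-/

namespace Pool.Agent.Helper36.Niho

open Finset Classical

variable {F : Type} [Field F] [Fintype F]

/-- The set of values taken at nonzero arguments. -/
noncomputable def VV (F : Type) [Field F] [Fintype F] (q e : ℕ) : Finset ℕ :=
  (univ.filter fun a : F => a ≠ 0).image fun a => NN q e a

lemma mem_VV {q e : ℕ} {a : F} (ha : a ≠ 0) : NN q e a ∈ VV F q e := by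
  unfold VV
  exact Finset.mem_image.2 ⟨a, by simpa using ha, rfl⟩

namespace Setup

variable {k q : ℕ} (S : Setup F k q)
include S

lemma all_values {e : ℕ} (he : Nat.Coprime (q + 1) e) {a : F} :
    NN q e a ∈ insert 1 (VV F q e) := by
  by_cases ha : a = 0
  · rw [ha, S.NN_zero he]
    exact Finset.mem_insert_self _ _
  · exact Finset.mem_insert_of_mem (mem_VV ha)

lemma q_ge_four {e : ℕ} (hV : (VV F q e).card = 4) : 4 ≤ q := by
  have h1 : (VV F q e).card ≤ (univ.filter fun a : F => a ≠ 0).card := Finset.card_image_le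
  have h2 : (univ.filter fun a : F => a ≠ 0).card < (univ : Finset F).card := by
    apply Finset.card_lt_card
    rw [Finset.filter_ssubset]
    exact ⟨0, Finset.mem_univ _, by simp⟩
  rw [Finset.card_univ, S.hF] at h2
  have h3 : 4 < q ^ 2 := by omega
  obtain ⟨k', hk'⟩ : ∃ k', k = k' + 1 := ⟨k - 1, by have := S.hk; omega⟩
  have hq := S.hq
  rw [hk'] at hq
  rcases k' with _ | k'
  · norm_num at hq
    rw [hq] at h3
    norm_num at h3
  · rw [hq, pow_succ, pow_succ]
    have : 0 < 2 ^ k' := by positivity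
    omega

/-- if one plane contains everything, there are at most two values -/
lemma full_plane {e : ℕ} {a0 : F} (h : NN q e a0 = q + 1) {a : F} (ha : a ≠ a0) :
    NN q e a = 1 := by
  have h1 : Pl q e a0 1 = univ := by
    rw [← Finset.card_eq_iff_eq_univ, S.card_UG']
    exact h
  have hne : a + a0 ≠ 0 := fun h0 => ha (S.eq_of_add_eq_zero h0)
  unfold NN
  rw [← S.card_tr_mul_c hne]
  congr 1
  ext w
  have h2 : w ∈ Pl q e a0 1 := by rw [h1]; exact Finset.mem_univ _
  rw [S.mem_Pl_one] at h2 ⊢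
  simp only [Finset.mem_filter, Finset.mem_univ, true_and]
  rw [add_mul, S.tr_add_eq, h2]

lemma not_full {e : ℕ} (hV : 3 ≤ (VV F q e).card) (a0 : F) : NN q e a0 ≠ q + 1 := by
  intro h
  have h1 : VV F q e ⊆ {1, q + 1} := by
    intro x hx
    unfold VV at hx
    rw [Finset.mem_image] at hx
    obtain ⟨a, _, rfl⟩ := hx
    by_cases ha : a = a0
    · rw [ha, h]; simp
    · rw [S.full_plane h ha]; simp
  have h2 := Finset.card_le_card h1
  have h3 := Finset.card_le_two (a := 1) (b := q + 1)
  omega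

lemma zero_mem_VV {e : ℕ} (he : Nat.Coprime (q + 1) e) (hV : 3 ≤ (VV F q e).card) :
    0 ∈ VV F q e := by
  by_contra h0
  have hpos : ∀ a : F, 1 ≤ NN q e a := by
    intro a
    by_contra hlt
    have h1 : NN q e a = 0 := by omega
    have h2 := S.all_values he (a := a)
    rw [h1, Finset.mem_insert] at h2
    rcases h2 with h2 | h2
    · omega
    · exact h0 h2
  have hs1 : ∑ a : F, ((NN q e a : ℤ) - 1) = q := by
    rw [Finset.sum_sub_distrib]
    have := S.sum_NN e
    have h2 : ∑ a : F, (NN q e a : ℤ) = ((q + 1) * q : ℕ) := by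
      rw [← this]; push_cast; rfl
    rw [h2]
    simp only [Finset.sum_const, Finset.card_univ, S.hF, nsmul_eq_mul, mul_one]
    push_cast
    ring
  have hs2 : ∑ a : F, ((NN q e a : ℤ) - 1) ^ 2 = (q : ℤ) ^ 2 := by
    have h3 : ∀ a : F, ((NN q e a : ℤ) - 1) ^ 2 =
        ((Pl q e a 1).offDiag.card : ℤ) - ((NN q e a : ℤ) - 1) := by
      intro a
      rw [S.offDiag_NN]; ring
    simp_rw [h3]
    rw [Finset.sum_sub_distrib, hs1]
    have := S.sum_offDiag e
    have h2 : ∑ a : F, ((Pl q e a 1).offDiag.card : ℤ) = ((q + 1) * q : ℕ) := by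
      rw [← this]; push_cast; rfl
    rw [h2]
    push_cast
    ring
  have hs3 : ∑ a : F, ((NN q e a : ℤ) - 1) * (q - ((NN q e a : ℤ) - 1)) = 0 := by
    have h4 : ∀ a : F, ((NN q e a : ℤ) - 1) * (q - ((NN q e a : ℤ) - 1)) =
        q * ((NN q e a : ℤ) - 1) - ((NN q e a : ℤ) - 1) ^ 2 := by intro a; ring
    simp_rw [h4]
    rw [Finset.sum_sub_distrib, ← Finset.mul_sum, hs1, hs2]
    ring
  have hs4 : ∀ a : F, ((NN q e a : ℤ) - 1) * (q - ((NN q e a : ℤ) - 1)) = 0 := by
    have h5 : ∀ a ∈ (univ : Finset F), 0 ≤ ((NN q e a : ℤ) - 1) * (q - ((NN q e a : ℤ) - 1)) := by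
      intro a _
      have h6 := hpos a
      have h7 := S.NN_le e a
      apply mul_nonneg
      · have : (1 : ℤ) ≤ NN q e a := by exact_mod_cast h6
        linarith
      · have : (NN q e a : ℤ) ≤ q + 1 := by exact_mod_cast h7
        linarith
    intro a
    exact (Finset.sum_eq_zero_iff_of_nonneg h5).1 hs3 a (Finset.mem_univ a)
  have h1 : VV F q e ⊆ {1, q + 1} := by
    intro x hx
    unfold VV at hx
    rw [Finset.mem_image] at hx
    obtain ⟨a, _, rfl⟩ := hx
    have h6 := hs4 a
    rw [Finset.mem_insert, Finset.mem_singleton]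
    rcases mul_eq_zero.1 h6 with h7 | h7
    · left; omega
    · right; omega
  have h2 := Finset.card_le_card h1
  have h3 := Finset.card_le_two (a := 1) (b := q + 1)
  omega

lemma zero_mem_Kset : (0 : F) ∈ univ.filter (fun x : F => x ^ q = x) := by
  simp [zero_pow S.q_pos.ne']

lemma one_mem_VV {e : ℕ} (he : Nat.Coprime (q + 1) e) (hq : 4 ≤ q) : 1 ∈ VV F q e := by
  by_contra h1
  have h2 : ∀ a ∈ (univ.filter (fun x : F => x ^ q = x)).erase 0, 3 ≤ NN q e a := by
    intro a ha
    rw [Finset.mem_erase] at ha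
    simp only [Finset.mem_filter, Finset.mem_univ, true_and] at ha
    obtain ⟨m, hm⟩ := S.odd_NN_K (e := e) ha.2
    have h3 : NN q e a ≠ 1 := by
      intro h4
      apply h1
      rw [← h4]
      exact mem_VV ha.1
    omega
  have h3 := S.sum_NN_K e
  rw [← Finset.add_sum_erase _ _ S.zero_mem_Kset, S.NN_zero he] at h3
  have h4 : ((univ.filter (fun x : F => x ^ q = x)).erase 0).card • 3 ≤
      ∑ x ∈ (univ.filter (fun x : F => x ^ q = x)).erase 0, NN q e x :=
    Finset.card_nsmul_le_sum _ _ _ h2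
  rw [Finset.card_erase_of_mem S.zero_mem_Kset, S.card_K, smul_eq_mul] at h4
  omega

lemma exists_odd_value (e : ℕ) : ∃ a : F, a ^ q = a ∧ 3 ≤ NN q e a := by
  by_contra h
  push Not at h
  have h1 : ∀ a ∈ univ.filter (fun x : F => x ^ q = x), NN q e a = 1 := by
    intro a ha
    simp only [Finset.mem_filter, Finset.mem_univ, true_and] at ha
    obtain ⟨m, hm⟩ := S.odd_NN_K (e := e) ha
    have := h a ha
    omega
  have h2 := S.sum_NN_K e
  rw [Finset.sum_congr rfl h1, Finset.sum_const, S.card_K, smul_eq_mul] at h2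
  have := S.q_pos
  omega

lemma index_range (m : ℕ) :
    (powMonoidHom m : UG F q →* UG F q).range.index = (q + 1).gcd m := by
  have := S.cyc
  rw [IsCyclic.index_powMonoidHom_range, S.card_UG]

lemma exists_mem_not_mem {m m' : ℕ} (hc : Nat.Coprime ((q + 1).gcd m) ((q + 1).gcd m'))
    (h : 1 < (q + 1).gcd m') :
    ∃ g : UG F q, g ∈ (powMonoidHom m : UG F q →* UG F q).range ∧
      g ∉ (powMonoidHom m' : UG F q →* UG F q).range := by
  by_contra hcon
  push Not at hcon
  have h1 : (powMonoidHom m : UG F q →* UG F q).range ≤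
      (powMonoidHom m' : UG F q →* UG F q).range := fun g hg => hcon g hg
  have h2 := Subgroup.index_dvd_of_le h1
  rw [S.index_range, S.index_range] at h2
  have h3 := Nat.Coprime.eq_one_of_dvd hc.symm h2
  omega

lemma odd_dvd {d : ℕ} (h : d ∣ q + 1) (hd : 1 < d) : 3 ≤ d := by
  have h1 := S.q_even
  by_contra hlt
  have h2 : d = 2 := by omega
  rw [h2] at h
  obtain ⟨m, hm⟩ := h1
  omega

lemma gcd_coprime {e : ℕ} (he : 1 ≤ e) :
    Nat.Coprime ((q + 1).gcd (e - 1)) ((q + 1).gcd (e + 1)) := by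
  have h1 : Nat.gcd ((q + 1).gcd (e - 1)) ((q + 1).gcd (e + 1)) ∣ 2 := by
    have h2 : Nat.gcd ((q + 1).gcd (e - 1)) ((q + 1).gcd (e + 1)) ∣ e - 1 :=
      (Nat.gcd_dvd_left _ _).trans (Nat.gcd_dvd_right _ _)
    have h3 : Nat.gcd ((q + 1).gcd (e - 1)) ((q + 1).gcd (e + 1)) ∣ e + 1 :=
      (Nat.gcd_dvd_right _ _).trans (Nat.gcd_dvd_right _ _)
    have h4 : e + 1 = (e - 1) + 2 := by omega
    exact (Nat.dvd_add_right h2).1 (by rw [← h4]; exact h3)
  have h2 : Nat.gcd ((q + 1).gcd (e - 1)) ((q + 1).gcd (e + 1)) ∣ q + 1 :=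
    (Nat.gcd_dvd_left _ _).trans (Nat.gcd_dvd_left _ _)
  by_contra hne
  have h3 : Nat.gcd ((q + 1).gcd (e - 1)) ((q + 1).gcd (e + 1)) = 2 := by
    rcases (Nat.dvd_prime Nat.prime_two).1 h1 with h | h
    · exact absurd h hne
    · exact h
  rw [h3] at h2
  obtain ⟨m, hm⟩ := S.q_even
  omega

lemma NN_one' {e : ℕ} (he : 1 ≤ e) (hce : Nat.Coprime (q + 1) e) :
    NN q e (1 : F) + 1 = (q + 1).gcd (e - 1) + (q + 1).gcd (e + 1) := by
  have := S.NN_U he hce 1
  rw [c_one, if_pos rfl, if_pos (one_mem _), if_pos (one_mem _)] at this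
  exact this

/-- both gcds cannot be nontrivial -/
lemma not_both {e : ℕ} (he : 1 ≤ e) (hce : Nat.Coprime (q + 1) e) (hV : (VV F q e).card = 4) :
    ¬ (1 < (q + 1).gcd (e - 1) ∧ 1 < (q + 1).gcd (e + 1)) := by
  rintro ⟨h1, h2⟩
  have hq := S.q_ge_four hV
  have hc := S.gcd_coprime he
  have h31 := S.odd_dvd (Nat.gcd_dvd_left _ _) h1
  have h32 := S.odd_dvd (Nat.gcd_dvd_left _ _) h2
  obtain ⟨g1, hg1, hg1'⟩ := S.exists_mem_not_mem hc h2
  obtain ⟨g2, hg2, hg2'⟩ := S.exists_mem_not_mem hc.symm h1
  have hn1 : g1 ≠ 1 := by rintro rfl; exact hg1' (one_mem _)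
  have hn2 : g2 ≠ 1 := by rintro rfl; exact hg2' (one_mem _)
  have e1 := S.NN_U he hce g1
  rw [if_neg hn1, if_pos hg1, if_neg hg1'] at e1
  have e2 := S.NN_U he hce g2
  rw [if_neg hn2, if_pos hg2, if_neg hg2'] at e2
  have e3 := S.NN_one' he hce
  have m0 := S.zero_mem_VV hce (by omega)
  have m1 := S.one_mem_VV hce hq
  have m2 := mem_VV (q := q) (e := e) (c_ne g1)
  have m3 := mem_VV (q := q) (e := e) (c_ne g2)
  have m4 := mem_VV (q := q) (e := e) (one_ne_zero (α := F))
  set d1 := (q + 1).gcd (e - 1)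
  set d2 := (q + 1).gcd (e + 1)
  have hd : d1 ≠ d2 := by
    intro h
    rw [h] at hc
    have := (Nat.coprime_self _).1 hc
    omega
  have e1' : NN q e (c g1) = d1 := by omega
  have e2' : NN q e (c g2) = d2 := by omega
  have e3' : NN q e (1 : F) = d1 + d2 - 1 := by omega
  rw [e1'] at m2
  rw [e2'] at m3
  rw [e3'] at m4
  have hsub : ({0, 1, d1, d2, d1 + d2 - 1} : Finset ℕ) ⊆ VV F q e := by
    intro x hx
    simp only [Finset.mem_insert, Finset.mem_singleton] at hx
    rcases hx with rfl | rfl | rfl | rfl | rfl <;> assumption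
  have hcard : ({0, 1, d1, d2, d1 + d2 - 1} : Finset ℕ).card = 5 := by
    rw [Finset.card_insert_of_notMem, Finset.card_insert_of_notMem, Finset.card_insert_of_notMem,
      Finset.card_insert_of_notMem, Finset.card_singleton]
    · simp only [Finset.mem_singleton]; omega
    · simp only [Finset.mem_insert, Finset.mem_singleton]; omega
    · simp only [Finset.mem_insert, Finset.mem_singleton]; omega
    · simp only [Finset.mem_insert, Finset.mem_singleton]; omega
  have := Finset.card_le_card hsub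
  omega

lemma line_symm {e : ℕ} {v w x : UG F q} (h : OnLine q e v w x) : OnLine q e w v x := by
  obtain ⟨α, β, h1, h2, h3, h4⟩ := h
  exact ⟨β, α, h2, h1, by rw [h3, add_comm], by rw [h4, add_comm]⟩

lemma line_trans {e : ℕ} {v w x p : UG F q} (h : OnLine q e v x p) (h' : OnLine q e v w x) :
    OnLine q e v w p := by
  obtain ⟨α, β, h1, h2, h3, h4⟩ := h
  obtain ⟨α', β', h1', h2', h3', h4'⟩ := h'
  refine ⟨α + β * α', β * β', ?_, ?_, ?_, ?_⟩
  · rw [S.conj_add, mul_pow, h1, h2, h1']
  · rw [mul_pow, h2, h2']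
  · rw [h3, h3']; ring
  · rw [h4, h4']; ring

lemma apt_two_le {e : ℕ} {v w : UG F q} (h : v ≠ w) : 2 ≤ NN q e (apt e v w) := by
  have h1 : ({v, w} : Finset (UG F q)) ⊆ Pl q e (apt e v w) 1 := by
    intro x hx
    simp only [Finset.mem_insert, Finset.mem_singleton] at hx
    rcases hx with rfl | rfl
    · exact S.apt_left h
    · exact S.apt_right h
  have h2 := Finset.card_le_card h1
  rw [Finset.card_pair h] at h2
  exact h2

/-- the geometric contradiction: all lines have `D` points but some plane has `D + 1` -/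
lemma geom {e D : ℕ} (hD : 3 ≤ D) (hl : ∀ z : UG F q, z ≠ 1 → (Ln q e 1 z).card = D)
    {a : F} (ha : NN q e a = D + 1) : False := by
  have hl' : ∀ v w : UG F q, v ≠ w → (Ln q e v w).card = D := by
    intro v w hvw
    rw [S.card_Ln]
    apply hl
    intro h
    apply hvw
    rw [← mul_one v, ← h]
    rw [mul_comm v, mul_assoc, inv_mul_cancel, mul_one]
  have hP : (Pl q e a 1).card = D + 1 := ha
  obtain ⟨v, hv, w, hw, hvw⟩ := Finset.one_lt_card.1 (show 1 < (Pl q e a 1).card by omega)
  have hsub := S.line_sub_plane hv hw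
  have hL := hl' v w hvw
  obtain ⟨p, hp, hpL⟩ : ∃ p ∈ Pl q e a 1, p ∉ Ln q e v w := by
    by_contra hcon
    push Not at hcon
    have := Finset.card_le_card (show Pl q e a 1 ⊆ Ln q e v w from hcon)
    omega
  have hpv : p ≠ v := by
    rintro rfl
    exact hpL (S.left_mem_Ln e p w)
  have hsub2 := S.line_sub_plane hp hv
  have hL2 := hl' p v hpv
  -- a third point
  obtain ⟨x, hx, hxn⟩ : ∃ x ∈ Ln q e p v, x ∉ ({p, v} : Finset (UG F q)) := by
    by_contra hcon
    push Not at hcon
    have h1 := Finset.card_le_card (show Ln q e p v ⊆ {p, v} from hcon)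
    have h2 := Finset.card_le_two (a := p) (b := v)
    omega
  simp only [Finset.mem_insert, Finset.mem_singleton, not_or] at hxn
  have hxP := hsub2 hx
  have hxL : x ∈ Ln q e v w := by
    by_contra hxL
    have h1 : insert x (insert p (Ln q e v w)) ⊆ Pl q e a 1 := by
      intro y hy
      simp only [Finset.mem_insert] at hy
      rcases hy with rfl | rfl | hy
      · exact hxP
      · exact hp
      · exact hsub hy
    have h2 := Finset.card_le_card h1
    rw [Finset.card_insert_of_notMem, Finset.card_insert_of_notMem hpL] at h2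
    · omega
    · simp only [Finset.mem_insert, not_or]
      exact ⟨hxn.1, hxL⟩
  rw [mem_Ln] at hx hxL
  have h3 := S.line_exchange (S.line_symm hx) hxn.2
  exact hpL (mem_Ln.2 (S.line_trans h3 hxL))

/-- exactly one nontrivial gcd is impossible -/
lemma not_one {e D : ℕ} (hce : Nat.Coprime (q + 1) e) (hV : (VV F q e).card = 4)
    (hDd : D ∣ q + 1) (hD1 : 1 < D) (h1 : NN q e (1 : F) = D)
    (h2 : D < q + 1 → ∃ g : UG F q, NN q e (c g) = D + 1) : False := by
  have hq := S.q_ge_four hV
  have hD3 := S.odd_dvd hDd hD1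
  have hDle := Nat.le_of_dvd (by omega) hDd
  have hDne : D ≠ q + 1 := by
    intro h
    rw [h] at h1
    exact S.not_full (by omega) 1 h1
  have hDlt : D < q := by
    obtain ⟨m, hm⟩ := hDd
    have : 2 ≤ m := by
      rcases m with _ | _ | m
      · omega
      · omega
      · omega
    nlinarith
  obtain ⟨g, hg⟩ := h2 (by omega)
  have m0 := S.zero_mem_VV hce (by omega)
  have m1 := S.one_mem_VV hce hq
  have m2 := mem_VV (q := q) (e := e) (one_ne_zero (α := F))
  have m3 := mem_VV (q := q) (e := e) (c_ne g)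
  rw [h1] at m2
  rw [hg] at m3
  have hsub : ({0, 1, D, D + 1} : Finset ℕ) ⊆ VV F q e := by
    intro x hx
    simp only [Finset.mem_insert, Finset.mem_singleton] at hx
    rcases hx with rfl | rfl | rfl | rfl <;> assumption
  have hcard : ({0, 1, D, D + 1} : Finset ℕ).card = 4 := by
    rw [Finset.card_insert_of_notMem, Finset.card_insert_of_notMem, Finset.card_insert_of_notMem,
      Finset.card_singleton]
    · simp only [Finset.mem_singleton]; omega
    · simp only [Finset.mem_insert, Finset.mem_singleton]; omega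
    · simp only [Finset.mem_insert, Finset.mem_singleton]; omega
  have hVeq : VV F q e = {0, 1, D, D + 1} :=
    (Finset.eq_of_subset_of_card_le hsub (by omega)).symm
  have hval : ∀ a : F, NN q e a = 0 ∨ NN q e a = 1 ∨ NN q e a = D ∨ NN q e a = D + 1 := by
    intro a
    have := S.all_values hce (a := a)
    rw [hVeq] at this
    simp only [Finset.mem_insert, Finset.mem_singleton] at this
    tauto
  have hl : ∀ z : UG F q, z ≠ 1 → (Ln q e 1 z).card = D := by
    intro z hz
    have hr := S.rot hce hz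
    have hb : ∀ w : UG F q, D ≤ NN q e (apt e w (z * w)) ∧ NN q e (apt e w (z * w)) ≤ D + 1 := by
      intro w
      have hne : w ≠ z * w := by
        intro h
        apply hz
        have : 1 * w = z * w := by rw [one_mul]; exact h
        exact (mul_right_cancel this).symm
      have h3 := S.apt_two_le (e := e) hne
      rcases hval (apt e w (z * w)) with h4 | h4 | h4 | h4 <;> omega
    have hlow : (q + 1) * D ≤ ∑ w : UG F q, NN q e (apt e w (z * w)) := by
      have := Finset.card_nsmul_le_sum univ (fun w : UG F q => NN q e (apt e w (z * w))) D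
        (fun w _ => (hb w).1)
      rwa [Finset.card_univ, S.card_UG', smul_eq_mul] at this
    have hup : ∑ w : UG F q, NN q e (apt e w (z * w)) ≤ (q + 1) * (D + 1) := by
      have := Finset.sum_le_card_nsmul univ (fun w : UG F q => NN q e (apt e w (z * w))) (D + 1)
        (fun w _ => (hb w).2)
      rwa [Finset.card_univ, S.card_UG', smul_eq_mul] at this
    rw [hr] at hlow hup
    set M := (Ln q e 1 z).card
    apply le_antisymm
    · by_contra hlt
      push Not at hlt
      have : q * (D + 1) ≤ q * M := Nat.mul_le_mul_left q hlt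
      nlinarith
    · by_contra hlt
      push Not at hlt
      have : q * (M + 1) ≤ q * D := Nat.mul_le_mul_left q hlt
      nlinarith
  exact S.geom hD3 hl hg

/-- **Theorem A.** -/
theorem thmA {e : ℕ} (he : 1 ≤ e) (hce : Nat.Coprime (q + 1) e) (hV : (VV F q e).card = 4) :
    Nat.Coprime (q + 1) (e - 1) ∧ Nat.Coprime (q + 1) (e + 1) := by
  have hnb := S.not_both he hce hV
  have hc := S.gcd_coprime he
  have p1 : 0 < (q + 1).gcd (e - 1) := Nat.gcd_pos_of_pos_left _ (by omega)
  have p2 : 0 < (q + 1).gcd (e + 1) := Nat.gcd_pos_of_pos_left _ (by omega)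
  have h1' := S.NN_one' he hce
  unfold Nat.Coprime
  by_contra hcon
  have key : ∀ g : UG F q, g ≠ 1 → NN q e (c g) =
      (if g ∈ (powMonoidHom (e - 1) : UG F q →* UG F q).range then (q + 1).gcd (e - 1) else 0) +
      (if g ∈ (powMonoidHom (e + 1) : UG F q →* UG F q).range then (q + 1).gcd (e + 1) else 0) := by
    intro g hg
    have := S.NN_U he hce g
    rw [if_neg hg] at this
    exact this
  -- membership in a subgroup of index one
  have hmem : ∀ m : ℕ, (q + 1).gcd m = 1 → ∀ g : UG F q,
      g ∈ (powMonoidHom m : UG F q →* UG F q).range := by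
    intro m hm g
    have h := S.index_range (F := F) m
    rw [hm, Subgroup.index_eq_one] at h
    rw [h]
    exact Subgroup.mem_top g
  have hnontriv : ∀ m : ℕ, (q + 1).gcd m < q + 1 → ∃ g : UG F q, g ≠ 1 ∧
      g ∈ (powMonoidHom m : UG F q →* UG F q).range := by
    intro m hm
    by_contra hcon
    push Not at hcon
    have h : (powMonoidHom m : UG F q →* UG F q).range = ⊥ := by
      rw [Subgroup.eq_bot_iff_forall]
      intro g hg
      by_contra hne
      exact hcon g hne hg
    have h3 := S.index_range (F := F) m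
    rw [h, Subgroup.index_bot, S.card_UG] at h3
    omega
  by_cases hd1 : 1 < (q + 1).gcd (e - 1)
  · have hd2 : (q + 1).gcd (e + 1) = 1 := by
      by_contra h
      exact hnb ⟨hd1, by omega⟩
    apply S.not_one hce hV (Nat.gcd_dvd_left (q + 1) (e - 1)) hd1
    · omega
    · intro hlt
      obtain ⟨g, hg, hgm⟩ := hnontriv _ hlt
      refine ⟨g, ?_⟩
      rw [key g hg, if_pos hgm, if_pos (hmem _ hd2 g), hd2]
  · have hd1' : (q + 1).gcd (e - 1) = 1 := by omega
    have hd2 : 1 < (q + 1).gcd (e + 1) := by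
      by_contra h
      exact hcon ⟨hd1', by omega⟩
    apply S.not_one hce hV (Nat.gcd_dvd_left (q + 1) (e + 1)) hd2
    · omega
    · intro hlt
      obtain ⟨g, hg, hgm⟩ := hnontriv _ hlt
      refine ⟨g, ?_⟩
      rw [key g hg, if_pos hgm, if_pos (hmem _ hd1' g), hd1', add_comm]

end Setup

end Pool.Agent.Helper36.Niho
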