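import Pool.Agent.Helper36.Niho.ThmA

set_option autoImplicit false
set_option linter.unusedSectionVars false
set_option linter.style.haveILetI false

/-!
# The structure theorem
-/

namespace Pool.Agent.Helper36.Niho

open Finset Classical

variable {F : Type} [Field F] [Fintype F]

namespace Setup

variable {k q : ℕ} (S : Setup F k q)
include S

lemma ne_mul {z : UG F q} (hz : z ≠ 1) (w : UG F q) : w ≠ z * w := by
  intro h
  apply hz
  have : 1 * w = z * w := by rw [one_mul]; exact h
  exact (mul_right_cancel this).symm

/-- counting ordered pairs through blocks of size `v` -/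
lemma count_blocks (e v : ℕ) :
    (univ.filter fun a : F => NN q e a = v).card * (v * v - v) =
      ∑ z ∈ (univ : Finset (UG F q)).erase 1,
        (univ.filter fun w : UG F q => NN q e (apt e w (z * w)) = v).card := by
  have h1 : (univ.filter fun a : F => NN q e a = v).card * (v * v - v) =
      ∑ a ∈ univ.filter (fun a : F => NN q e a = v), (Pl q e a 1).offDiag.card := by
    rw [Finset.sum_congr rfl (g := fun _ => v * v - v), Finset.sum_const, smul_eq_mul]
    intro a ha
    simp only [Finset.mem_filter, Finset.mem_univ, true_and] at ha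
    rw [Finset.offDiag_card, ← ha]
    rfl
  have h2 : ∑ a ∈ univ.filter (fun a : F => NN q e a = v), (Pl q e a 1).offDiag.card =
      ((univ : Finset (UG F q)).offDiag.filter fun p => NN q e (apt e p.1 p.2) = v).card := by
    rw [Finset.card_eq_sum_card_fiberwise (f := fun p : UG F q × UG F q => apt e p.1 p.2)
      (t := univ.filter (fun a : F => NN q e a = v))]
    · apply Finset.sum_congr rfl
      intro a ha
      simp only [Finset.mem_filter, Finset.mem_univ, true_and] at ha
      congr 1
      ext p
      simp only [Finset.mem_offDiag, Finset.mem_filter, Finset.mem_univ, true_and]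
      constructor
      · rintro ⟨h3, h4, h5⟩
        have h6 := S.apt_unique h5 h3 h4
        exact ⟨⟨h5, by rw [← h6]; exact ha⟩, h6.symm⟩
      · rintro ⟨⟨h3, h4⟩, h5⟩
        rw [← h5]
        exact ⟨S.apt_left h3, S.apt_right h3, h3⟩
    · intro p hp
      simp only [Finset.coe_filter, Set.mem_ofPred_eq, Finset.mem_univ, true_and] at hp ⊢
      exact hp.2
  rw [h1, h2]
  rw [Finset.card_eq_sum_card_fiberwise (f := fun p : UG F q × UG F q => p.2 * p.1⁻¹)
      (t := (univ : Finset (UG F q)).erase 1)]
  · apply Finset.sum_congr rfl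
    intro z hz
    rw [Finset.mem_erase] at hz
    apply Finset.card_bij' (fun p _ => p.1) (fun w _ => (w, z * w))
    · intro p hp
      simp only [Finset.mem_offDiag, Finset.mem_filter, Finset.mem_univ, true_and] at hp ⊢
      have : z * p.1 = p.2 := by rw [← hp.2]; simp
      rw [this]
      exact hp.1.2
    · intro w hw
      simp only [Finset.mem_offDiag, Finset.mem_filter, Finset.mem_univ, true_and] at hw ⊢
      exact ⟨⟨S.ne_mul hz.1 w, hw⟩, by simp⟩
    · intro p hp
      simp only [Finset.mem_offDiag, Finset.mem_filter, Finset.mem_univ, true_and] at hp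
      rw [← hp.2]
      simp
    · intro w _
      rfl
  · intro p hp
    simp only [Finset.coe_filter, Finset.mem_offDiag, Finset.mem_univ, true_and,
      Set.mem_ofPred_eq] at hp
    simp only [Finset.coe_erase, Finset.coe_univ, Set.mem_sdiff, Set.mem_univ, true_and,
      Set.mem_singleton_iff]
    intro h
    apply hp.1
    have : p.2 * p.1⁻¹ * p.1 = p.1 := by rw [h, one_mul]
    simpa using this.symm

/-- **Structure theorem.** -/
theorem thmB {e : ℕ} (he : 1 ≤ e) (hce : Nat.Coprime (q + 1) e) (hV : (VV F q e).card = 4) :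
    ∃ g : ℕ, 1 ≤ g ∧ 2 * g ∣ k ∧ VV F q e = {0, 1, 2, 2 ^ g + 1} ∧
      (∀ z : UG F q, z ≠ 1 → (Ln q e 1 z).card = 2) ∧
      (∀ a : F, NN q e a = 0 ∨ NN q e a = 1 ∨ NN q e a = 2 ∨ NN q e a = 2 ^ g + 1) := by
  have hq := S.q_ge_four hV
  obtain ⟨hA1, hA2⟩ := S.thmA he hce hV
  unfold Nat.Coprime at hA1 hA2
  have hmem : ∀ m : ℕ, (q + 1).gcd m = 1 → ∀ g : UG F q,
      g ∈ (powMonoidHom m : UG F q →* UG F q).range := by
    intro m hm g
    have h := S.index_range (F := F) m
    rw [hm, Subgroup.index_eq_one] at h
    rw [h]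
    exact Subgroup.mem_top g
  obtain ⟨g0, hg0⟩ : ∃ g0 : UG F q, g0 ≠ 1 := by
    by_contra hcon
    push Not at hcon
    have h1 : (univ : Finset (UG F q)) ⊆ {1} := by
      intro x _
      rw [hcon x]; simp
    have h2 := Finset.card_le_card h1
    rw [Finset.card_univ, S.card_UG', Finset.card_singleton] at h2
    omega
  have hN2 : NN q e (c g0) = 2 := by
    have h1 := S.NN_U he hce g0
    rw [if_neg hg0, if_pos (hmem _ hA1 _), if_pos (hmem _ hA2 _), hA1, hA2] at h1
    omega
  obtain ⟨a0, ha0, hv3⟩ := S.exists_odd_value (F := F) e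
  obtain ⟨m, hm⟩ := S.odd_NN_K (e := e) ha0
  set v := NN q e a0 with hv
  have ha0' : a0 ≠ 0 := by
    rintro rfl
    rw [S.NN_zero hce] at hv
    omega
  have m0 := S.zero_mem_VV hce (by omega)
  have m1 := S.one_mem_VV hce hq
  have m2 := mem_VV (q := q) (e := e) (c_ne g0)
  have m3 := mem_VV (q := q) (e := e) ha0'
  rw [hN2] at m2
  rw [← hv] at m3
  have hsub : ({0, 1, 2, v} : Finset ℕ) ⊆ VV F q e := by
    intro x hx
    simp only [Finset.mem_insert, Finset.mem_singleton] at hx
    rcases hx with rfl | rfl | rfl | rfl <;> assumption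
  have hcard : ({0, 1, 2, v} : Finset ℕ).card = 4 := by
    rw [Finset.card_insert_of_notMem, Finset.card_insert_of_notMem, Finset.card_insert_of_notMem,
      Finset.card_singleton]
    · simp only [Finset.mem_singleton]; omega
    · simp only [Finset.mem_insert, Finset.mem_singleton]; omega
    · simp only [Finset.mem_insert, Finset.mem_singleton]; omega
  have hVeq : VV F q e = {0, 1, 2, v} :=
    (Finset.eq_of_subset_of_card_le hsub (by omega)).symm
  have hval : ∀ a : F, NN q e a = 0 ∨ NN q e a = 1 ∨ NN q e a = 2 ∨ NN q e a = v := by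
    intro a
    have := S.all_values hce (a := a)
    rw [hVeq] at this
    simp only [Finset.mem_insert, Finset.mem_singleton] at this
    tauto
  -- the value on the subfield
  have hK : ∀ a : F, a ^ q = a → NN q e a = 1 ∨ NN q e a = v := by
    intro a ha
    obtain ⟨m', hm'⟩ := S.odd_NN_K (e := e) ha
    rcases hval a with h | h | h | h
    · omega
    · left; exact h
    · omega
    · right; exact h
  have hy : ∃ y, y * (v - 1) = q := by
    refine ⟨((univ.filter (fun x : F => x ^ q = x)).filter fun a => NN q e a = v).card, ?_⟩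
    have h1 := S.sum_NN_K e
    have h2 : ∀ a ∈ univ.filter (fun x : F => x ^ q = x), NN q e a =
        1 + if NN q e a = v then v - 1 else 0 := by
      intro a ha
      simp only [Finset.mem_filter, Finset.mem_univ, true_and] at ha
      split_ifs with h
      · omega
      · rcases hK a ha with h3 | h3
        · omega
        · exact absurd h3 h
    rw [Finset.sum_congr rfl h2, Finset.sum_add_distrib, Finset.sum_const, S.card_K,
      ← Finset.sum_filter, Finset.sum_const, smul_eq_mul, smul_eq_mul] at h1
    omega
  obtain ⟨y, hy⟩ := hy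
  have hdvd : v - 1 ∣ 2 ^ k := by
    rw [← S.hq, ← hy]
    exact Dvd.intro_left y rfl
  obtain ⟨g, hgk, hg⟩ := (Nat.dvd_prime_pow Nat.prime_two).1 hdvd
  have hv' : v = 2 ^ g + 1 := by omega
  have hg1 : 1 ≤ g := by
    rcases g with _ | g
    · norm_num at hg; omega
    · omega
  -- lines have two points
  have hl : ∀ z : UG F q, z ≠ 1 → (Ln q e 1 z).card = 2 ∧
      (v - 2) * (univ.filter fun w : UG F q => NN q e (apt e w (z * w)) = v).card = q - 1 := by
    intro z hz
    have hr := S.rot hce hz
    set M := (Ln q e 1 z).card with hM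
    have hM2 : 2 ≤ M := by
      have h1 : ({1, z} : Finset (UG F q)) ⊆ Ln q e 1 z := by
        intro x hx
        simp only [Finset.mem_insert, Finset.mem_singleton] at hx
        rcases hx with rfl | rfl
        · exact S.one_mem_Ln e z
        · exact S.right_mem_Ln e 1 _
      have h2 := Finset.card_le_card h1
      rw [Finset.card_pair (Ne.symm hz)] at h2
      exact h2
    have hv2 : ∀ w : UG F q, NN q e (apt e w (z * w)) = 2 ∨ NN q e (apt e w (z * w)) = v := by
      intro w
      have h3 := S.apt_two_le (e := e) (S.ne_mul hz w)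
      rcases hval (apt e w (z * w)) with h4 | h4 | h4 | h4
      · omega
      · omega
      · left; exact h4
      · right; exact h4
    have hMeq : M = 2 := by
      by_contra hne
      have hM3 : 3 ≤ M := by omega
      have hall : ∀ w : UG F q, NN q e (apt e w (z * w)) = v ∧ M ≤ v := by
        intro w
        have h4 := S.line_sub_plane (S.apt_left (e := e) (S.ne_mul hz w))
          (S.apt_right (e := e) (S.ne_mul hz w))
        have h5 := Finset.card_le_card h4
        rw [S.card_Ln_rot e z w, ← hM] at h5
        have h6 : M ≤ NN q e (apt e w (z * w)) := h5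
        rcases hv2 w with h7 | h7
        · omega
        · exact ⟨h7, by omega⟩
      have h8 : ∑ w : UG F q, NN q e (apt e w (z * w)) = (q + 1) * v := by
        rw [Finset.sum_congr rfl (fun w _ => (hall w).1), Finset.sum_const, Finset.card_univ,
          S.card_UG', smul_eq_mul]
      rw [h8] at hr
      -- q ∣ v - 1
      have h9 : q ∣ v - 1 := by
        have h10 : (q + 1) * (v - 1) = q * M := by
          have : (q + 1) * v = (q + 1) * (v - 1) + (q + 1) := by
            obtain ⟨t, ht⟩ : ∃ t, v = t + 1 := ⟨v - 1, by omega⟩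
            rw [ht]; simp only [Nat.add_sub_cancel]; ring
          omega
        have h11 : Nat.Coprime q (q + 1) := by simp
        exact h11.dvd_of_dvd_mul_left (Dvd.intro M h10.symm)
      have h12 := Nat.le_of_dvd (by omega) h9
      have h13 := S.NN_le e a0
      apply S.not_full (e := e) (by omega) a0
      omega
    refine ⟨hMeq, ?_⟩
    rw [hMeq] at hr
    have h2 : ∀ w : UG F q, NN q e (apt e w (z * w)) =
        2 + if NN q e (apt e w (z * w)) = v then v - 2 else 0 := by
      intro w
      split_ifs with h
      · omega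
      · rcases hv2 w with h3 | h3
        · omega
        · exact absurd h3 h
    rw [Finset.sum_congr rfl (fun w _ => h2 w), Finset.sum_add_distrib, Finset.sum_const,
      Finset.card_univ, S.card_UG', ← Finset.sum_filter, Finset.sum_const, smul_eq_mul,
      smul_eq_mul] at hr
    rw [mul_comm]
    omega
  have hbl := S.count_blocks (F := F) e v
  have h2g : 2 * g ∣ k := by
    have h1 : (v - 2) * ((univ.filter fun a : F => NN q e a = v).card * (v * v - v)) =
        q * (q - 1) := by
      rw [hbl, Finset.mul_sum, Finset.sum_congr rfl (g := fun _ => q - 1), Finset.sum_const,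
        Finset.card_erase_of_mem (Finset.mem_univ _), Finset.card_univ, S.card_UG', smul_eq_mul]
      · rfl
      · intro z hz
        rw [Finset.mem_erase] at hz
        exact (hl z hz.1).2
    have h2 : (v - 2) * (v * v - v) = 2 ^ g * (2 ^ (2 * g) - 1) := by
      rw [hv']
      obtain ⟨t, ht⟩ : ∃ t, 2 ^ g = t + 1 := ⟨2 ^ g - 1, by have : 0 < 2 ^ g := by positivity
                                                            omega⟩
      have h3 : 2 ^ (2 * g) = (t + 1) * (t + 1) := by rw [two_mul, pow_add, ht]
      rw [h3, ht]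
      have h4 : (t + 1 + 1) * (t + 1 + 1) - (t + 1 + 1) = (t + 1 + 1) * (t + 1) := by
        have : (t + 1 + 1) * (t + 1 + 1) = (t + 1 + 1) * (t + 1) + (t + 1 + 1) := by ring
        omega
      have h5 : (t + 1) * (t + 1) - 1 = t * (t + 2) := by
        have : (t + 1) * (t + 1) = t * (t + 2) + 1 := by ring
        omega
      rw [h4, h5]
      have h6 : t + 1 + 1 - 2 = t := by omega
      rw [h6]
      ring
    have h3 : 2 ^ (2 * g) - 1 ∣ q * (q - 1) := by
      rw [← h1]
      have : (v - 2) * ((univ.filter fun a : F => NN q e a = v).card * (v * v - v)) =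
          (2 ^ (2 * g) - 1) * (2 ^ g * (univ.filter fun a : F => NN q e a = v).card) := by
        calc (v - 2) * ((univ.filter fun a : F => NN q e a = v).card * (v * v - v)) =
            ((v - 2) * (v * v - v)) * (univ.filter fun a : F => NN q e a = v).card := by ring
          _ = _ := by rw [h2]; ring
      rw [this]
      exact Dvd.intro _ rfl
    have h4 : Nat.Coprime (2 ^ (2 * g) - 1) q := by
      rw [S.hq]
      apply Nat.Coprime.pow_right
      rw [Nat.coprime_two_right]
      have h5 : 2 ∣ 2 ^ (2 * g) := dvd_pow_self 2 (by omega)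
      have h6 : 0 < 2 ^ (2 * g) := by positivity
      obtain ⟨t, ht⟩ := h5
      exact ⟨t - 1, by omega⟩
    have h5 : 2 ^ (2 * g) - 1 ∣ 2 ^ k - 1 := by
      rw [← S.hq]
      exact h4.dvd_of_dvd_mul_left h3
    have h6 := Nat.pow_sub_one_gcd_pow_sub_one 2 (2 * g) k
    rw [Nat.gcd_eq_left h5] at h6
    have h7 : 2 ^ (2 * g) = 2 ^ (Nat.gcd (2 * g) k) := by
      have h8 : 0 < 2 ^ (2 * g) := by positivity
      have h9 : 0 < 2 ^ (Nat.gcd (2 * g) k) := by positivity
      omega
    have h8 := Nat.pow_right_injective (le_refl 2) h7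
    rw [h8]
    exact Nat.gcd_dvd_right _ _
  refine ⟨g, hg1, h2g, by rw [hVeq, hv'], fun z hz => (hl z hz).1, ?_⟩
  intro a
  rw [← hv']
  exact hval a

end Setup

end Pool.Agent.Helper36.Niho
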